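import Mathlib
import Pool.Agent.Y705.EP.Pig
import Pool.Agent.Y564.EP.Grp

set_option autoImplicit false

/-! Units up to few classes: the exceptional classes of a sum `x + y = z` are linked to `y / x`. -/

namespace Pool.Agent.V7H42.ET

open Pool.Agent.Y920.EP

section

variable {F : Type} [Field F] {A : Type} [CommGroup A] {φ : Fˣ →* A} {Nn : A → Subgroup A}

/-- a homomorphism from the units of a field onto an abelian group `A` and subgroups `N(a)` -/
structure Lsys {F : Type} [Field F] {A : Type} [CommGroup A] (φ : Fˣ →* A)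
    (Nn : A → Subgroup A) : Prop where
  surj : Function.Surjective φ
  neg : φ (-1) = 1
  symm : ∀ a b : A, b ∈ Nn a → a ∈ Nn b
  self : ∀ a : A, a ∈ Nn a
  sum : ∀ u v : Fˣ, (v : F) = 1 + u → φ v ∈ Nn (φ u)

/-- the classes linked to `c` -/
def Lk (Nn : A → Subgroup A) (c : A) : Set A := {g | ∃ n : A, n ≠ 1 ∧ n ∈ Nn c ∧ n ∈ Nn g}

/-- the exceptional classes of a sum -/
lemma lk_le (hS : Lsys φ Nn) {x y z : Fˣ} (hz : (z : F) = x + y) (hxy : φ x ≠ φ y) (w : Fˣ)
    (hw : φ w / φ z ∉ Lk Nn (φ y / φ x)) (h : Ml φ w y) : Ml φ w z := by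
  obtain ⟨y', hy', e⟩ := h
  obtain ⟨z', hz'⟩ := Pool.Agent.Y705.EP.exists_add hS.neg (x := x) (y := y')
    (by rw [e]; exact hxy)
  have hz1 : (z' : F) = z + w := by rw [hz', hy', hz]; ring
  by_cases hg : φ z' = φ z
  · exact ⟨z', hz1, hg⟩
  · exfalso
    apply hw
    have hg' : φ z' / φ z ≠ 1 := fun e => hg (div_eq_one.1 e)
    refine ⟨φ z' / φ z, hg', ?_, ?_⟩
    · have h1 := hS.sum (y' / x) (z' / x) (by
        rw [Units.val_div_eq_div_val, Units.val_div_eq_div_val, hz']
        field_simp)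
      have h2 := hS.sum (y / x) (z / x) (by
        rw [Units.val_div_eq_div_val, Units.val_div_eq_div_val, hz]
        field_simp)
      rw [map_div, map_div, e] at h1
      rw [map_div, map_div] at h2
      have h3 := div_mem h1 h2
      rwa [div_div_div_cancel_right] at h3
    · have h1 := hS.sum (w / z) (z' / z) (by
        rw [Units.val_div_eq_div_val, Units.val_div_eq_div_val, hz1]
        field_simp)
      rw [map_div, map_div] at h1
      exact hS.symm _ _ (hS.symm _ _ h1)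

lemma lk_aux (hS : Lsys φ Nn) {M : ℕ} (hM : ∀ c : A, c ≠ 1 → (Lk Nn c).Finite ∧
    (Lk Nn c).ncard ≤ M) {x y z : Fˣ} (hz : (z : F) = x + y) (hxy : φ x ≠ φ y) :
    Le φ M y z := by
  classical
  have ha : φ y / φ x ≠ 1 := fun e => hxy (div_eq_one.1 e).symm
  obtain ⟨hf, hc⟩ := hM _ ha
  let B : Finset A := hf.toFinset.image fun g => φ z * g
  refine ⟨B, Finset.card_image_le.trans ?_, ?_⟩
  · rw [← Set.ncard_eq_toFinset_card _ hf]; exact hc
  · intro w hw h
    refine lk_le hS hz hxy w (fun h1 => hw ?_) h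
    exact Finset.mem_image.2 ⟨φ w / φ z, hf.mem_toFinset.2 h1, mul_div_cancel _ _⟩


/-- The basic lemma. -/
theorem hl_of_lk (hS : Lsys φ Nn) {M : ℕ} (hM : ∀ c : A, c ≠ 1 → (Lk Nn c).Finite ∧
    (Lk Nn c).ncard ≤ M) : HL φ M := by
  intro x y z hz hxy
  exact ⟨lk_aux hS hM (by rw [hz, add_comm]) (Ne.symm hxy), lk_aux hS hM hz hxy⟩

end

end Pool.Agent.V7H42.ET
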