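import Mathlib
import Pool.Agent.V7H42.ET.Lnk

set_option autoImplicit false

/-! Few classes that are not rigid: counting. -/

namespace Pool.Agent.V7H42.ET

open Pool.Agent.Y920.EP

section pow

variable {A : Type} [CommGroup A] {Nn : A → Subgroup A} {p : ℕ}

/-- the trivial class and the classes `a` with `N(a) ≠ ⟨a⟩` -/
def Bad (Nn : A → Subgroup A) : Set A := {a | a = 1 ∨ Nn a ≠ Subgroup.zpowers a}

lemma pow_inv (hp : p.Prime) (hexp : ∀ a : A, a ^ p = 1) {t : ℕ} (ht : ¬ p ∣ t) :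
    ∃ s : ℕ, ∀ a : A, (a ^ t) ^ s = a := by
  have hc : t.Coprime p := (Nat.coprime_comm.1 ((Nat.Prime.coprime_iff_not_dvd hp).2 ht))
  obtain ⟨s, -, hs⟩ := Nat.exists_mul_mod_eq_one_of_coprime hc hp.one_lt
  refine ⟨s, fun a => ?_⟩
  rw [← pow_mul, ← Nat.mod_add_div (t * s) p, hs, pow_add, pow_one, pow_mul, hexp, one_pow,
    mul_one]

lemma mem_pow_iff (hp : p.Prime) (hexp : ∀ a : A, a ^ p = 1) {t : ℕ} (ht : ¬ p ∣ t)
    (H : Subgroup A) (a : A) : a ^ t ∈ H ↔ a ∈ H := by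
  obtain ⟨s, hs⟩ := pow_inv hp hexp ht
  exact ⟨fun h => by rw [← hs a]; exact pow_mem h s, fun h => pow_mem h t⟩

lemma nn_pow (hp : p.Prime) (hexp : ∀ a : A, a ^ p = 1) (symm : ∀ a b : A, b ∈ Nn a → a ∈ Nn b)
    {t : ℕ} (ht : ¬ p ∣ t) (a : A) : Nn (a ^ t) = Nn a := by
  ext c
  have h : ∀ x y : A, y ∈ Nn x ↔ x ∈ Nn y := fun x y => ⟨symm x y, symm y x⟩
  rw [h, mem_pow_iff hp hexp ht, h]

lemma nn_inv (symm : ∀ a b : A, b ∈ Nn a → a ∈ Nn b) (a : A) : Nn a⁻¹ = Nn a := by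
  ext c
  have h : ∀ x y : A, y ∈ Nn x ↔ x ∈ Nn y := fun x y => ⟨symm x y, symm y x⟩
  rw [h, inv_mem_iff, h]

lemma zpowers_pow (hp : p.Prime) (hexp : ∀ a : A, a ^ p = 1) {t : ℕ} (ht : ¬ p ∣ t) (a : A) :
    Subgroup.zpowers (a ^ t) = Subgroup.zpowers a := by
  refine le_antisymm ?_ ?_
  · rw [Subgroup.zpowers_le]; exact pow_mem (Subgroup.mem_zpowers a) t
  · rw [Subgroup.zpowers_le, ← mem_pow_iff hp hexp ht]; exact Subgroup.mem_zpowers _

lemma pow_dvd (hexp : ∀ a : A, a ^ p = 1) {t : ℕ} (ht : p ∣ t) (a : A) : a ^ t = 1 := by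
  obtain ⟨s, rfl⟩ := ht
  rw [pow_mul, hexp, one_pow]

lemma pow_ne (hp : p.Prime) (hexp : ∀ a : A, a ^ p = 1) {t : ℕ} (ht : ¬ p ∣ t) {a : A}
    (ha : a ≠ 1) : a ^ t ≠ 1 := by
  obtain ⟨s, hs⟩ := pow_inv hp hexp ht
  intro h
  apply ha
  rw [← hs a, h, one_pow]

lemma bad_pow (hp : p.Prime) (hexp : ∀ a : A, a ^ p = 1)
    (symm : ∀ a b : A, b ∈ Nn a → a ∈ Nn b) (t : ℕ) {a : A} (ha : a ∈ Bad Nn) :
    a ^ t ∈ Bad Nn := by
  by_cases ht : p ∣ t
  · exact Or.inl (pow_dvd hexp ht a)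
  rcases ha with rfl | ha
  · exact Or.inl (one_pow t)
  · right
    rwa [nn_pow hp hexp symm ht, zpowers_pow hp hexp ht]

lemma bad_of_pow (hp : p.Prime) (hexp : ∀ a : A, a ^ p = 1)
    (symm : ∀ a b : A, b ∈ Nn a → a ∈ Nn b) {t : ℕ} (ht : ¬ p ∣ t) {a : A}
    (ha : a ^ t ∈ Bad Nn) : a ∈ Bad Nn := by
  obtain ⟨s, hs⟩ := pow_inv hp hexp ht
  rw [← hs a]
  exact bad_pow hp hexp symm s ha

lemma bad_inv (symm : ∀ a b : A, b ∈ Nn a → a ∈ Nn b) {a : A} (ha : a⁻¹ ∈ Bad Nn) :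
    a ∈ Bad Nn := by
  rcases ha with ha | ha
  · exact Or.inl (inv_eq_one.1 ha)
  · right
    rwa [nn_inv symm, Subgroup.zpowers_inv] at ha

/-- a natural exponent -/
lemma exists_pow (hp : p.Prime) (hexp : ∀ a : A, a ^ p = 1) {a b : A}
    (h : b ∈ Subgroup.zpowers a) : ∃ t : ℕ, t < p ∧ b = a ^ t := by
  obtain ⟨n, rfl⟩ := Subgroup.mem_zpowers_iff.1 h
  have hp0 : (p : ℤ) ≠ 0 := by exact_mod_cast hp.ne_zero
  have hnn : 0 ≤ n % p := Int.emod_nonneg _ hp0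
  have hlt : n % p < p := Int.emod_lt_of_pos _ (by exact_mod_cast hp.pos)
  refine ⟨(n % p).toNat, by omega, ?_⟩
  have e1 : a ^ n = a ^ (n % p) := by
    conv_lhs => rw [← Int.emod_add_mul_ediv n p]
    rw [zpow_add, zpow_mul, zpow_natCast, hexp, one_zpow, mul_one]
  rw [e1, ← zpow_natCast, Int.toNat_of_nonneg hnn]

/-- `N(b) = ⟨b⟩` for the elements `b ≠ 1` of `N(a) = ⟨a⟩` -/
lemma nn_of_mem (hp : p.Prime) (hexp : ∀ a : A, a ^ p = 1)
    (symm : ∀ a b : A, b ∈ Nn a → a ∈ Nn b) {a b : A} (ha : a ∉ Bad Nn)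
    (hb : b ∈ Nn a) (hb1 : b ≠ 1) : b ∉ Bad Nn ∧ Nn b = Subgroup.zpowers a := by
  have h2 : Nn a = Subgroup.zpowers a := by
    by_contra h; exact ha (Or.inr h)
  rw [h2] at hb
  obtain ⟨t, -, rfl⟩ := exists_pow hp hexp hb
  have ht : ¬ p ∣ t := fun h => hb1 (pow_dvd hexp h a)
  exact ⟨fun h => ha (bad_of_pow hp hexp symm ht h), by rw [nn_pow hp hexp symm ht, h2]⟩

/-- the classes linked to a nontrivial element of `N(a)` -/
lemma lk_rigid (hp : p.Prime) (hexp : ∀ a : A, a ^ p = 1)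
    (symm : ∀ a b : A, b ∈ Nn a → a ∈ Nn b) {a : A} (ha : a ∉ Bad Nn) :
    Lk Nn a ⊆ (Subgroup.zpowers a : Set A) := by
  rintro g ⟨n, hn1, hnc, hng⟩
  have h3 := (nn_of_mem hp hexp symm ha hnc hn1).2
  have h4 : g ∈ Nn n := symm _ _ hng
  rw [h3] at h4
  exact h4

lemma lk_bad (hp : p.Prime) (hexp : ∀ a : A, a ^ p = 1)
    (symm : ∀ a b : A, b ∈ Nn a → a ∈ Nn b) {a : A} (ha : a ∈ Bad Nn) (ha1 : a ≠ 1) :
    Lk Nn a ⊆ Bad Nn := by
  rintro g ⟨n, hn1, hnc, hng⟩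
  by_contra hg
  obtain ⟨h1, h2⟩ := nn_of_mem hp hexp symm hg hng hn1
  exact (nn_of_mem hp hexp symm h1 (symm _ _ hnc) ha1).1 ha

/-- nontrivial elements of `N(a)` are not rigid if `a` is not rigid -/
lemma bad_of_mem (hp : p.Prime) (hexp : ∀ a : A, a ^ p = 1)
    (symm : ∀ a b : A, b ∈ Nn a → a ∈ Nn b) {a b : A} (ha : a ∈ Bad Nn) (ha1 : a ≠ 1)
    (hb : b ∈ Nn a) : b ∈ Bad Nn := by
  by_contra hc
  exact (nn_of_mem hp hexp symm hc (symm _ _ hb) ha1).1 ha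

lemma zpowers_card (hp : p.Prime) (hexp : ∀ a : A, a ^ p = 1) (a : A) :
    (Subgroup.zpowers a : Set A).ncard ≤ p := by
  rw [← Nat.card_coe_set_eq]
  show Nat.card (Subgroup.zpowers a) ≤ p
  rw [Nat.card_zpowers]
  exact Nat.le_of_dvd hp.pos (orderOf_dvd_of_pow_eq_one (hexp a))

end pow

section count

variable {F : Type} [Field F] {A : Type} [CommGroup A] {φ : Fˣ →* A} {Nn : A → Subgroup A}
  {p : ℕ}

/-- the rigid classes `a` with `r + s = 1`, `r` in the class `a` and `s` in the class `a^i` -/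
def Yi (φ : Fˣ →* A) (Nn : A → Subgroup A) (i : ℕ) : Set A :=
  {a | a ∉ Bad Nn ∧ ∃ r s : Fˣ, φ r = a ∧ (r : F) + s = 1 ∧ φ s = a ^ i}

/-- the classes in `Yi` lie on a line -/
lemma yi_line (hp : p.Prime) (hexp : ∀ a : A, a ^ p = 1) (hS : Lsys φ Nn) {i : ℕ} (hi : 2 ≤ i)
    (hip : i < p) {a b : A} (ha : a ∈ Yi φ Nn i) (hb : b ∈ Yi φ Nn i) :
    a ∈ Subgroup.zpowers b := by
  obtain ⟨ha0, r, s, hr, hrs, hs⟩ := ha
  obtain ⟨hb0, r', s', hr', hrs', hs'⟩ := hb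
  by_cases hg : a / b = 1
  · rw [div_eq_one.1 hg]; exact Subgroup.mem_zpowers b
  have hd1 : ¬ p ∣ i := fun h => absurd (Nat.le_of_dvd (by omega) h) (by omega)
  have hd2 : ¬ p ∣ (i - 1) := fun h => absurd (Nat.le_of_dvd (by omega) h) (by omega)
  have hr0 : (r' : F) ≠ 0 := r'.ne_zero
  have hs0 : (s' : F) ≠ 0 := s'.ne_zero
  have e1 : φ (-(r / r')) = a / b := by rw [phi_neg hS.neg, map_div, hr, hr']
  have e2 : φ (-(s / s')) = (a / b) ^ i := by
    rw [phi_neg hS.neg, map_div, hs, hs', div_pow]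
  obtain ⟨v, hv⟩ := Pool.Agent.Y705.EP.exists_one_add hS.neg (y := -(r / r')) (by rwa [e1])
  obtain ⟨v', hv'⟩ := Pool.Agent.Y705.EP.exists_one_add hS.neg (y := -(s / s')) (by
    rw [e2]; exact pow_ne hp hexp hd1 hg)
  have h1 := hS.sum _ _ hv
  have h2 := hS.sum _ _ hv'
  rw [e1] at h1
  rw [e2, nn_pow hp hexp hS.symm hd1] at h2
  have h3 : v * r' = -(v' * s') := by
    apply Units.ext
    rw [Units.val_neg, Units.val_mul, Units.val_mul, hv, hv', Units.val_neg, Units.val_neg,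
      Units.val_div_eq_div_val, Units.val_div_eq_div_val]
    field_simp
    linear_combination hrs' - hrs
  have h4 : φ v * b = φ v' * b ^ i := by
    have := congrArg φ h3
    rwa [phi_neg hS.neg, map_mul, map_mul, hr', hs'] at this
  have h5 : b ^ (i - 1) ∈ Nn (a / b) := by
    have h6 : b ^ (i - 1) = φ v / φ v' := by
      rw [eq_div_iff_mul_eq']
      have h7 : b ^ i = b ^ (i - 1) * b := by rw [← pow_succ, Nat.sub_add_cancel (by omega)]
      rw [h7, ← mul_assoc] at h4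
      rw [mul_comm]
      exact (mul_right_cancel h4).symm
    rw [h6]
    exact div_mem h1 h2
  rw [mem_pow_iff hp hexp hd2] at h5
  have h6 := hS.symm _ _ h5
  have h7 : Nn b = Subgroup.zpowers b := by
    by_contra h; exact hb0 (Or.inr h)
  rw [h7] at h6
  have h8 := mul_mem h6 (Subgroup.mem_zpowers b)
  rwa [div_mul_cancel] at h8

/-- the union of the `Yi` -/
def YY (φ : Fˣ →* A) (Nn : A → Subgroup A) (p : ℕ) : Set A :=
  ⋃ i ∈ Finset.Ico 2 p, Yi φ Nn i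

lemma nr_sub (hp : p.Prime) (hexp : ∀ a : A, a ^ p = 1) (hS : Lsys φ Nn) :
    insert 1 (NR φ) ⊆ Bad Nn ∪ YY φ Nn p := by
  rintro a (rfl | ⟨ha1, r, s, hr, hrs, hs1, hs2⟩)
  · exact Or.inl (Or.inl rfl)
  by_cases hB : a ∈ Bad Nn
  · exact Or.inl hB
  right
  have h1 : (s : F) = 1 + (-r : Fˣ) := by
    rw [Units.val_neg]; linear_combination hrs
  have h2 := hS.sum _ _ h1
  have h3 : Nn a = Subgroup.zpowers a := by
    by_contra h; exact hB (Or.inr h)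
  rw [phi_neg hS.neg, hr, h3] at h2
  obtain ⟨t, ht, e⟩ := exists_pow hp hexp h2
  rw [YY, Set.mem_iUnion₂]
  refine ⟨t, Finset.mem_Ico.2 ⟨?_, ht⟩, hB, r, s, hr, hrs, e⟩
  by_contra hc
  push Not at hc
  interval_cases t
  · rw [pow_zero] at e; exact hs1 e
  · rw [pow_one] at e; exact hs2 e

lemma yy_card [Finite A] (hp : p.Prime) (hexp : ∀ a : A, a ^ p = 1) (hS : Lsys φ Nn) :
    (YY φ Nn p).ncard ≤ (p - 2) * (p - 1) := by
  classical
  have h1 : ∀ i ∈ Finset.Ico 2 p, (Yi φ Nn i).ncard ≤ p - 1 := by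
    intro i hi
    rw [Finset.mem_Ico] at hi
    rcases Set.eq_empty_or_nonempty (Yi φ Nn i) with h | ⟨b, hb⟩
    · rw [h, Set.ncard_empty]; exact Nat.zero_le _
    · have h2 : insert 1 (Yi φ Nn i) ⊆ (Subgroup.zpowers b : Set A) := by
        rintro a (rfl | ha)
        · exact one_mem _
        · exact yi_line hp hexp hS hi.1 hi.2 ha hb
      have h3 : (1 : A) ∉ Yi φ Nn i := fun h => h.1 (Or.inl rfl)
      have h4 := Set.ncard_le_ncard h2 (Set.toFinite _)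
      rw [Set.ncard_insert_of_notMem h3 (Set.toFinite _)] at h4
      have h5 := zpowers_card hp hexp b
      omega
  have h2 : YY φ Nn p ⊆ (((Finset.Ico 2 p).biUnion fun i =>
      (Set.toFinite (Yi φ Nn i)).toFinset : Finset A) : Set A) := by
    intro a ha
    rw [YY, Set.mem_iUnion₂] at ha
    obtain ⟨i, hi, ha⟩ := ha
    rw [Finset.mem_coe, Finset.mem_biUnion]
    exact ⟨i, hi, (Set.Finite.mem_toFinset _).2 ha⟩
  refine (Set.ncard_le_ncard h2 (Set.toFinite _)).trans ?_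
  rw [Set.ncard_coe_finset]
  refine Finset.card_biUnion_le.trans ?_
  calc ∑ i ∈ Finset.Ico 2 p, ((Set.toFinite (Yi φ Nn i)).toFinset).card
      ≤ ∑ _i ∈ Finset.Ico 2 p, (p - 1) := by
        refine Finset.sum_le_sum fun i hi => ?_
        rw [← Set.ncard_eq_toFinset_card]
        exact h1 i hi
    _ = (p - 2) * (p - 1) := by rw [Finset.sum_const, Nat.card_Ico, smul_eq_mul]

/-- the number of classes in `NR` -/
lemma nr_bound [Finite A] (hp : p.Prime) (hexp : ∀ a : A, a ^ p = 1) (hS : Lsys φ Nn) :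
    (insert 1 (NR φ) ∪ Bad Nn).ncard ≤ (Bad Nn).ncard + (p - 2) * (p - 1) := by
  have h1 : insert 1 (NR φ) ∪ Bad Nn ⊆ Bad Nn ∪ YY φ Nn p :=
    Set.union_subset (nr_sub hp hexp hS) Set.subset_union_left
  exact (Set.ncard_le_ncard h1 (Set.toFinite _)).trans ((Set.ncard_union_le _ _).trans
    (Nat.add_le_add_left (yy_card hp hexp hS) _))

/-- linked classes -/
lemma lk_bound [Finite A] (hp : p.Prime) (hexp : ∀ a : A, a ^ p = 1) (hS : Lsys φ Nn) (c : A)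
    (hc : c ≠ 1) : (Lk Nn c).ncard ≤ max p (Bad Nn).ncard := by
  by_cases hcB : c ∈ Bad Nn
  · exact le_max_of_le_right
      (Set.ncard_le_ncard (lk_bad hp hexp hS.symm hcB hc) (Set.toFinite _))
  · exact le_max_of_le_left
      ((Set.ncard_le_ncard (lk_rigid hp hexp hS.symm hcB) (Set.toFinite _)).trans
        (zpowers_card hp hexp c))

end count

end Pool.Agent.V7H42.ET
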