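import Mathlib
import Pool.Agent.V7H42.ET.Few
import Pool.Agent.Y920.EP.FieldP

set_option autoImplicit false

/-! Few classes that are not rigid: a bound that does not depend on the rank.

`g` is small if `g + 1` has the class of `1`.  Outside the set `X` of the classes that are not
strongly rigid, the small elements behave like the elements of positive value. -/

namespace Pool.Agent.V7H42.ET

open Pool.Agent.Y920.EP

section

variable {F : Type} [Field F] {A : Type} [CommGroup A] {φ : Fˣ →* A}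

/-- `g ≪ 1` -/
abbrev Sm (φ : Fˣ →* A) (g : Fˣ) : Prop := Ml φ g 1

/-- the trivial class and the classes that are not strongly rigid -/
def XX (φ : Fˣ →* A) : Set A := insert 1 (NR φ)

lemma nr_inv (hn : φ (-1) = 1) {a : A} (ha : a ∈ NR φ) : a⁻¹ ∈ NR φ := by
  obtain ⟨ha1, r, s, hr, hrs, hs1, hs2⟩ := ha
  refine ⟨fun h => ha1 (inv_eq_one.1 h), r⁻¹, -(s / r), by rw [map_inv, hr], ?_, ?_, ?_⟩
  · rw [Units.val_neg, Units.val_inv_eq_inv_val, Units.val_div_eq_div_val]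
    have : (r : F) ≠ 0 := r.ne_zero
    field_simp
    linear_combination -hrs
  · rw [phi_neg hn, map_div, hr]
    exact fun h => hs2 (div_eq_one.1 h)
  · rw [phi_neg hn, map_div, hr]
    intro h
    apply hs1
    rwa [div_eq_mul_inv, mul_eq_right] at h

lemma xx_inv (hn : φ (-1) = 1) {a : A} : a⁻¹ ∈ XX φ ↔ a ∈ XX φ := by
  have h : ∀ b : A, b ∈ XX φ → b⁻¹ ∈ XX φ := by
    rintro b (rfl | hb)
    · exact Or.inl inv_one
    · exact Or.inr (nr_inv hn hb)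
  exact ⟨fun h1 => by rw [← inv_inv a]; exact h _ h1, h a⟩

lemma sm_excl {g : Fˣ} (hg : φ g ∉ XX φ) (h1 : Sm φ g) (h2 : Sm φ g⁻¹) : False := by
  obtain ⟨z, hz, e1⟩ := h1
  obtain ⟨z', hz', e2⟩ := h2
  have h3 : z = z' * g := by
    apply Units.ext
    rw [Units.val_mul, hz, hz', Units.val_inv_eq_inv_val, Units.val_one]
    have : (g : F) ≠ 0 := g.ne_zero
    field_simp
    ring
  rw [h3, map_mul, e2, map_one, one_mul] at e1
  exact hg (Or.inl e1)

lemma sm_or (hn : φ (-1) = 1) {g : Fˣ} (hg : φ g ∉ XX φ) : Sm φ g ∨ Sm φ g⁻¹ :=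
  ml_of hn (fun h => hg (Or.inr h)) (fun h => hg (Or.inl h))

lemma sm_inv_iff (hn : φ (-1) = 1) {g : Fˣ} (hg : φ g ∉ XX φ) : Sm φ g⁻¹ ↔ ¬ Sm φ g :=
  ⟨fun h h1 => sm_excl hg h1 h, fun h => (sm_or hn hg).resolve_left h⟩

lemma sum2 (hn : φ (-1) = 1) {x y : Fˣ} (h : φ x / φ y ∉ XX φ) :
    ∃ S : Fˣ, (S : F) = x + y ∧ (φ S = φ x ∨ φ S = φ y) := by
  rw [← map_div] at h
  obtain ⟨s, hs, h1⟩ := rigid_of hn (x := x / y) (fun h1 => h (Or.inr h1))
    (fun h1 => h (Or.inl h1))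
  refine ⟨s * y, ?_, ?_⟩
  · rw [Units.val_mul, hs, Units.val_div_eq_div_val]
    have : (y : F) ≠ 0 := y.ne_zero
    field_simp
    ring
  · rw [map_mul]
    rcases h1 with h1 | h1
    · right; rw [h1, one_mul]
    · left; rw [h1, map_div, div_mul_cancel]

/-- products of small elements -/
lemma sm_mul (hn : φ (-1) = 1) {g h : Fˣ} (hg : φ g ∉ XX φ) (hh : φ h ∉ XX φ)
    (hgh : φ (g * h) ∉ XX φ) (h1 : Sm φ g) (h2 : Sm φ h) : Sm φ (g * h) := by
  rcases sm_or hn hgh with h3 | h3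
  · exact h3
  exfalso
  obtain ⟨z1, hz1, e1⟩ := h1
  obtain ⟨z2, hz2, e2⟩ := h2
  obtain ⟨z3, hz3, e3⟩ := h3
  rw [Units.val_one] at hz1 hz2 hz3
  rw [map_one] at e1 e2 e3
  have hg0 : (g : F) ≠ 0 := g.ne_zero
  have hh0 : (h : F) ≠ 0 := h.ne_zero
  -- `S = 1 + h + g h`
  obtain ⟨S1, hS1, c1⟩ := sum2 hn (x := g * h) (y := z2) (by rwa [e2, div_one])
  obtain ⟨S2, hS2, c2⟩ := sum2 hn (x := 1) (y := h * z1) (by
    rw [map_one, map_mul, e1, mul_one, one_div, xx_inv hn]; exact hh)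
  obtain ⟨S3, hS3, c3⟩ := sum2 hn (x := h) (y := g * h * z3) (by
    rw [map_mul φ (g * h), e3, mul_one, ← map_div, ← xx_inv hn, ← map_inv]
    have : (h / (g * h))⁻¹ = g := by rw [inv_div, mul_div_cancel_right]
    rwa [this])
  have h12 : S2 = S1 := by
    apply Units.ext
    rw [hS1, hS2, hz2, Units.val_one, Units.val_mul, Units.val_mul, hz1]
    ring
  have h13 : S3 = S1 := by
    apply Units.ext
    rw [hS1, hS3, hz2, Units.val_mul, Units.val_mul, hz3, Units.val_inv_eq_inv_val,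
      Units.val_mul]
    field_simp
    ring
  rw [h12, map_one, map_mul, e1, mul_one] at c2
  rw [h13, map_mul φ (g * h), e3, mul_one] at c3
  rw [e2] at c1
  have n1 : φ g ≠ 1 := fun h => hg (Or.inl h)
  have n2 : φ h ≠ 1 := fun h => hh (Or.inl h)
  have n3 : φ (g * h) ≠ 1 := fun h => hgh (Or.inl h)
  have n4 : φ (g * h) ≠ φ h := by
    rw [map_mul]
    intro h
    exact n1 (mul_eq_right.1 h)
  rcases c1 with c1 | c1
  · rcases c2 with c2 | c2
    · exact n3 (c1.symm.trans c2)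
    · exact n4 (c1.symm.trans c2)
  · rcases c3 with c3 | c3
    · exact n2 (c3.symm.trans c1)
    · exact n3 (c3.symm.trans c1)

/-- the classes of the elements that distinguish `1` and `y` -/
def DD (φ : Fˣ →* A) (y : Fˣ) : Set A := {b | ∃ u : Fˣ, φ u = b ∧ ¬ (Sm φ u ↔ Sm φ (u * y⁻¹))}

/-- the classes `b` with `b h^k ∈ Y` for some `k` -/
def Sat (Y : Set A) (h : A) : Set A := {b | ∃ k : ℤ, b * h ^ k ∈ Y}

/-- the classes of elements between powers of `y` -/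
def TT (φ : Fˣ →* A) (y : Fˣ) : Set A := {b | b ∉ Sat (XX φ) (φ y) ∧
  ∃ u : Fˣ, φ u = b ∧ ∃ i j : ℤ, Sm φ (y ^ i * u⁻¹) ∧ Sm φ (u * y ^ j)}

lemma sat_inv (hn : φ (-1) = 1) {b h : A} : b⁻¹ ∈ Sat (XX φ) h ↔ b ∈ Sat (XX φ) h := by
  have key : ∀ c : A, c ∈ Sat (XX φ) h → c⁻¹ ∈ Sat (XX φ) h := by
    rintro c ⟨k, hk⟩
    refine ⟨-k, ?_⟩
    rw [← xx_inv hn]
    have : (c⁻¹ * h ^ (-k))⁻¹ = c * h ^ k := by
      rw [mul_inv, inv_inv, zpow_neg, inv_inv]
    rwa [this]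
  exact ⟨fun h1 => by rw [← inv_inv b]; exact key _ h1, key b⟩

/-- quotients of elements between powers of `y` -/
lemma tt_div (hn : φ (-1) = 1) {y : Fˣ} {b c : A} (hb : b ∈ TT φ y) (hc : c ∈ TT φ y)
    (hbc : b / c ∉ Sat (XX φ) (φ y)) : b / c ∈ TT φ y := by
  obtain ⟨hb0, u, rfl, i, j, h1, h2⟩ := hb
  obtain ⟨hc0, v, rfl, i', j', h3, h4⟩ := hc
  have hc1 : (φ v)⁻¹ ∉ Sat (XX φ) (φ y) := fun h => hc0 ((sat_inv hn).1 h)
  have hb1 : (φ u)⁻¹ ∉ Sat (XX φ) (φ y) := fun h => hb0 ((sat_inv hn).1 h)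
  have hcb : (φ u / φ v)⁻¹ ∉ Sat (XX φ) (φ y) := fun h => hbc ((sat_inv hn).1 h)
  refine ⟨hbc, u / v, map_div φ u v, i + j', j + i', ?_, ?_⟩
  · have e : y ^ (i + j') * (u / v)⁻¹ = (y ^ i * u⁻¹) * (v * y ^ j') := by
      rw [zpow_add, inv_div, div_eq_mul_inv]
      simp only [mul_comm, mul_left_comm, mul_assoc]
    rw [e]
    refine sm_mul hn ?_ ?_ ?_ h1 h4
    · intro h
      exact hb1 ⟨i, by rw [map_mul, map_zpow, map_inv] at h; rwa [mul_comm]⟩
    · intro h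
      exact hc0 ⟨j', by rwa [map_mul, map_zpow] at h⟩
    · intro h
      rw [← e, map_mul, map_zpow, map_inv, map_div] at h
      exact hcb ⟨i + j', by rwa [mul_comm]⟩
  · have e : u / v * y ^ (j + i') = (u * y ^ j) * (y ^ i' * v⁻¹) := by
      rw [zpow_add, div_eq_mul_inv]
      simp only [mul_comm, mul_left_comm, mul_assoc]
    rw [e]
    refine sm_mul hn ?_ ?_ ?_ h2 h3
    · intro h
      exact hb0 ⟨j, by rwa [map_mul, map_zpow] at h⟩
    · intro h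
      exact hc1 ⟨i', by rw [map_mul, map_zpow, map_inv] at h; rwa [mul_comm]⟩
    · intro h
      rw [← e, map_mul, map_zpow, map_div] at h
      exact hbc ⟨j + i', h⟩

/-- an element between powers of `y` can be moved between `1` and `y` -/
lemma tt_sub (y : Fˣ) : TT φ y ⊆ Sat (DD φ y) (φ y) := by
  rintro _ ⟨hb0, u, rfl, i, j, h1, h2⟩
  by_contra hc
  have hstep : ∀ k : ℤ, Sm φ (u * y ^ k) ↔ Sm φ (u * y ^ (k + 1)) := by
    intro k
    by_contra h3
    apply hc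
    refine ⟨k + 1, u * y ^ (k + 1), by rw [map_mul, map_zpow], ?_⟩
    rw [mul_assoc, ← zpow_neg_one y, ← zpow_add, add_neg_cancel_right]
    exact fun h4 => h3 h4.symm
  have hall : ∀ k : ℤ, Sm φ (u * y ^ k) := by
    intro k
    have h3 : ∀ m : ℕ, (Sm φ (u * y ^ (j + m))) ∧ Sm φ (u * y ^ (j - m)) := by
      intro m
      induction m with
      | zero => simpa using h2
      | succ m ih =>
        refine ⟨?_, ?_⟩
        · have := (hstep (j + m)).1 ih.1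
          rwa [add_assoc, ← Nat.cast_succ] at this
        · have := (hstep (j - (m + 1 : ℕ))).2 (by
            have e : j - ((m + 1 : ℕ) : ℤ) + 1 = j - m := by push_cast; ring
            rw [e]; exact ih.2)
          exact this
    rcases le_total j k with h4 | h4
    · have := (h3 (k - j).toNat).1
      rwa [Int.toNat_of_nonneg (by omega), add_sub_cancel] at this
    · have := (h3 (j - k).toNat).2
      rwa [Int.toNat_of_nonneg (by omega), sub_sub_cancel] at this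
  have h3 := hall (-i)
  refine sm_excl (g := u * y ^ (-i)) ?_ h3 ?_
  · intro h
    exact hb0 ⟨-i, by rwa [map_mul, map_zpow] at h⟩
  · have e : (u * y ^ (-i))⁻¹ = y ^ i * u⁻¹ := by
      rw [mul_inv, zpow_neg, inv_inv, mul_comm]
    rw [e]
    exact h1

lemma dd_sub (hn : φ (-1) = 1) (y : Fˣ) : DD φ y ⊆ TT φ y ∪ Sat (XX φ) (φ y) := by
  rintro _ ⟨u, rfl, hu⟩
  by_cases hb : φ u ∈ Sat (XX φ) (φ y)
  · exact Or.inr hb
  left
  have h1 : φ u ∉ XX φ := fun h => hb ⟨0, by rwa [zpow_zero, mul_one]⟩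
  have h2 : φ (u * y⁻¹) ∉ XX φ := fun h => hb ⟨-1, by
    rw [map_mul, map_inv] at h; rwa [zpow_neg_one]⟩
  refine ⟨hb, u, rfl, ?_⟩
  by_cases h3 : Sm φ u
  · have h4 : ¬ Sm φ (u * y⁻¹) := fun h => hu ⟨fun _ => h, fun _ => h3⟩
    have h5 := (sm_inv_iff hn h2).2 h4
    refine ⟨1, 0, ?_, by rwa [zpow_zero, mul_one]⟩
    have e : y ^ (1 : ℤ) * u⁻¹ = (u * y⁻¹)⁻¹ := by
      rw [zpow_one, mul_inv, inv_inv, mul_comm]
    rwa [e]
  · have h4 : Sm φ (u * y⁻¹) := by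
      by_contra h
      exact hu ⟨fun h5 => absurd h5 h3, fun h5 => absurd h5 h⟩
    refine ⟨0, -1, ?_, by rwa [zpow_neg_one]⟩
    rw [zpow_zero, one_mul]
    exact (sm_inv_iff hn h1).2 h3

lemma dd_one : DD φ 1 = ∅ := by
  rw [Set.eq_empty_iff_forall_notMem]
  rintro b ⟨u, -, hu⟩
  rw [inv_one, mul_one] at hu
  exact hu Iff.rfl

lemma dd_mul (y z : Fˣ) : DD φ (y * z) ⊆ DD φ y ∪ (fun b => φ y * b) '' DD φ z := by
  rintro _ ⟨u, rfl, hu⟩
  by_cases h : Sm φ u ↔ Sm φ (u * y⁻¹)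
  · right
    refine ⟨φ (u * y⁻¹), ⟨u * y⁻¹, rfl, ?_⟩, ?_⟩
    · rw [h, mul_inv, ← mul_assoc] at hu
      exact hu
    · rw [map_mul, map_inv]
      show φ y * (φ u * (φ y)⁻¹) = φ u
      rw [mul_left_comm, mul_inv_cancel, mul_one]
  · left
    exact ⟨u, rfl, h⟩

lemma dd_inv (y : Fˣ) : DD φ y⁻¹ ⊆ (fun b => (φ y)⁻¹ * b) '' DD φ y := by
  rintro _ ⟨u, rfl, hu⟩
  refine ⟨φ (u * y), ⟨u * y, rfl, ?_⟩, ?_⟩
  · rw [inv_inv] at hu
    rw [mul_inv_cancel_right]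
    exact fun h => hu h.symm
  · rw [map_mul]
    show (φ y)⁻¹ * (φ u * φ y) = φ u
    rw [mul_left_comm, inv_mul_cancel, mul_one]

lemma sm_div (u r : Fˣ) : Ml φ u r ↔ Sm φ (u * r⁻¹) := by
  have h := ml_mul (φ := φ) r (u * r⁻¹) 1
  rw [mul_one, mul_left_comm, mul_inv_cancel, mul_one] at h
  exact h

end

end Pool.Agent.V7H42.ET
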