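import Mathlib
import Pool.Agent.V7H42.ET.Ord

set_option autoImplicit false

/-! Few classes that are not rigid: a bound that does not depend on the rank (second part). -/

namespace Pool.Agent.V7H42.ET

open Pool.Agent.Y920.EP

/-- sets with very small doubling -/
lemma div_closed {A : Type} [CommGroup A] [DecidableEq A] (T : Finset A)
    (h : 2 * (Finset.image₂ (fun a b => a / b) T T).card < 3 * T.card) (x y : A)
    (hx : x ∈ Finset.image₂ (fun a b => a / b) T T)
    (hy : y ∈ Finset.image₂ (fun a b => a / b) T T) :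
    x / y ∈ Finset.image₂ (fun a b => a / b) T T := by
  have key : ∀ z ∈ Finset.image₂ (fun a b => a / b) T T,
      T.card < 2 * (T.filter fun t => t / z ∈ T).card := by
    intro z hz
    obtain ⟨a, ha, b, hb, rfl⟩ := Finset.mem_image₂.1 hz
    have h1 : T.image (fun t => t / a) ∪ T.image (fun t => t / b) ⊆
        Finset.image₂ (fun a b => a / b) T T := by
      intro w hw
      rw [Finset.mem_union, Finset.mem_image, Finset.mem_image] at hw
      rcases hw with ⟨t, ht, rfl⟩ | ⟨t, ht, rfl⟩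
      · exact Finset.mem_image₂_of_mem ht ha
      · exact Finset.mem_image₂_of_mem ht hb
    have h2 : (T.image (fun t => t / a)).card = T.card :=
      Finset.card_image_of_injective _ (fun s t e => by simpa using e)
    have h3 : (T.image (fun t => t / b)).card = T.card :=
      Finset.card_image_of_injective _ (fun s t e => by simpa using e)
    have h4 := Finset.card_union_add_card_inter (T.image (fun t => t / a))
      (T.image (fun t => t / b))
    have h5 := Finset.card_le_card h1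
    have h6 : (T.image (fun t => t / a) ∩ T.image (fun t => t / b)).card ≤
        (T.filter fun t => t / (a / b) ∈ T).card := by
      refine Finset.card_le_card_of_injOn (fun w => w * a) ?_ (fun s _ t _ e => by simpa using e)
      intro w hw
      rw [Finset.mem_coe, Finset.mem_inter, Finset.mem_image, Finset.mem_image] at hw
      obtain ⟨⟨t, ht, e1⟩, ⟨t', ht', e2⟩⟩ := hw
      rw [Finset.mem_coe, Finset.mem_filter]
      have e3 : w * a = t := by rw [← e1, div_mul_cancel]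
      have e4 : w * a / (a / b) = t' := by
        rw [div_div_eq_mul_div, mul_right_comm, mul_div_cancel_right, ← e2, div_mul_cancel]
      show w * a ∈ T ∧ w * a / (a / b) ∈ T
      rw [e4, e3]
      exact ⟨ht, ht'⟩
    show T.card < 2 * (T.filter fun t => t / (a / b) ∈ T).card
    omega
  have h1 := key x hx
  have h2 := key y hy
  have h3 := Finset.card_union_add_card_inter (T.filter fun t => t / x ∈ T)
    (T.filter fun t => t / y ∈ T)
  have h4 : ((T.filter fun t => t / x ∈ T) ∪ (T.filter fun t => t / y ∈ T)).card ≤ T.card :=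
    Finset.card_le_card (Finset.union_subset (Finset.filter_subset _ _)
      (Finset.filter_subset _ _))
  have h5 : 0 < ((T.filter fun t => t / x ∈ T) ∩ (T.filter fun t => t / y ∈ T)).card := by omega
  obtain ⟨t, ht⟩ := Finset.card_pos.1 h5
  rw [Finset.mem_inter, Finset.mem_filter, Finset.mem_filter] at ht
  refine Finset.mem_image₂.2 ⟨t / y, ht.2.2, t / x, ht.1.2, ?_⟩
  show t / y / (t / x) = x / y
  rw [div_div_div_cancel_left]

section

variable {F : Type} [Field F] {A : Type} [CommGroup A] {φ : Fˣ →* A} {p : ℕ}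

lemma sat_one (Y : Set A) : Sat Y 1 = Y := by
  ext b
  constructor
  · rintro ⟨k, hk⟩
    rwa [one_zpow, mul_one] at hk
  · intro hb
    exact ⟨0, by rwa [one_zpow, mul_one]⟩

lemma sub_sat (Y : Set A) (h : A) : Y ⊆ Sat Y h :=
  fun b hb => ⟨0, by rwa [zpow_zero, mul_one]⟩

/-- powers -/
lemma dd_pow_sub (r : Fˣ) (k : ℕ) : DD φ (r ^ k) ⊆ Sat (DD φ r) (φ r) := by
  induction k with
  | zero => rw [pow_zero, dd_one]; exact Set.empty_subset _
  | succ k ih =>
    rw [pow_succ]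
    refine (dd_mul _ _).trans (Set.union_subset ih ?_)
    rintro _ ⟨b, hb, rfl⟩
    refine ⟨-(k : ℤ), ?_⟩
    show φ (r ^ k) * b * φ r ^ (-(k : ℤ)) ∈ DD φ r
    rw [map_pow, zpow_neg, zpow_natCast, mul_right_comm, mul_inv_cancel, one_mul]
    exact hb

/-- `y ≥ 1` or `y ≤ 1` for rigid classes, with exceptions only in the group of the class -/
lemma rigid_comp {Nn : A → Subgroup A} (hp : p.Prime) (hexp : ∀ a : A, a ^ p = 1)
    (hS : Lsys φ Nn) {y : Fˣ} (hX : φ y ∉ XX φ) (hB : φ y ∉ Bad Nn) :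
    (∀ w : Fˣ, φ w ∉ Subgroup.zpowers (φ y) → Sm φ w → Sm φ (w * y⁻¹)) ∨
      (∀ w : Fˣ, φ w ∉ Subgroup.zpowers (φ y) → Sm φ (w * y⁻¹) → Sm φ w) := by
  have hy1 : φ y ≠ 1 := fun h => hX (Or.inl h)
  obtain ⟨z, hz, hz1⟩ := rigid_of hS.neg (x := y) (fun h => hX (Or.inr h)) hy1
  have hLk : Lk Nn (φ y) ⊆ (Subgroup.zpowers (φ y) : Set A) := lk_rigid hp hexp hS.symm hB
  have hLk' : Lk Nn (φ y)⁻¹ ⊆ (Subgroup.zpowers (φ y) : Set A) := by
    have h := lk_rigid hp hexp hS.symm (a := (φ y)⁻¹)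
      (fun h => hB (bad_inv hS.symm h))
    rwa [Subgroup.zpowers_inv] at h
  have hmy : φ y ∈ Subgroup.zpowers (φ y) := Subgroup.mem_zpowers _
  rcases hz1 with h1 | h1
  · -- `y ≤ 1`
    right
    intro w hw h2
    rw [← sm_div] at h2
    have h3 : Ml φ w z := by
      refine lk_le hS (x := 1) (y := y) (by rw [hz, Units.val_one]) (by
        rw [map_one]; exact fun e => hy1 e.symm) w (fun h4 => hw ?_) h2
      rw [map_one, div_one] at h4
      have h5 := mul_mem (hLk h4) (show φ z ∈ Subgroup.zpowers (φ y) by rw [h1]; exact one_mem _)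
      rwa [div_mul_cancel] at h5
    refine lk_le hS (x := -y) (y := z) (z := 1) (by
      rw [hz, Units.val_one, Units.val_neg]; ring) (by
      rw [phi_neg hS.neg, h1]; exact hy1) w (fun h4 => hw ?_) h3
    rw [phi_neg hS.neg, h1, map_one, div_one, one_div] at h4
    exact hLk' h4
  · left
    intro w hw h2
    rw [← sm_div]
    have h3 : Ml φ w z := by
      refine lk_le hS (x := y) (y := 1) (by rw [hz, Units.val_one, add_comm]) (by
        rw [map_one]; exact hy1) w (fun h4 => hw ?_) h2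
      rw [map_one, one_div] at h4
      have h5 := mul_mem (hLk' h4) (show φ z ∈ Subgroup.zpowers (φ y) by rw [h1]; exact hmy)
      rwa [div_mul_cancel] at h5
    refine lk_le hS (x := -1) (y := z) (z := y) (by
      rw [hz, Units.val_neg, Units.val_one]; ring) (by
      rw [hS.neg, h1]; exact fun e => hy1 e.symm) w (fun h4 => hw ?_) h3
    rw [hS.neg, h1, div_one] at h4
    have h5 := mul_mem (hLk h4) hmy
    rwa [div_mul_cancel] at h5

/-- units up to `M` classes in each direction, with a bound for the `p`-th power -/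
structure Un (φ : Fˣ →* A) (p M E : ℕ) (r : Fˣ) : Prop where
  up : ∃ B : Set A, B.ncard ≤ M ∧ ∀ w : Fˣ, φ w ∉ B → Sm φ w → Sm φ (w * r⁻¹)
  down : ∃ B : Set A, B.ncard ≤ M ∧ ∀ w : Fˣ, φ w ∉ B → Sm φ (w * r⁻¹) → Sm φ w
  pow : (DD φ (r ^ p)).ncard ≤ E

variable [Finite A]

lemma sat_card (hp : p.Prime) (hexp : ∀ a : A, a ^ p = 1) (Y : Set A) (h : A) :
    (Sat Y h).ncard ≤ p * Y.ncard := by
  have h1 : Sat Y h ⊆ (fun x : A × A => x.1 * x.2) '' (Y ×ˢ (Subgroup.zpowers h : Set A)) := by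
    rintro b ⟨k, hk⟩
    refine ⟨(b * h ^ k, h ^ (-k)), ⟨hk, Subgroup.mem_zpowers_iff.2 ⟨-k, rfl⟩⟩, ?_⟩
    show b * h ^ k * h ^ (-k) = b
    rw [zpow_neg, mul_inv_cancel_right]
  refine (Set.ncard_le_ncard h1 (Set.toFinite _)).trans
    ((Set.ncard_image_le (Set.toFinite _)).trans ?_)
  rw [Set.ncard_prod, mul_comm]
  exact Nat.mul_le_mul_right _ (zpowers_card hp hexp h)

lemma dd_inv_card (r : Fˣ) : (DD φ r⁻¹).ncard ≤ (DD φ r).ncard :=
  (Set.ncard_le_ncard (dd_inv r) (Set.toFinite _)).trans (Set.ncard_image_le (Set.toFinite _))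

lemma dd_mul_card (y z : Fˣ) : (DD φ (y * z)).ncard ≤ (DD φ y).ncard + (DD φ z).ncard :=
  (Set.ncard_le_ncard (dd_mul y z) (Set.toFinite _)).trans
    ((Set.ncard_union_le _ _).trans
      (Nat.add_le_add_left (Set.ncard_image_le (Set.toFinite _)) _))

lemma dd_card (hn : φ (-1) = 1) {y : Fˣ} (hy : φ y = 1) :
    (DD φ y).ncard ≤ (TT φ y).ncard + (XX φ).ncard := by
  have h := dd_sub hn y
  rw [hy, sat_one] at h
  exact (Set.ncard_le_ncard h (Set.toFinite _)).trans (Set.ncard_union_le _ _)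

lemma tt_card {y : Fˣ} (hy : φ y = 1) : (TT φ y).ncard ≤ (DD φ y).ncard := by
  have h := tt_sub (φ := φ) y
  rw [hy, sat_one] at h
  exact Set.ncard_le_ncard h (Set.toFinite _)

/-- units move most classes between powers of `y` to such classes -/
lemma shift {M E : ℕ} {r : Fˣ} (hr : Un φ p M E r) {y : Fˣ} (hy : φ y = 1)
    (h : (XX φ).ncard + 2 * M < (TT φ y).ncard) :
    ∃ b ∈ TT φ y, b * φ r ∈ TT φ y := by
  obtain ⟨B1, hB1, hup⟩ := hr.up
  obtain ⟨B2, hB2, hdn⟩ := hr.down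
  let C1 : Set A := (fun b => b⁻¹) '' B1
  let C2 : Set A := (fun b => b * (φ r)⁻¹) '' B2
  let C3 : Set A := (fun b => b * (φ r)⁻¹) '' XX φ
  have hB : (C1 ∪ C2 ∪ C3).ncard < (TT φ y).ncard := by
    have h1 : C1.ncard ≤ M := (Set.ncard_image_le (Set.toFinite _)).trans hB1
    have h2 : C2.ncard ≤ M := (Set.ncard_image_le (Set.toFinite _)).trans hB2
    have h3 : C3.ncard ≤ (XX φ).ncard := Set.ncard_image_le (Set.toFinite _)
    have h4 := Set.ncard_union_le (C1 ∪ C2) C3
    have h5 := Set.ncard_union_le C1 C2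
    omega
  obtain ⟨b, hb, hbB⟩ := Set.exists_mem_notMem_of_ncard_lt_ncard hB (Set.toFinite _)
  simp only [Set.mem_union, not_or] at hbB
  obtain ⟨⟨hb1, hb2⟩, hb3⟩ := hbB
  refine ⟨b, hb, ?_⟩
  obtain ⟨-, u, rfl, i, j, h1, h2⟩ := hb
  refine ⟨?_, u * r, map_mul φ u r, i, j, ?_, ?_⟩
  · rw [hy, sat_one]
    exact fun h5 => hb3 ⟨_, h5, mul_inv_cancel_right _ _⟩
  · have h5 := hup (y ^ i * u⁻¹) (by
      rw [map_mul, map_zpow, map_inv, hy, one_zpow, one_mul]
      exact fun h5 => hb1 ⟨_, h5, inv_inv _⟩) h1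
    rw [mul_inv, ← mul_assoc]
    exact h5
  · have h5 := hdn (u * y ^ j * r) (by
      rw [map_mul, map_mul, map_zpow, hy, one_zpow, mul_one]
      exact fun h5 => hb2 ⟨_, h5, mul_inv_cancel_right _ _⟩) (by rwa [mul_inv_cancel_right])
    rw [mul_right_comm]
    exact h5

/-- the dichotomy -/
lemma big (hn : φ (-1) = 1) {M E : ℕ}
    (hNR : ∀ a ∈ NR φ, ∃ r : Fˣ, φ r = a ∧ Un φ p M E r)
    (htop : Subgroup.closure (NR φ) = ⊤) {y : Fˣ} (hy : φ y = 1)
    (h : 2 * (XX φ).ncard < (TT φ y).ncard) (h' : (XX φ).ncard + 2 * M < (TT φ y).ncard) :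
    Nat.card A ≤ (TT φ y).ncard + (XX φ).ncard := by
  classical
  let T : Finset A := (Set.toFinite (TT φ y)).toFinset
  have hT : ∀ b, b ∈ T ↔ b ∈ TT φ y := fun b => Set.Finite.mem_toFinset _
  have hTc : T.card = (TT φ y).ncard := (Set.ncard_eq_toFinset_card _ _).symm
  have hD : (Finset.image₂ (fun a b => a / b) T T).card ≤ T.card + (XX φ).ncard := by
    have h1 : ((Finset.image₂ (fun a b => a / b) T T : Finset A) : Set A) ⊆
        TT φ y ∪ XX φ := by
      intro w hw
      rw [Finset.mem_coe] at hw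
      obtain ⟨b, hb, c, hc, rfl⟩ := Finset.mem_image₂.1 hw
      by_cases h2 : b / c ∈ XX φ
      · exact Or.inr h2
      · refine Or.inl (tt_div hn ((hT b).1 hb) ((hT c).1 hc) ?_)
        rw [hy, sat_one]
        exact h2
    have h2 := Set.ncard_le_ncard h1 (Set.toFinite _)
    rw [Set.ncard_coe_finset] at h2
    refine h2.trans ((Set.ncard_union_le _ _).trans ?_)
    rw [hTc]
  have hcl := div_closed T (by rw [hTc] at hD ⊢; omega)
  have hne : ((Finset.image₂ (fun a b => a / b) T T : Finset A) : Set A).Nonempty := by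
    have : T.Nonempty := by
      rw [← Finset.card_pos, hTc]; omega
    obtain ⟨t, ht⟩ := this
    exact ⟨t / t, Finset.mem_coe.2 (Finset.mem_image₂_of_mem ht ht)⟩
  let S : Subgroup A := Subgroup.ofDiv
    ((Finset.image₂ (fun a b => a / b) T T : Finset A) : Set A) hne (by
      intro x hx z hz
      rw [← div_eq_mul_inv]
      exact hcl x z hx hz)
  have hS : S = ⊤ := by
    rw [eq_top_iff, ← htop, Subgroup.closure_le]
    intro a ha
    obtain ⟨r, rfl, hr⟩ := hNR a ha
    obtain ⟨b, hb, hb'⟩ := shift hr hy h'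
    show φ r ∈ ((Finset.image₂ (fun a b => a / b) T T : Finset A) : Set A)
    rw [Finset.mem_coe]
    refine Finset.mem_image₂.2 ⟨b * φ r, (hT _).2 hb', b, (hT _).2 hb, ?_⟩
    show b * φ r / b = φ r
    rw [mul_div_cancel_left]
  have hA : Nat.card A = (Finset.image₂ (fun a b => a / b) T T).card := by
    have h1 : ((Finset.image₂ (fun a b => a / b) T T : Finset A) : Set A) = Set.univ := by
      have : (S : Set A) = Set.univ := by rw [hS]; rfl
      exact this
    rw [← Set.ncard_univ, ← h1, Set.ncard_coe_finset]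
  rw [hA, ← hTc]
  exact hD

/-- an element of a rigid class is distinguished from `1` by at most as many classes as its
`p`-th power, up to `p` classes -/
lemma dd_le_pow {Nn : A → Subgroup A} (hp : p.Prime) (hexp : ∀ a : A, a ^ p = 1)
    (hS : Lsys φ Nn) {y : Fˣ} (hX : φ y ∉ XX φ) (hB : φ y ∉ Bad Nn) :
    (DD φ y).ncard ≤ (DD φ (y ^ p)).ncard + p := by
  have hp0 := hp.pos
  have hmem : ∀ u : Fˣ, φ u ∉ Subgroup.zpowers (φ y) → ∀ k : ℕ,
      φ (u * (y ^ k)⁻¹) ∉ Subgroup.zpowers (φ y) := by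
    intro u hu k hc
    apply hu
    have h1 := mul_mem hc (pow_mem (Subgroup.mem_zpowers (φ y)) k)
    rwa [map_mul, map_inv, map_pow, inv_mul_cancel_right] at h1
  have hsucc : ∀ (u : Fˣ) (k : ℕ), u * (y ^ k)⁻¹ * y⁻¹ = u * (y ^ (k + 1))⁻¹ := by
    intro u k
    rw [mul_assoc, ← mul_inv, ← pow_succ]
  have hsub : DD φ y ⊆ DD φ (y ^ p) ∪ (Subgroup.zpowers (φ y) : Set A) := by
    rintro _ ⟨u, rfl, hu⟩
    by_cases huE : φ u ∈ Subgroup.zpowers (φ y)
    · exact Or.inr huE
    left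
    refine ⟨u, rfl, ?_⟩
    have hm := hmem u huE
    rcases rigid_comp hp hexp hS hX hB with hBB | hBB
    · -- `1 ≤ y`
      have hup : ∀ k : ℕ, 1 ≤ k → Sm φ (u * y⁻¹) → Sm φ (u * (y ^ k)⁻¹) := by
        intro k hk
        induction k, hk using Nat.le_induction with
        | base => intro h1; rwa [pow_one]
        | succ k hk ih =>
          intro h1
          rw [← hsucc]
          exact hBB _ (hm k) (ih h1)
      have h1 : ¬ Sm φ u := fun h1 => hu ⟨fun _ => hBB u huE h1, fun _ => h1⟩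
      have h2 : Sm φ (u * y⁻¹) := by
        by_contra h2
        exact hu ⟨fun h3 => absurd h3 h1, fun h3 => absurd h3 h2⟩
      exact fun h3 => h1 (h3.2 (hup p hp.one_le h2))
    · -- `y ≤ 1`
      have hdn : ∀ k : ℕ, 1 ≤ k → Sm φ (u * (y ^ k)⁻¹) → Sm φ (u * y⁻¹) := by
        intro k hk
        induction k, hk using Nat.le_induction with
        | base => intro h1; rwa [pow_one] at h1
        | succ k hk ih =>
          intro h1
          rw [← hsucc] at h1
          exact ih (hBB _ (hm k) h1)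
      have h2 : ¬ Sm φ (u * y⁻¹) := fun h2 => hu ⟨fun _ => h2, fun _ => hBB u huE h2⟩
      have h1 : Sm φ u := by
        by_contra h1
        exact hu ⟨fun h3 => absurd h3 h1, fun h3 => absurd h3 h2⟩
      exact fun h3 => h2 (hdn p hp.one_le (h3.1 h1))
  exact (Set.ncard_le_ncard hsub (Set.toFinite _)).trans ((Set.ncard_union_le _ _).trans
    (Nat.add_le_add_left (zpowers_card hp hexp _) _))

/-- an element is distinguished from `1` by at most as many classes as its `p`-th power, up to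
`2 p M` classes -/
lemma dd_le_pow2 (hp : p.Prime) {M : ℕ} {y : Fˣ} (h : Le φ (2 * M) 1 y ∨ Le φ (2 * M) y 1) :
    (DD φ y).ncard ≤ (DD φ (y ^ p)).ncard + 2 * (p * M) := by
  classical
  have hp0 := hp.pos
  obtain ⟨B, hB, hBB⟩ : ∃ B : Finset A, B.card ≤ 2 * M ∧
      ((∀ w : Fˣ, φ w ∉ B → Sm φ w → Sm φ (w * y⁻¹)) ∨
        (∀ w : Fˣ, φ w ∉ B → Sm φ (w * y⁻¹) → Sm φ w)) := by
    rcases h with ⟨B, hB, h⟩ | ⟨B, hB, h⟩
    · exact ⟨B, hB, Or.inl fun w hw h1 => (sm_div w y).1 (h w hw h1)⟩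
    · exact ⟨B, hB, Or.inr fun w hw h1 => h w hw ((sm_div w y).2 h1)⟩
  let E : Finset A := (Finset.range p).biUnion fun k => B.image fun b => b * φ y ^ k
  have hE : E.card ≤ 2 * (p * M) := by
    refine Finset.card_biUnion_le.trans ?_
    calc ∑ k ∈ Finset.range p, (B.image fun b => b * φ y ^ k).card
        ≤ ∑ _k ∈ Finset.range p, 2 * M :=
          Finset.sum_le_sum fun k _ => Finset.card_image_le.trans hB
      _ = 2 * (p * M) := by rw [Finset.sum_const, Finset.card_range, smul_eq_mul]; ring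
  have hmem : ∀ u : Fˣ, φ u ∉ E → ∀ k : ℕ, k < p → φ (u * (y ^ k)⁻¹) ∉ B := by
    intro u hu k hk hc
    apply hu
    refine Finset.mem_biUnion.2 ⟨k, Finset.mem_range.2 hk, Finset.mem_image.2 ⟨_, hc, ?_⟩⟩
    rw [map_mul, map_inv, map_pow, inv_mul_cancel_right]
  have hsucc : ∀ (u : Fˣ) (k : ℕ), u * (y ^ k)⁻¹ * y⁻¹ = u * (y ^ (k + 1))⁻¹ := by
    intro u k
    rw [mul_assoc, ← mul_inv, ← pow_succ]
  have hsub : DD φ y ⊆ DD φ (y ^ p) ∪ (E : Set A) := by
    rintro _ ⟨u, rfl, hu⟩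
    by_cases huE : φ u ∈ E
    · exact Or.inr huE
    left
    refine ⟨u, rfl, ?_⟩
    have hm := hmem u huE
    rcases hBB with hBB | hBB
    · -- `1 ≤ y`
      have hup : ∀ k : ℕ, 1 ≤ k → k ≤ p → Sm φ (u * y⁻¹) → Sm φ (u * (y ^ k)⁻¹) := by
        intro k hk
        induction k, hk using Nat.le_induction with
        | base => intro _ h1; rwa [pow_one]
        | succ k hk ih =>
          intro hkp h1
          rw [← hsucc]
          exact hBB _ (hm k (by omega)) (ih (by omega) h1)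
      have h0 := hm 0 hp0
      rw [pow_zero, inv_one, mul_one] at h0
      have h1 : ¬ Sm φ u := fun h1 => hu ⟨fun _ => hBB u h0 h1, fun _ => h1⟩
      have h2 : Sm φ (u * y⁻¹) := by
        by_contra h2
        exact hu ⟨fun h3 => absurd h3 h1, fun h3 => absurd h3 h2⟩
      exact fun h3 => h1 (h3.2 (hup p hp.one_le le_rfl h2))
    · -- `y ≤ 1`
      have hdn : ∀ k : ℕ, 1 ≤ k → k ≤ p → Sm φ (u * (y ^ k)⁻¹) → Sm φ (u * y⁻¹) := by
        intro k hk
        induction k, hk using Nat.le_induction with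
        | base => intro _ h1; rwa [pow_one] at h1
        | succ k hk ih =>
          intro hkp h1
          rw [← hsucc] at h1
          exact ih (by omega) (hBB _ (hm k (by omega)) h1)
      have h0 := hm 0 hp0
      rw [pow_zero, inv_one, mul_one] at h0
      have h2 : ¬ Sm φ (u * y⁻¹) := fun h2 => hu ⟨fun _ => h2, fun _ => hBB u h0 h2⟩
      have h1 : Sm φ u := by
        by_contra h1
        exact hu ⟨fun h3 => absurd h3 h1, fun h3 => absurd h3 h2⟩
      exact fun h3 => h2 (hdn p hp.one_le le_rfl (h3.1 h1))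
  refine (Set.ncard_le_ncard hsub (Set.toFinite _)).trans ((Set.ncard_union_le _ _).trans ?_)
  rw [Set.ncard_coe_finset]
  exact Nat.add_le_add_left hE _

/-- Few classes that are not strongly rigid generate a proper subgroup. -/
theorem ord_bound (hexp : ∀ a : A, a ^ p = 1) (hn : φ (-1) = 1) {M E x κ e : ℕ}
    (hunit : ∀ a ∈ NR φ, ∃ r : Fˣ, φ r = a ∧ Un φ p M E r) (Z : Set A) (hXZ : XX φ ⊆ Z)
    (hZi : ∀ a : A, a⁻¹ ∈ Z → a ∈ Z) (hx : Z.ncard ≤ x)
    (hpow : ∀ y : Fˣ, φ y ∉ Z → (DD φ y).ncard ≤ (DD φ (y ^ p)).ncard + e)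
    (hκ1 : 2 * x ≤ κ) (hκ2 : x + 2 * M ≤ κ)
    (h1 : E + x < Nat.card A) (h2 : 7 * x + 4 * κ + 4 * e < Nat.card A) :
    Subgroup.closure (NR φ) ≠ ⊤ := by
  classical
  intro htop
  have hXx : (XX φ).ncard ≤ x := (Set.ncard_le_ncard hXZ (Set.toFinite _)).trans hx
  have hy1 : ∀ y : Fˣ, φ (y ^ p) = 1 := fun y => by rw [map_pow, hexp]
  let W : Subgroup Fˣ := Subgroup.closure {r : Fˣ | φ r ∈ NR φ ∧ Un φ p M E r}
  have hmul : ∀ y r : Fˣ, (DD φ (r ^ p)).ncard ≤ E → (TT φ (y ^ p)).ncard ≤ κ →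
      (TT φ ((y * r) ^ p)).ncard ≤ κ := by
    intro y r hr hy
    have h3 : (TT φ (r ^ p)).ncard ≤ κ := by
      by_contra hc
      have h4 := big hn hunit htop (hy1 r) (by omega) (by omega)
      have h5 := tt_card (φ := φ) (hy1 r)
      omega
    by_contra hc
    have h4 := big hn hunit htop (hy1 (y * r)) (by omega) (by omega)
    have h5 := tt_card (φ := φ) (hy1 (y * r))
    have h6 := dd_mul_card (φ := φ) (y ^ p) (r ^ p)
    rw [← mul_pow] at h6
    have h7 := dd_card hn (hy1 r)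
    have h8 := dd_card hn (hy1 y)
    omega
  have hsmall : ∀ y ∈ W, (TT φ (y ^ p)).ncard ≤ κ := by
    intro y hy
    induction hy using Subgroup.closure_induction_right with
    | one =>
      have := tt_card (φ := φ) (y := 1 ^ p) (hy1 1)
      rw [one_pow, dd_one, Set.ncard_empty] at this
      rw [one_pow]
      omega
    | mul_right y _ r hr ih => exact hmul y r hr.2.pow ih
    | mul_inv_cancel y _ r hr ih =>
      refine hmul y r⁻¹ ?_ ih
      rw [inv_pow]
      exact (dd_inv_card _).trans hr.2.pow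
  have hsurj : ∀ a : A, ∃ w ∈ W, φ w = a := by
    intro a
    have h3 : W.map φ = ⊤ := by
      rw [eq_top_iff, ← htop, Subgroup.closure_le]
      intro b hb
      obtain ⟨r, hr1, hr2⟩ := hunit b hb
      exact ⟨r, Subgroup.subset_closure ⟨by rw [hr1]; exact hb, hr2⟩, hr1⟩
    have h4 : a ∈ W.map φ := by rw [h3]; trivial
    obtain ⟨w, hw, e⟩ := h4
    exact ⟨w, hw, e⟩
  let Gs : Set A := {g | g ∉ Z ∧ ∃ w ∈ W, φ w = g ∧ Sm φ w}
  let G : Finset A := (Set.toFinite Gs).toFinset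
  have hG : ∀ g, g ∈ G ↔ g ∈ Gs := fun g => Set.Finite.mem_toFinset _
  have hw : ∀ g : A, ∃ w : Fˣ, g ∈ G → (w ∈ W ∧ φ w = g ∧ Sm φ w) := by
    intro g
    by_cases h : g ∈ G
    · obtain ⟨w, hw⟩ := ((hG g).1 h).2
      exact ⟨w, fun _ => hw⟩
    · exact ⟨1, fun h' => absurd h' h⟩
  choose w hw using hw
  let Xf : Finset A := (Set.toFinite (XX φ)).toFinset
  have hXf : ∀ g, g ∈ Xf ↔ g ∈ XX φ := fun g => Set.Finite.mem_toFinset _
  have hXc : Xf.card ≤ x := by
    rw [← Set.ncard_eq_toFinset_card]; exact hXx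
  let Zf : Finset A := (Set.toFinite Z).toFinset
  have hZf : ∀ g, g ∈ Zf ↔ g ∈ Z := fun g => Set.Finite.mem_toFinset _
  have hZc : Zf.card ≤ x := by
    rw [← Set.ncard_eq_toFinset_card]; exact hx
  let Df : A → Finset A := fun g => (Set.toFinite (DD φ (w g))).toFinset
  have hDf : ∀ g h, h ∈ Df g ↔ h ∈ DD φ (w g) := fun g h => Set.Finite.mem_toFinset _
  obtain ⟨δ, hδ⟩ : ∃ δ : ℕ, δ = κ + x + e := ⟨_, rfl⟩
  have hDc : ∀ g ∈ G, (Df g).card ≤ δ := by
    intro g hg
    rw [← Set.ncard_eq_toFinset_card]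
    have h3 := hsmall _ (hw g hg).1
    have h4 := dd_card hn (hy1 (w g))
    have h5 := hpow (w g) (by rw [(hw g hg).2.1]; exact ((hG g).1 hg).1)
    omega
  let P1 : Finset (A × A) := G.biUnion fun g => Xf.image fun t => (g, g / t)
  let P2 : Finset (A × A) := G.biUnion fun g => (Df g).image fun h => (g, h)
  let P3 : Finset (A × A) := G.biUnion fun g => (Df g).image fun h => (h, g)
  have hsub : G ×ˢ G ⊆ P1 ∪ (P2 ∪ P3) := by
    rintro ⟨g, h⟩ hgh
    rw [Finset.mem_product] at hgh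
    obtain ⟨hg, hh⟩ := hgh
    obtain ⟨hg1, hg2, hg3⟩ := hw g hg
    obtain ⟨hh1, hh2, hh3⟩ := hw h hh
    rw [Finset.mem_union, Finset.mem_union]
    by_cases h3 : g / h ∈ XX φ
    · left
      refine Finset.mem_biUnion.2 ⟨g, hg, Finset.mem_image.2 ⟨g / h, (hXf _).2 h3, ?_⟩⟩
      rw [div_div_cancel]
    right
    have h4 : φ (w g * (w h)⁻¹) ∉ XX φ := by
      rw [map_mul, map_inv, hg2, hh2, ← div_eq_mul_inv]; exact h3
    rcases sm_or hn h4 with h5 | h5
    · -- `w g ≪ w h ≪ 1`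
      left
      refine Finset.mem_biUnion.2 ⟨g, hg, Finset.mem_image.2 ⟨h, (hDf _ _).2 ?_, rfl⟩⟩
      refine ⟨w h, hh2, fun h6 => ?_⟩
      have h7 := h6.1 hh3
      refine sm_excl h4 h5 ?_
      have e : (w g * (w h)⁻¹)⁻¹ = w h * (w g)⁻¹ := by rw [mul_inv, inv_inv, mul_comm]
      rw [e]
      exact h7
    · right
      refine Finset.mem_biUnion.2 ⟨h, hh, Finset.mem_image.2 ⟨g, (hDf _ _).2 ?_, rfl⟩⟩
      exact ⟨w g, hg2, fun h6 => sm_excl h4 (h6.1 hg3) h5⟩
  have hc1 : P1.card ≤ G.card * x := by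
    refine Finset.card_biUnion_le.trans ?_
    rw [← smul_eq_mul]
    exact Finset.sum_le_card_nsmul _ _ _ fun g _ => Finset.card_image_le.trans hXc
  have hc2 : P2.card ≤ G.card * δ := by
    refine Finset.card_biUnion_le.trans ?_
    rw [← smul_eq_mul]
    exact Finset.sum_le_card_nsmul _ _ _ fun g hg => Finset.card_image_le.trans (hDc g hg)
  have hc3 : P3.card ≤ G.card * δ := by
    refine Finset.card_biUnion_le.trans ?_
    rw [← smul_eq_mul]
    exact Finset.sum_le_card_nsmul _ _ _ fun g hg => Finset.card_image_le.trans (hDc g hg)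
  have hGG : G.card * G.card ≤ G.card * (x + 2 * δ) := by
    rw [← Finset.card_product]
    refine (Finset.card_le_card hsub).trans ((Finset.card_union_le _ _).trans ?_)
    have := Finset.card_union_le P2 P3
    calc P1.card + (P2 ∪ P3).card ≤ G.card * x + (G.card * δ + G.card * δ) := by omega
      _ = G.card * (x + 2 * δ) := by ring
  have hGc : G.card ≤ x + 2 * δ := by
    rcases Nat.eq_zero_or_pos G.card with h0 | h0
    · omega
    · exact Nat.le_of_mul_le_mul_left hGG h0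
  have hcov : (Set.univ : Set A) ⊆ ((Zf ∪ (G ∪ G.image fun g => g⁻¹) : Finset A) : Set A) := by
    intro g _
    rw [Finset.mem_coe, Finset.mem_union, Finset.mem_union]
    by_cases hg : g ∈ Z
    · exact Or.inl ((hZf g).2 hg)
    right
    obtain ⟨v, hv, e⟩ := hsurj g
    have hg' : g ∉ XX φ := fun h => hg (hXZ h)
    rcases sm_or hn (g := v) (by rwa [e]) with h3 | h3
    · left
      exact (hG g).2 ⟨hg, v, hv, e, h3⟩
    · right
      exact Finset.mem_image.2 ⟨g⁻¹, (hG _).2 ⟨fun h => hg (hZi g h), v⁻¹, inv_mem hv,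
        by rw [map_inv, e], h3⟩, inv_inv g⟩
  have h3 := Set.ncard_le_ncard hcov (Set.toFinite _)
  rw [Set.ncard_univ, Set.ncard_coe_finset] at h3
  have h4 := Finset.card_union_le Zf (G ∪ G.image fun g => g⁻¹)
  have h5 := Finset.card_union_le G (G.image fun g => g⁻¹)
  have h6 : (G.image fun g => g⁻¹).card ≤ G.card := Finset.card_image_le
  omega

/-- the classes of `r` and `s` with `r + s = 1` are classes of units -/
lemma un_of {Nn : A → Subgroup A} (hS : Lsys φ Nn) {M E : ℕ}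
    (hM : ∀ c : A, c ≠ 1 → (Lk Nn c).ncard ≤ M)
    (hE : ∀ a c d : A, a ≠ 1 → c ≠ 1 → d ≠ 1 → c ∈ Nn a → d ∈ Nn a →
      (Sat (Lk Nn c ∪ Lk Nn d) a).ncard ≤ E) :
    ∀ a ∈ NR φ, ∃ r : Fˣ, φ r = a ∧ Un φ p M E r := by
  rintro _ ⟨ha1, r, s, rfl, hrs, hs1, hs2⟩
  have hc1 : φ 1 / φ (-s) ≠ 1 := by
    rw [phi_neg hS.neg, map_one, one_div]
    exact fun h => hs1 (inv_eq_one.1 h)
  have hd1 : φ r / φ s ≠ 1 := fun h => hs2 (div_eq_one.1 h).symm
  have hup : ∀ w : Fˣ, φ w / φ r ∉ Lk Nn (φ 1 / φ (-s)) → Sm φ w → Sm φ (w * r⁻¹) := by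
    intro w hw h
    rw [← sm_div]
    refine lk_le hS (x := -s) (y := 1) ?_ ?_ w hw h
    · rw [Units.val_neg, Units.val_one]; linear_combination hrs
    · rw [phi_neg hS.neg, map_one]; exact hs1
  have hdn : ∀ w : Fˣ, φ w / φ 1 ∉ Lk Nn (φ r / φ s) → Sm φ (w * r⁻¹) → Sm φ w := by
    intro w hw h
    rw [← sm_div] at h
    refine lk_le hS (x := s) (y := r) ?_ hs2 w hw h
    rw [Units.val_one]; linear_combination -hrs
  refine ⟨r, rfl, ⟨(fun b => φ r * b) '' Lk Nn (φ 1 / φ (-s)),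
    (Set.ncard_image_le (Set.toFinite _)).trans (hM _ hc1), ?_⟩,
    ⟨Lk Nn (φ r / φ s), hM _ hd1, ?_⟩, ?_⟩
  · intro w hw
    exact hup w fun h => hw ⟨_, h, mul_div_cancel _ _⟩
  · intro w hw
    refine hdn w fun h => hw ?_
    rwa [map_one, div_one] at h
  · have h1 : (s : F) = 1 + (-r : Fˣ) := by
      rw [Units.val_neg]; linear_combination hrs
    have h2 : φ s ∈ Nn (φ r) := by
      have := hS.sum _ _ h1
      rwa [phi_neg hS.neg] at this
    refine le_trans (Set.ncard_le_ncard ?_ (Set.toFinite _)) (hE (φ r) (φ 1 / φ (-s)) (φ r / φ s)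
      ha1 hc1 hd1 ?_ ?_)
    · refine (dd_pow_sub r p).trans ?_
      rintro b ⟨k, u, hu1, hu2⟩
      by_cases h3 : φ u / φ r ∈ Lk Nn (φ 1 / φ (-s))
      · refine ⟨k - 1, Or.inl ?_⟩
        rw [zpow_sub_one, ← mul_assoc, ← hu1, ← div_eq_mul_inv]
        exact h3
      · by_cases h4 : φ u / φ 1 ∈ Lk Nn (φ r / φ s)
        · refine ⟨k, Or.inr ?_⟩
          rw [← hu1]
          rwa [map_one, div_one] at h4
        · exact absurd ⟨hup u h3, hdn u h4⟩ hu2
    · rw [phi_neg hS.neg, map_one, one_div]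
      exact inv_mem h2
    · exact div_mem (hS.self _) h2

/-- the bound for the `p`-th powers of units: few classes that are not rigid -/
lemma sat_bound {Nn : A → Subgroup A} (hp : p.Prime) (hexp : ∀ a : A, a ^ p = 1)
    (hS : Lsys φ Nn) (a c d : A) (ha : a ≠ 1) (hc : c ≠ 1) (hd : d ≠ 1) (hca : c ∈ Nn a)
    (hda : d ∈ Nn a) : (Sat (Lk Nn c ∪ Lk Nn d) a).ncard ≤ p * (Bad Nn).ncard := by
  by_cases haB : a ∈ Bad Nn
  · have h1 : Lk Nn c ∪ Lk Nn d ⊆ Bad Nn := Set.union_subset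
      (lk_bad hp hexp hS.symm (bad_of_mem hp hexp hS.symm haB ha hca) hc)
      (lk_bad hp hexp hS.symm (bad_of_mem hp hexp hS.symm haB ha hda) hd)
    have h2 : Sat (Lk Nn c ∪ Lk Nn d) a ⊆ Sat (Bad Nn) a := fun b ⟨k, hk⟩ => ⟨k, h1 hk⟩
    exact (Set.ncard_le_ncard h2 (Set.toFinite _)).trans (sat_card hp hexp _ _)
  · have h3 : Nn a = Subgroup.zpowers a := by
      by_contra h; exact haB (Or.inr h)
    have key : ∀ e : A, e ≠ 1 → e ∈ Nn a → Lk Nn e ⊆ (Subgroup.zpowers a : Set A) := by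
      intro e he hea
      have h4 := nn_of_mem hp hexp hS.symm haB hea he
      refine (lk_rigid hp hexp hS.symm h4.1).trans ?_
      rw [SetLike.coe_subset_coe, Subgroup.zpowers_le, ← h3]
      exact hea
    have h2 : Sat (Lk Nn c ∪ Lk Nn d) a ⊆ (Subgroup.zpowers a : Set A) := by
      rintro b ⟨k, hk⟩
      have h4 : b * a ^ k ∈ Subgroup.zpowers a := by
        rcases hk with hk | hk
        · exact key c hc hca hk
        · exact key d hd hda hk
      have h5 := mul_mem h4 (zpow_mem (Subgroup.mem_zpowers a) (-k))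
      rwa [zpow_neg, mul_inv_cancel_right] at h5
    have h6 : 0 < (Bad Nn).ncard := (Set.ncard_pos (Set.toFinite _)).2 ⟨1, Or.inl rfl⟩
    exact (Set.ncard_le_ncard h2 (Set.toFinite _)).trans ((zpowers_card hp hexp a).trans
      (Nat.le_mul_of_pos_right _ h6))

/-- products of two classes of units -/
theorem two_bound (hn : φ (-1) = 1) {M : ℕ} (hL : HL φ M)
    (htop : Subgroup.closure (NR φ) = ⊤) :
    Nat.card A ≤ (XX φ).ncard + 8 * M + 2 ∨ (XX φ).ncard ≤ 16 * M + 4 := by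
  classical
  by_contra hc
  push Not at hc
  obtain ⟨hc1, hc2⟩ := hc
  have hcalc := Pool.Agent.Y705.EP.t_CALC F A φ _ hn hL
  have hunit : ∀ a ∈ XX φ, ∃ r : Fˣ, φ r = a ∧ En φ M r := by
    rintro a (rfl | ⟨ha1, r, s, hr, hrs, hs1, hs2⟩)
    · exact ⟨1, map_one φ, en_one M⟩
    · exact ⟨r, hr, hcalc.2.2 r s hrs (by rw [hr]; exact ha1) hs1 (by rw [hr]; exact hs2)⟩
  let T : Finset A := (Set.toFinite (XX φ)).toFinset
  have hT : ∀ b, b ∈ T ↔ b ∈ XX φ := fun b => Set.Finite.mem_toFinset _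
  have hTc : T.card = (XX φ).ncard := (Set.ncard_eq_toFinset_card _ _).symm
  let G : Finset A := (Set.toFinite {g : A | ∃ w : Fˣ, φ w = g ∧ En φ (M + M) w ∧ Ml φ w 1}).toFinset
  have hG : ∀ g, g ∈ G ↔ ∃ w : Fˣ, φ w = g ∧ En φ (M + M) w ∧ Ml φ w 1 :=
    fun g => Set.Finite.mem_toFinset _
  have hGc : G.card ≤ 2 * (M + M) + 1 :=
    Pool.Agent.Y705.EP.t_SU F A φ (M + M) G fun g hg => (hG g).1 hg
  have hD : (Finset.image₂ (fun a b => a / b) T T).card ≤ T.card + 8 * M + 2 := by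
    have h1 : Finset.image₂ (fun a b => a / b) T T ⊆ T ∪ (G ∪ G.image fun g => g⁻¹) := by
      intro w hw
      obtain ⟨b, hb, c, hc, rfl⟩ := Finset.mem_image₂.1 hw
      rw [Finset.mem_union, Finset.mem_union]
      by_cases h2 : b / c ∈ XX φ
      · exact Or.inl ((hT _).2 h2)
      right
      obtain ⟨r, hr1, hr2⟩ := hunit b ((hT b).1 hb)
      obtain ⟨s, hs1, hs2⟩ := hunit c ((hT c).1 hc)
      have e : φ (r / s) = b / c := by rw [map_div, hr1, hs1]
      have hE := en_div hr2 hs2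
      rcases sm_or hn (g := r / s) (by rwa [e]) with h3 | h3
      · left
        exact (hG _).2 ⟨r / s, e, hE, h3⟩
      · right
        refine Finset.mem_image.2 ⟨(b / c)⁻¹, (hG _).2 ⟨(r / s)⁻¹, by rw [map_inv, e], en_inv hE,
          h3⟩, inv_inv _⟩
    refine (Finset.card_le_card h1).trans ((Finset.card_union_le _ _).trans ?_)
    have h2 := Finset.card_union_le G (G.image fun g => g⁻¹)
    have h3 : (G.image fun g => g⁻¹).card ≤ G.card := Finset.card_image_le
    omega
  have hcl := div_closed T (by rw [hTc] at hD ⊢; omega)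
  have hne : ((Finset.image₂ (fun a b => a / b) T T : Finset A) : Set A).Nonempty := by
    have ht : (1 : A) ∈ T := (hT 1).2 (Or.inl rfl)
    exact ⟨1 / 1, Finset.mem_coe.2 (Finset.mem_image₂_of_mem ht ht)⟩
  let S : Subgroup A := Subgroup.ofDiv
    ((Finset.image₂ (fun a b => a / b) T T : Finset A) : Set A) hne (by
      intro x hx z hz
      rw [← div_eq_mul_inv]
      exact hcl x z hx hz)
  have hS : S = ⊤ := by
    rw [eq_top_iff, ← htop, Subgroup.closure_le]
    intro a ha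
    show a ∈ ((Finset.image₂ (fun a b => a / b) T T : Finset A) : Set A)
    rw [Finset.mem_coe]
    refine Finset.mem_image₂.2 ⟨a, (hT _).2 (Or.inr ha), 1, (hT _).2 (Or.inl rfl), ?_⟩
    exact div_one a
  have hA : Nat.card A = (Finset.image₂ (fun a b => a / b) T T).card := by
    have h1 : ((Finset.image₂ (fun a b => a / b) T T : Finset A) : Set A) = Set.univ := by
      have : (S : Set A) = Set.univ := by rw [hS]; rfl
      exact this
    rw [← Set.ncard_univ, ← h1, Set.ncard_coe_finset]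
  omega

end

end Pool.Agent.V7H42.ET
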