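import Mathlib
import Pool.Agent.V7H42.ET.Ord2

set_option autoImplicit false

/-! Few classes that are not rigid: the order of the subgroup generated by them. -/

namespace Pool.Agent.V7H42.ET

open Pool.Agent.Y920.EP

section

variable {F : Type} [Field F] {A : Type} [CommGroup A] {φ : Fˣ →* A} {p : ℕ}

lemma srig_sum (hn : φ (-1) = 1) {x y z : Fˣ} (hz : (z : F) = x + y) (h : φ x / φ y ∉ XX φ) :
    φ z = φ x ∨ φ z = φ y := by
  obtain ⟨S, hS, h1⟩ := sum2 hn h
  have : z = S := Units.ext (by rw [hz, hS])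
  rwa [this]

/-- an element `y ≤ 1` of a strongly rigid class: if `w ≪ y`, then `w ≪ 1`, with the exception of
two classes -/
lemma rigid_down (hn : φ (-1) = 1) {y w : Fˣ} (hX : φ y ∉ XX φ) (hz : Sm φ y) (h1 : φ w ≠ 1)
    (h2 : φ w ≠ φ y) (h : Sm φ (w * y⁻¹)) : Sm φ w := by
  rw [← sm_div] at h
  obtain ⟨y', hy', e⟩ := h
  obtain ⟨z, hz, ez⟩ := hz
  rw [Units.val_one] at hz
  rw [map_one] at ez
  have hXi : (φ y)⁻¹ ∉ XX φ := fun h => hX ((xx_inv hn).1 h)
  obtain ⟨z', hz', c1⟩ := sum2 hn (x := 1) (y := y') (by rw [map_one, e, one_div]; exact hXi)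
  rw [Units.val_one] at hz'
  rw [map_one, e] at c1
  rcases c1 with c1 | c1
  · obtain ⟨v, hv, c2⟩ := sum2 hn (x := z') (y := -y) (by
      rw [phi_neg hn, c1, one_div]; exact hXi)
    rw [phi_neg hn, c1] at c2
    have hv1 : (v : F) = 1 + w := by
      rw [hv, hz', hy', Units.val_neg]; ring
    rcases c2 with c2 | c2
    · exact ⟨v, by rw [hv1, Units.val_one], by rw [c2, map_one]⟩
    · exfalso
      rcases srig_sum hn (x := v) (y := -1) (z := w) (by
        rw [hv1, Units.val_neg, Units.val_one]; ring) (by rw [hn, c2, div_one]; exact hX)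
        with c3 | c3
      · exact h2 (c3.trans c2)
      · exact h1 (c3.trans hn)
  · exfalso
    rcases srig_sum hn (x := z') (y := -z) (z := w) (by
        rw [hz', hy', Units.val_neg, hz]; ring) (by rw [phi_neg hn, ez, c1, div_one]; exact hX)
      with c3 | c3
    · exact h2 (c3.trans c1)
    · rw [phi_neg hn, ez] at c3
      exact h1 c3

/-- elements of strongly rigid classes are comparable with `1` -/
lemma rigid_comp0 (hn : φ (-1) = 1) {y : Fˣ} (hX : φ y ∉ XX φ) :
    (∀ w : Fˣ, φ w ∉ Subgroup.zpowers (φ y) → Sm φ w → Sm φ (w * y⁻¹)) ∨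
      (∀ w : Fˣ, φ w ∉ Subgroup.zpowers (φ y) → Sm φ (w * y⁻¹) → Sm φ w) := by
  have hmy : φ y ∈ Subgroup.zpowers (φ y) := Subgroup.mem_zpowers _
  rcases sm_or hn hX with h | h
  · right
    intro w hw h1
    exact rigid_down hn hX h (fun h2 => hw (by rw [h2]; exact one_mem _))
      (fun h2 => hw (by rw [h2]; exact hmy)) h1
  · left
    intro w hw h1
    refine rigid_down hn (y := y⁻¹) (by rw [map_inv]; exact fun h => hX ((xx_inv hn).1 h)) h
      (fun h2 => hw ?_) (fun h2 => hw ?_) (by rwa [inv_inv, inv_mul_cancel_right])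
    · rw [map_mul, map_inv, mul_inv_eq_one] at h2
      rw [h2]
      exact hmy
    · rw [map_mul, map_inv, mul_eq_right] at h2
      rw [h2]
      exact one_mem _

/-- an element of a strongly rigid class is distinguished from `1` by the same classes as its
`p`-th power, up to its powers -/
lemma dd_pow_sup (hp : p.Prime) (hn : φ (-1) = 1) {y : Fˣ} (hX : φ y ∉ XX φ) :
    DD φ y ⊆ DD φ (y ^ p) ∪ (Subgroup.zpowers (φ y) : Set A) := by
  have hmem : ∀ u : Fˣ, φ u ∉ Subgroup.zpowers (φ y) → ∀ k : ℕ,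
      φ (u * (y ^ k)⁻¹) ∉ Subgroup.zpowers (φ y) := by
    intro u hu k hc
    apply hu
    have h1 := mul_mem hc (pow_mem (Subgroup.mem_zpowers (φ y)) k)
    rwa [map_mul, map_inv, map_pow, inv_mul_cancel_right] at h1
  have hsucc : ∀ (u : Fˣ) (k : ℕ), u * (y ^ k)⁻¹ * y⁻¹ = u * (y ^ (k + 1))⁻¹ := by
    intro u k
    rw [mul_assoc, ← mul_inv, ← pow_succ]
  rintro _ ⟨u, rfl, hu⟩
  by_cases huE : φ u ∈ Subgroup.zpowers (φ y)
  · exact Or.inr huE
  left
  refine ⟨u, rfl, ?_⟩
  have hm := hmem u huE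
  rcases rigid_comp0 hn hX with hBB | hBB
  · -- `1 ≤ y`
    have hup : ∀ k : ℕ, 1 ≤ k → Sm φ (u * y⁻¹) → Sm φ (u * (y ^ k)⁻¹) := by
      intro k hk
      induction k, hk using Nat.le_induction with
      | base => intro h1; rwa [pow_one]
      | succ k hk ih =>
        intro h1
        rw [← hsucc]
        exact hBB _ (hm k) (ih h1)
    have h1 : ¬ Sm φ u := fun h1 => hu ⟨fun _ => hBB u huE h1, fun _ => h1⟩
    have h2 : Sm φ (u * y⁻¹) := by
      by_contra h2
      exact hu ⟨fun h3 => absurd h3 h1, fun h3 => absurd h3 h2⟩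
    exact fun h3 => h1 (h3.2 (hup p hp.one_le h2))
  · -- `y ≤ 1`
    have hdn : ∀ k : ℕ, 1 ≤ k → Sm φ (u * (y ^ k)⁻¹) → Sm φ (u * y⁻¹) := by
      intro k hk
      induction k, hk using Nat.le_induction with
      | base => intro h1; rwa [pow_one] at h1
      | succ k hk ih =>
        intro h1
        rw [← hsucc] at h1
        exact ih (hBB _ (hm k) h1)
    have h2 : ¬ Sm φ (u * y⁻¹) := fun h2 => hu ⟨fun _ => h2, fun _ => hBB u huE h2⟩
    have h1 : Sm φ u := by
      by_contra h1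
      exact hu ⟨fun h3 => absurd h3 h1, fun h3 => absurd h3 h2⟩
    exact fun h3 => h2 (hdn p hp.one_le (h3.1 h1))

/-- units up to `M` classes in each direction -/
structure Uk (φ : Fˣ →* A) (M : ℕ) (r : Fˣ) : Prop where
  up : ∃ B : Finset A, B.card ≤ M ∧ ∀ w : Fˣ, φ w ∉ B → Sm φ w → Sm φ (w * r⁻¹)
  down : ∃ B : Finset A, B.card ≤ M ∧ ∀ w : Fˣ, φ w ∉ B → Sm φ (w * r⁻¹) → Sm φ w

/-- the classes that are not strongly rigid contain such units -/
lemma uk_of (hn : φ (-1) = 1) {M : ℕ} (hL : HL φ M) {a : A} (ha : a ∈ NR φ) :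
    ∃ r : Fˣ, φ r = a ∧ Uk φ M r := by
  obtain ⟨ha1, r, s, rfl, hrs, hs1, hs2⟩ := ha
  refine ⟨r, rfl, ?_, ?_⟩
  · obtain ⟨B, hB, h⟩ := (hL 1 (-s) r (by
      rw [Units.val_neg, Units.val_one]; linear_combination hrs) (by
      rw [map_one, phi_neg hn]; exact fun h => hs1 h.symm)).1
    exact ⟨B, hB, fun w hw h1 => (sm_div w r).1 (h w hw h1)⟩
  · obtain ⟨B, hB, h⟩ := (hL r s 1 (by rw [Units.val_one]; linear_combination -hrs)
      (fun h => hs2 h.symm)).1
    exact ⟨B, hB, fun w hw h1 => h w hw ((sm_div w r).2 h1)⟩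

lemma uk_dd {M : ℕ} {r : Fˣ} (h : Uk φ M r) (k : ℕ) :
    (DD φ (r ^ k)).Finite ∧ (DD φ (r ^ k)).ncard ≤ k * (2 * M) := by
  classical
  obtain ⟨⟨B1, hB1, h1⟩, ⟨B2, hB2, h2⟩⟩ := h
  have hsub : DD φ r ⊆ ((B1 ∪ B2 : Finset A) : Set A) := by
    rintro _ ⟨u, rfl, hu⟩
    rw [Finset.mem_coe, Finset.mem_union]
    by_contra hc
    push Not at hc
    exact hu ⟨h1 u hc.1, h2 u hc.2⟩
  have hf : (DD φ r).Finite := (Finset.finite_toSet _).subset hsub
  have hc : (DD φ r).ncard ≤ 2 * M := by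
    have h3 := Set.ncard_le_ncard hsub (Finset.finite_toSet _)
    rw [Set.ncard_coe_finset] at h3
    have h4 := Finset.card_union_le B1 B2
    omega
  induction k with
  | zero => rw [pow_zero, dd_one]; exact ⟨Set.finite_empty, by rw [Set.ncard_empty]; omega⟩
  | succ k ih =>
    rw [pow_succ]
    have h3 := dd_mul (φ := φ) (r ^ k) r
    have h4 := hf.image (fun b => φ (r ^ k) * b)
    refine ⟨(ih.1.union h4).subset h3, ?_⟩
    have h5 := Set.ncard_le_ncard h3 (ih.1.union h4)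
    have h6 := Set.ncard_union_le (DD φ (r ^ k)) ((fun b => φ (r ^ k) * b) '' DD φ r)
    have h7 := Set.ncard_image_le (f := fun b => φ (r ^ k) * b) hf
    have h8 := ih.2
    have h9 : (k + 1) * (2 * M) = k * (2 * M) + 2 * M := by ring
    omega

/-- the parts in a subgroup -/
abbrev DK (φ : Fˣ →* A) (K : Subgroup A) (y : Fˣ) : Set A := DD φ y ∩ K

abbrev TK (φ : Fˣ →* A) (K : Subgroup A) (y : Fˣ) : Set A := TT φ y ∩ K

variable {K : Subgroup A}

lemma dk_inv_card (hK : (K : Set A).Finite) {r : Fˣ} (hr : φ r ∈ K) :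
    (DK φ K r⁻¹).ncard ≤ (DK φ K r).ncard := by
  have h : DK φ K r⁻¹ ⊆ (fun b => (φ r)⁻¹ * b) '' DK φ K r := by
    rintro b ⟨hb, hbK⟩
    obtain ⟨c, hc, rfl⟩ := dd_inv r hb
    refine ⟨c, ⟨hc, ?_⟩, rfl⟩
    have h1 := mul_mem hr hbK
    rwa [mul_inv_cancel_left] at h1
  have hf : (DK φ K r).Finite := hK.subset Set.inter_subset_right
  exact (Set.ncard_le_ncard h (hf.image _)).trans (Set.ncard_image_le hf)

lemma dk_mul_card (hK : (K : Set A).Finite) {y : Fˣ} (hy : φ y ∈ K) (z : Fˣ) :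
    (DK φ K (y * z)).ncard ≤ (DK φ K y).ncard + (DK φ K z).ncard := by
  have h : DK φ K (y * z) ⊆ DK φ K y ∪ (fun b => φ y * b) '' DK φ K z := by
    rintro b ⟨hb, hbK⟩
    rcases dd_mul y z hb with h1 | ⟨c, hc, rfl⟩
    · exact Or.inl ⟨h1, hbK⟩
    · refine Or.inr ⟨c, ⟨hc, ?_⟩, rfl⟩
      have h1 := mul_mem (inv_mem hy) hbK
      rwa [inv_mul_cancel_left] at h1
  have hf1 : (DK φ K y).Finite := hK.subset Set.inter_subset_right
  have hf : (DK φ K z).Finite := hK.subset Set.inter_subset_right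
  exact (Set.ncard_le_ncard h (hf1.union (hf.image _))).trans
    ((Set.ncard_union_le _ _).trans (Nat.add_le_add_left (Set.ncard_image_le hf) _))

lemma dk_card (hn : φ (-1) = 1) (hK : (K : Set A).Finite) (hX : (XX φ).Finite) {y : Fˣ}
    (hy : φ y = 1) : (DK φ K y).ncard ≤ (TK φ K y).ncard + (XX φ).ncard := by
  have h : DK φ K y ⊆ TK φ K y ∪ XX φ := by
    rintro b ⟨hb, hbK⟩
    have h1 := dd_sub hn y hb
    rw [hy, sat_one] at h1
    rcases h1 with h1 | h1
    · exact Or.inl ⟨h1, hbK⟩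
    · exact Or.inr h1
  have hf : (TK φ K y).Finite := hK.subset Set.inter_subset_right
  exact (Set.ncard_le_ncard h (hf.union hX)).trans (Set.ncard_union_le _ _)

lemma tk_card (hK : (K : Set A).Finite) {y : Fˣ} (hy : φ y = 1) :
    (TK φ K y).ncard ≤ (DK φ K y).ncard := by
  refine Set.ncard_le_ncard ?_ (hK.subset Set.inter_subset_right)
  rintro b ⟨hb, hbK⟩
  have h := tt_sub (φ := φ) y hb
  rw [hy, sat_one] at h
  exact ⟨h, hbK⟩

/-- units move most classes between powers of `y` to such classes -/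
lemma shiftK (hK : (K : Set A).Finite) (hX : (XX φ).Finite) {M : ℕ} {r : Fˣ} (hr : Uk φ M r)
    (hrK : φ r ∈ K) {y : Fˣ} (hy : φ y = 1)
    (h : (XX φ).ncard + 2 * M < (TK φ K y).ncard) :
    ∃ b ∈ TK φ K y, b * φ r ∈ TK φ K y := by
  obtain ⟨B1, hB1, hup⟩ := hr.up
  obtain ⟨B2, hB2, hdn⟩ := hr.down
  let C1 : Set A := (fun b => b⁻¹) '' (B1 : Set A)
  let C2 : Set A := (fun b => b * (φ r)⁻¹) '' (B2 : Set A)
  let C3 : Set A := (fun b => b * (φ r)⁻¹) '' XX φ
  have hf1 : C1.Finite := (Finset.finite_toSet _).image _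
  have hf2 : C2.Finite := (Finset.finite_toSet _).image _
  have hf3 : C3.Finite := hX.image _
  have hB : (C1 ∪ C2 ∪ C3).ncard < (TK φ K y).ncard := by
    have h1 : C1.ncard ≤ M := by
      refine (Set.ncard_image_le (Finset.finite_toSet _)).trans ?_
      rwa [Set.ncard_coe_finset]
    have h2 : C2.ncard ≤ M := by
      refine (Set.ncard_image_le (Finset.finite_toSet _)).trans ?_
      rwa [Set.ncard_coe_finset]
    have h3 : C3.ncard ≤ (XX φ).ncard := Set.ncard_image_le hX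
    have h4 := Set.ncard_union_le (C1 ∪ C2) C3
    have h5 := Set.ncard_union_le C1 C2
    omega
  obtain ⟨b, ⟨hb, hbK⟩, hbB⟩ := Set.exists_mem_notMem_of_ncard_lt_ncard hB
    ((hf1.union hf2).union hf3)
  simp only [Set.mem_union, not_or] at hbB
  obtain ⟨⟨hb1, hb2⟩, hb3⟩ := hbB
  refine ⟨b, ⟨hb, hbK⟩, ?_, mul_mem hbK hrK⟩
  obtain ⟨-, u, rfl, i, j, h1, h2⟩ := hb
  refine ⟨?_, u * r, map_mul φ u r, i, j, ?_, ?_⟩
  · rw [hy, sat_one]
    exact fun h5 => hb3 ⟨_, h5, mul_inv_cancel_right _ _⟩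
  · have h5 := hup (y ^ i * u⁻¹) (by
      rw [map_mul, map_zpow, map_inv, hy, one_zpow, one_mul]
      exact fun h5 => hb1 ⟨_, h5, inv_inv _⟩) h1
    rw [mul_inv, ← mul_assoc]
    exact h5
  · have h5 := hdn (u * y ^ j * r) (by
      rw [map_mul, map_mul, map_zpow, hy, one_zpow, mul_one]
      exact fun h5 => hb2 ⟨_, h5, mul_inv_cancel_right _ _⟩) (by rwa [mul_inv_cancel_right])
    rw [mul_right_comm]
    exact h5

/-- the dichotomy -/
lemma bigK (hn : φ (-1) = 1) (hK : (K : Set A).Finite) (hX : (XX φ).Finite) {M : ℕ}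
    (hL : HL φ M) (hcl : Subgroup.closure (NR φ) = K) {y : Fˣ} (hy : φ y = 1)
    (h : 2 * (XX φ).ncard < (TK φ K y).ncard) (h' : (XX φ).ncard + 2 * M < (TK φ K y).ncard) :
    Nat.card K ≤ (TK φ K y).ncard + (XX φ).ncard := by
  classical
  have hTf : (TK φ K y).Finite := hK.subset Set.inter_subset_right
  let T : Finset A := hTf.toFinset
  have hT : ∀ b, b ∈ T ↔ b ∈ TK φ K y := fun b => Set.Finite.mem_toFinset _
  have hTc : T.card = (TK φ K y).ncard := (Set.ncard_eq_toFinset_card _ _).symm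
  have hD : (Finset.image₂ (fun a b => a / b) T T).card ≤ T.card + (XX φ).ncard := by
    have h1 : ((Finset.image₂ (fun a b => a / b) T T : Finset A) : Set A) ⊆
        TK φ K y ∪ XX φ := by
      intro w hw
      rw [Finset.mem_coe] at hw
      obtain ⟨b, hb, c, hc, rfl⟩ := Finset.mem_image₂.1 hw
      by_cases h2 : b / c ∈ XX φ
      · exact Or.inr h2
      · refine Or.inl ⟨tt_div hn ((hT b).1 hb).1 ((hT c).1 hc).1 ?_,
          div_mem ((hT b).1 hb).2 ((hT c).1 hc).2⟩
        rw [hy, sat_one]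
        exact h2
    have h2 := Set.ncard_le_ncard h1 (hTf.union hX)
    rw [Set.ncard_coe_finset] at h2
    refine h2.trans ((Set.ncard_union_le _ _).trans ?_)
    rw [hTc]
  have hcl' := div_closed T (by rw [hTc] at hD ⊢; omega)
  have hne : ((Finset.image₂ (fun a b => a / b) T T : Finset A) : Set A).Nonempty := by
    have : T.Nonempty := by
      rw [← Finset.card_pos, hTc]; omega
    obtain ⟨t, ht⟩ := this
    exact ⟨t / t, Finset.mem_coe.2 (Finset.mem_image₂_of_mem ht ht)⟩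
  let S : Subgroup A := Subgroup.ofDiv
    ((Finset.image₂ (fun a b => a / b) T T : Finset A) : Set A) hne (by
      intro x hx z hz
      rw [← div_eq_mul_inv]
      exact hcl' x z hx hz)
  have hS : K ≤ S := by
    rw [← hcl, Subgroup.closure_le]
    intro a ha
    obtain ⟨r, rfl, hr⟩ := uk_of hn hL ha
    obtain ⟨b, hb, hb'⟩ := shiftK hK hX hr (by rw [← hcl]; exact Subgroup.subset_closure ha) hy h'
    show φ r ∈ ((Finset.image₂ (fun a b => a / b) T T : Finset A) : Set A)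
    rw [Finset.mem_coe]
    refine Finset.mem_image₂.2 ⟨b * φ r, (hT _).2 hb', b, (hT _).2 hb, ?_⟩
    show b * φ r / b = φ r
    rw [mul_div_cancel_left]
  have hA : Nat.card K ≤ (Finset.image₂ (fun a b => a / b) T T).card := by
    have h1 : (K : Set A) ⊆ ((Finset.image₂ (fun a b => a / b) T T : Finset A) : Set A) :=
      fun a ha => hS ha
    have h2 := Set.ncard_le_ncard h1 (Finset.finite_toSet _)
    rw [Set.ncard_coe_finset] at h2
    exact h2
  rw [← hTc]
  exact hA.trans hD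

/-- The order of the subgroup generated by the classes that are not strongly rigid. -/
theorem closure_card (hp : p.Prime) (hexp : ∀ a : A, a ^ p = 1) (hn : φ (-1) = 1) {M x : ℕ}
    (hL : HL φ M) (hfin : (NR φ).Finite) (hx : (NR φ).ncard + 1 ≤ x) :
    Finite (Subgroup.closure (NR φ)) ∧ Nat.card (Subgroup.closure (NR φ)) ≤
      max (2 * (p * M) + x) (11 * x + 4 * max x (2 * M) + 4 * p) := by
  classical
  obtain ⟨K, hcl⟩ : ∃ K : Subgroup A, Subgroup.closure (NR φ) = K := ⟨_, rfl⟩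
  have hKfin : Finite K := by
    have h1 : Group.FG K := by
      rw [← hcl, Group.fg_iff_subgroup_fg]
      exact ⟨hfin.toFinset, by rw [hfin.coe_toFinset]⟩
    refine CommGroup.finite_of_fg_isMulTorsion K ?_
    intro g
    rw [isOfFinOrder_iff_pow_eq_one]
    exact ⟨p, hp.pos, Subtype.ext (hexp g)⟩
  rw [hcl]
  refine ⟨hKfin, ?_⟩
  have hK : (K : Set A).Finite := Set.toFinite _
  have hXf : (XX φ).Finite := hfin.insert 1
  have hXx : (XX φ).ncard ≤ x := (Set.ncard_insert_le _ _).trans hx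
  by_contra hcon
  push Not at hcon
  obtain ⟨hc1, hc2⟩ := max_lt_iff.1 hcon
  obtain ⟨κ, hκ⟩ : ∃ κ : ℕ, κ = x + max x (2 * M) := ⟨_, rfl⟩
  have hκ1 : 2 * x ≤ κ := by rw [hκ]; have := le_max_left x (2 * M); omega
  have hκ2 : x + 2 * M ≤ κ := by rw [hκ]; have := le_max_right x (2 * M); omega
  have h2 : 7 * x + 4 * κ + 4 * p < Nat.card K := by rw [hκ]; omega
  have hXK : XX φ ⊆ K := by
    rintro a (rfl | ha)
    · exact one_mem K
    · rw [← hcl]; exact Subgroup.subset_closure ha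
  have hy1 : ∀ y : Fˣ, φ (y ^ p) = 1 := fun y => by rw [map_pow, hexp]
  let W : Subgroup Fˣ := Subgroup.closure {r : Fˣ | φ r ∈ NR φ ∧ Uk φ M r}
  have hWK : ∀ w ∈ W, φ w ∈ K := by
    intro w hw
    have h3 : W ≤ K.comap φ := by
      rw [Subgroup.closure_le]
      intro r hr
      rw [SetLike.mem_coe, Subgroup.mem_comap, ← hcl]
      exact Subgroup.subset_closure hr.1
    exact h3 hw
  have hmul : ∀ y r : Fˣ, φ y ∈ K → (DK φ K (r ^ p)).ncard ≤ 2 * (p * M) →
      (TK φ K (y ^ p)).ncard ≤ κ → (TK φ K ((y * r) ^ p)).ncard ≤ κ := by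
    intro y r hyK hr hy
    have h3 : (TK φ K (r ^ p)).ncard ≤ κ := by
      by_contra hc
      have h4 := bigK hn hK hXf hL hcl (hy1 r) (by omega) (by omega)
      have h5 := tk_card hK (hy1 r)
      omega
    by_contra hc
    have h4 := bigK hn hK hXf hL hcl (hy1 (y * r)) (by omega) (by omega)
    have h5 := tk_card hK (hy1 (y * r))
    have h6 := dk_mul_card hK (y := y ^ p) (by rw [map_pow]; exact pow_mem hyK p) (r ^ p)
    rw [← mul_pow] at h6
    have h7 := dk_card hn hK hXf (hy1 r)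
    have h8 := dk_card hn hK hXf (hy1 y)
    omega
  have hpow : ∀ r : Fˣ, Uk φ M r → (DK φ K (r ^ p)).ncard ≤ 2 * (p * M) := by
    intro r hr
    obtain ⟨h3, h4⟩ := uk_dd hr p
    refine (Set.ncard_le_ncard Set.inter_subset_left h3).trans (h4.trans (le_of_eq (by ring)))
  have hsmall : ∀ y ∈ W, (TK φ K (y ^ p)).ncard ≤ κ := by
    intro y hy
    induction hy using Subgroup.closure_induction_right with
    | one =>
      have := tk_card hK (φ := φ) (y := 1 ^ p) (hy1 1)
      rw [one_pow, DK, dd_one, Set.empty_inter, Set.ncard_empty] at this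
      rw [one_pow]
      omega
    | mul_right y hyW r hr ih => exact hmul y r (hWK y hyW) (hpow r hr.2) ih
    | mul_inv_cancel y hyW r hr ih =>
      refine hmul y r⁻¹ (hWK y hyW) ?_ ih
      rw [inv_pow]
      refine (dk_inv_card hK ?_).trans (hpow r hr.2)
      rw [hy1]
      exact one_mem K
  have hsurj : ∀ a ∈ K, ∃ w ∈ W, φ w = a := by
    intro a ha
    have h3 : K ≤ W.map φ := by
      rw [← hcl, Subgroup.closure_le]
      intro b hb
      obtain ⟨r, hr1, hr2⟩ := uk_of hn hL hb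
      exact ⟨r, Subgroup.subset_closure ⟨by rw [hr1]; exact hb, hr2⟩, hr1⟩
    obtain ⟨w, hw, e⟩ := h3 ha
    exact ⟨w, hw, e⟩
  let Gs : Set A := {g | g ∉ XX φ ∧ ∃ w ∈ W, φ w = g ∧ Sm φ w}
  have hGsK : Gs ⊆ K := by
    rintro g ⟨-, w, hw, rfl, -⟩
    exact hWK w hw
  let G : Finset A := (hK.subset hGsK).toFinset
  have hG : ∀ g, g ∈ G ↔ g ∈ Gs := fun g => Set.Finite.mem_toFinset _
  have hw : ∀ g : A, ∃ w : Fˣ, g ∈ G → (w ∈ W ∧ φ w = g ∧ Sm φ w) := by
    intro g
    by_cases h : g ∈ G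
    · obtain ⟨w, hw⟩ := ((hG g).1 h).2
      exact ⟨w, fun _ => hw⟩
    · exact ⟨1, fun h' => absurd h' h⟩
  choose w hw using hw
  let Xf : Finset A := hXf.toFinset
  have hXf' : ∀ g, g ∈ Xf ↔ g ∈ XX φ := fun g => Set.Finite.mem_toFinset _
  have hXc : Xf.card ≤ x := by
    rw [← Set.ncard_eq_toFinset_card _ hXf]; exact hXx
  let Df : A → Finset A := fun g => (hK.subset (Set.inter_subset_right :
    DK φ K (w g) ⊆ K)).toFinset
  have hDf : ∀ g h, h ∈ Df g ↔ h ∈ DK φ K (w g) := fun g h => Set.Finite.mem_toFinset _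
  obtain ⟨δ, hδ⟩ : ∃ δ : ℕ, δ = κ + x + p := ⟨_, rfl⟩
  have hDc : ∀ g ∈ G, (Df g).card ≤ δ := by
    intro g hg
    have h0 : (Df g).card = (DK φ K (w g)).ncard := (Set.ncard_eq_toFinset_card _ _).symm
    have h3 := hsmall _ (hw g hg).1
    have h4 := dk_card hn hK hXf (hy1 (w g))
    have h5 : (DK φ K (w g)).ncard ≤ (DK φ K (w g ^ p)).ncard + p := by
      have h6 := dd_pow_sup hp hn (y := w g) (by
        rw [(hw g hg).2.1]; exact ((hG g).1 hg).1)
      have hz : ((Subgroup.zpowers (φ (w g)) : Subgroup A) : Set A).Finite := by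
        refine hK.subset ?_
        rw [SetLike.coe_subset_coe, Subgroup.zpowers_le]
        exact hWK _ (hw g hg).1
      have hd : (DK φ K (w g ^ p)).Finite := hK.subset Set.inter_subset_right
      have h7 : DK φ K (w g) ⊆ DK φ K (w g ^ p) ∪ (Subgroup.zpowers (φ (w g)) : Set A) := by
        rintro b ⟨hb, hbK⟩
        rcases h6 hb with h8 | h8
        · exact Or.inl ⟨h8, hbK⟩
        · exact Or.inr h8
      exact (Set.ncard_le_ncard h7 (hd.union hz)).trans ((Set.ncard_union_le _ _).trans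
        (Nat.add_le_add_left (zpowers_card hp hexp _) _))
    omega
  let P1 : Finset (A × A) := G.biUnion fun g => Xf.image fun t => (g, g / t)
  let P2 : Finset (A × A) := G.biUnion fun g => (Df g).image fun h => (g, h)
  let P3 : Finset (A × A) := G.biUnion fun g => (Df g).image fun h => (h, g)
  have hsub : G ×ˢ G ⊆ P1 ∪ (P2 ∪ P3) := by
    rintro ⟨g, h⟩ hgh
    rw [Finset.mem_product] at hgh
    obtain ⟨hg, hh⟩ := hgh
    obtain ⟨hg1, hg2, hg3⟩ := hw g hg
    obtain ⟨hh1, hh2, hh3⟩ := hw h hh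
    have hgK := hGsK ((hG g).1 hg)
    have hhK := hGsK ((hG h).1 hh)
    rw [Finset.mem_union, Finset.mem_union]
    by_cases h3 : g / h ∈ XX φ
    · left
      refine Finset.mem_biUnion.2 ⟨g, hg, Finset.mem_image.2 ⟨g / h, (hXf' _).2 h3, ?_⟩⟩
      rw [div_div_cancel]
    right
    have h4 : φ (w g * (w h)⁻¹) ∉ XX φ := by
      rw [map_mul, map_inv, hg2, hh2, ← div_eq_mul_inv]; exact h3
    rcases sm_or hn h4 with h5 | h5
    · -- `w g ≪ w h ≪ 1`
      left
      refine Finset.mem_biUnion.2 ⟨g, hg, Finset.mem_image.2 ⟨h, (hDf _ _).2 ?_, rfl⟩⟩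
      refine ⟨⟨w h, hh2, fun h6 => ?_⟩, hhK⟩
      have h7 := h6.1 hh3
      refine sm_excl h4 h5 ?_
      have e : (w g * (w h)⁻¹)⁻¹ = w h * (w g)⁻¹ := by rw [mul_inv, inv_inv, mul_comm]
      rw [e]
      exact h7
    · right
      refine Finset.mem_biUnion.2 ⟨h, hh, Finset.mem_image.2 ⟨g, (hDf _ _).2 ?_, rfl⟩⟩
      exact ⟨⟨w g, hg2, fun h6 => sm_excl h4 (h6.1 hg3) h5⟩, hgK⟩
  have hc1 : P1.card ≤ G.card * x := by
    refine Finset.card_biUnion_le.trans ?_
    rw [← smul_eq_mul]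
    exact Finset.sum_le_card_nsmul _ _ _ fun g _ => Finset.card_image_le.trans hXc
  have hc2 : P2.card ≤ G.card * δ := by
    refine Finset.card_biUnion_le.trans ?_
    rw [← smul_eq_mul]
    exact Finset.sum_le_card_nsmul _ _ _ fun g hg => Finset.card_image_le.trans (hDc g hg)
  have hc3 : P3.card ≤ G.card * δ := by
    refine Finset.card_biUnion_le.trans ?_
    rw [← smul_eq_mul]
    exact Finset.sum_le_card_nsmul _ _ _ fun g hg => Finset.card_image_le.trans (hDc g hg)
  have hGG : G.card * G.card ≤ G.card * (x + 2 * δ) := by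
    rw [← Finset.card_product]
    refine (Finset.card_le_card hsub).trans ((Finset.card_union_le _ _).trans ?_)
    have := Finset.card_union_le P2 P3
    calc P1.card + (P2 ∪ P3).card ≤ G.card * x + (G.card * δ + G.card * δ) := by omega
      _ = G.card * (x + 2 * δ) := by ring
  have hGc : G.card ≤ x + 2 * δ := by
    rcases Nat.eq_zero_or_pos G.card with h0 | h0
    · omega
    · exact Nat.le_of_mul_le_mul_left hGG h0
  have hcov : (K : Set A) ⊆ ((Xf ∪ (G ∪ G.image fun g => g⁻¹) : Finset A) : Set A) := by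
    intro g hgK
    rw [Finset.mem_coe, Finset.mem_union, Finset.mem_union]
    by_cases hg : g ∈ XX φ
    · exact Or.inl ((hXf' g).2 hg)
    right
    obtain ⟨v, hv, e⟩ := hsurj g hgK
    rcases sm_or hn (g := v) (by rwa [e]) with h3 | h3
    · left
      exact (hG g).2 ⟨hg, v, hv, e, h3⟩
    · right
      exact Finset.mem_image.2 ⟨g⁻¹, (hG _).2 ⟨fun h => hg ((xx_inv hn).1 h), v⁻¹, inv_mem hv,
        by rw [map_inv, e], h3⟩, inv_inv g⟩
  have h3 := Set.ncard_le_ncard hcov (Finset.finite_toSet _)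
  rw [Set.ncard_coe_finset] at h3
  have h4 := Finset.card_union_le Xf (G ∪ G.image fun g => g⁻¹)
  have h5 := Finset.card_union_le G (G.image fun g => g⁻¹)
  have h6 : (G.image fun g => g⁻¹).card ≤ G.card := Finset.card_image_le
  have h7 : (K : Set A).ncard = Nat.card K := rfl
  omega

end

end Pool.Agent.V7H42.ET
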