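import Mathlib
import Pool.Agent.V7H42.ET.Rel

set_option autoImplicit false

/-! The order of the subgroup generated by the classes that are not rigid: a linear bound. -/

namespace Pool.Agent.V7H42.ET

open Pool.Agent.Y920.EP

/-- counting pairs -/
lemma pairs {A : Type} [CommGroup A] [DecidableEq A] (G X : Finset A) (E : A → Finset A)
    {x e : ℕ} (hX : X.card ≤ x) (hE : ∀ g ∈ G, (E g).card ≤ e)
    (h : ∀ g ∈ G, ∀ h ∈ G, g / h ∈ X ∨ h ∈ E g ∨ g ∈ E h) : G.card ≤ x + 2 * e := by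
  let P1 : Finset (A × A) := G.biUnion fun g => X.image fun t => (g, g / t)
  let P2 : Finset (A × A) := G.biUnion fun g => (E g).image fun h => (g, h)
  let P3 : Finset (A × A) := G.biUnion fun g => (E g).image fun h => (h, g)
  have hsub : G ×ˢ G ⊆ P1 ∪ (P2 ∪ P3) := by
    rintro ⟨g, k⟩ hgk
    rw [Finset.mem_product] at hgk
    obtain ⟨hg, hk⟩ := hgk
    rw [Finset.mem_union, Finset.mem_union]
    rcases h g hg k hk with h1 | h1 | h1
    · exact Or.inl (Finset.mem_biUnion.2 ⟨g, hg, Finset.mem_image.2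
        ⟨g / k, h1, by rw [div_div_cancel]⟩⟩)
    · exact Or.inr (Or.inl (Finset.mem_biUnion.2 ⟨g, hg, Finset.mem_image.2 ⟨k, h1, rfl⟩⟩))
    · exact Or.inr (Or.inr (Finset.mem_biUnion.2 ⟨k, hk, Finset.mem_image.2 ⟨g, h1, rfl⟩⟩))
  have hc1 : P1.card ≤ G.card * x := by
    refine Finset.card_biUnion_le.trans ?_
    rw [← smul_eq_mul]
    exact Finset.sum_le_card_nsmul _ _ _ fun g _ => Finset.card_image_le.trans hX
  have hc2 : P2.card ≤ G.card * e := by
    refine Finset.card_biUnion_le.trans ?_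
    rw [← smul_eq_mul]
    exact Finset.sum_le_card_nsmul _ _ _ fun g hg => Finset.card_image_le.trans (hE g hg)
  have hc3 : P3.card ≤ G.card * e := by
    refine Finset.card_biUnion_le.trans ?_
    rw [← smul_eq_mul]
    exact Finset.sum_le_card_nsmul _ _ _ fun g hg => Finset.card_image_le.trans (hE g hg)
  have hGG : G.card * G.card ≤ G.card * (x + 2 * e) := by
    rw [← Finset.card_product]
    refine (Finset.card_le_card hsub).trans ((Finset.card_union_le _ _).trans ?_)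
    have := Finset.card_union_le P2 P3
    calc P1.card + (P2 ∪ P3).card ≤ G.card * x + (G.card * e + G.card * e) := by omega
      _ = G.card * (x + 2 * e) := by ring
  rcases Nat.eq_zero_or_pos G.card with h0 | h0
  · omega
  · exact Nat.le_of_mul_le_mul_left hGG h0

/-- a set that contains at most one of `g`, `g⁻¹` -/
lemma half {A : Type} [CommGroup A] [DecidableEq A] (S Y : Finset A)
    (hS : ∀ g ∈ S, g⁻¹ ∉ S) (hSY : ∀ g ∈ S, g ∈ Y ∧ g⁻¹ ∈ Y) : 2 * S.card ≤ Y.card := by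
  have h1 : (S.image fun g => g⁻¹).card = S.card :=
    Finset.card_image_of_injective _ inv_injective
  have h2 : Disjoint S (S.image fun g => g⁻¹) := by
    rw [Finset.disjoint_left]
    intro g hg hg'
    obtain ⟨k, hk, rfl⟩ := Finset.mem_image.1 hg'
    exact hS k hk hg
  have h3 : S ∪ (S.image fun g => g⁻¹) ⊆ Y := by
    intro g hg
    rcases Finset.mem_union.1 hg with h | h
    · exact (hSY g h).1
    · obtain ⟨k, hk, rfl⟩ := Finset.mem_image.1 h
      exact (hSY k hk).2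
  have h4 := Finset.card_le_card h3
  rw [Finset.card_union_of_disjoint h2, h1] at h4
  omega

section

variable {F : Type} [Field F] {A : Type} [CommGroup A] {φ : Fˣ →* A} {p : ℕ}

/-- `r + s = 1` -/
def Rs (φ : Fˣ →* A) (r : Fˣ) : Prop :=
  ∃ s : Fˣ, (r : F) + s = 1 ∧ φ r ≠ 1 ∧ φ s ≠ 1 ∧ φ s ≠ φ r

lemma rs_of {a : A} (ha : a ∈ NR φ) : ∃ r : Fˣ, φ r = a ∧ Rs φ r := by
  obtain ⟨ha1, r, s, rfl, hrs, hs1, hs2⟩ := ha
  exact ⟨r, rfl, s, hrs, ha1, hs1, hs2⟩

/-- such an element is equal to `1` for the strongly rigid classes -/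
lemma rs_dd (hn : φ (-1) = 1) {r : Fˣ} (hr : Rs φ r) {w : Fˣ} (h1 : φ w ∉ XX φ)
    (h2 : φ (w * r⁻¹) ∉ XX φ) : Sm φ w ↔ Sm φ (w * r⁻¹) := by
  obtain ⟨s, hrs, hr1, hs1, hs2⟩ := hr
  have hsX : φ s ∈ XX φ := Or.inr ⟨hs1, s, r, rfl, by rw [add_comm]; exact hrs, hr1,
    fun h => hs2 h.symm⟩
  constructor
  · intro h3
    by_contra h4
    have h5 := (sm_inv_iff hn h2).2 h4
    rw [mul_inv, inv_inv, mul_comm, ← sm_div] at h5
    obtain ⟨z2, hz2, e2⟩ := h5
    obtain ⟨z1, hz1, e1⟩ := h3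
    rw [Units.val_one] at hz1
    rw [map_one] at e1
    rcases srig_sum hn (x := z1) (y := -z2) (z := s) (by
      rw [hz1, Units.val_neg, hz2]; linear_combination hrs) (by
      rw [e1, phi_neg hn, e2, one_div, xx_inv hn]; exact h1) with c | c
    · exact hs1 (c.trans e1)
    · rw [phi_neg hn, e2] at c
      rw [c] at hsX
      exact h1 hsX
  · intro h3
    by_contra h4
    have h5 := (sm_inv_iff hn h1).2 h4
    have h6 : Ml φ 1 w := by
      rw [sm_div, one_mul]; exact h5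
    obtain ⟨z1, hz1, e1⟩ := h6
    rw [← sm_div] at h3
    obtain ⟨z2, hz2, e2⟩ := h3
    rcases srig_sum hn (x := z1) (y := -z2) (z := s) (by
      rw [hz1, Units.val_neg, hz2, Units.val_one]; linear_combination hrs) (by
      rw [e1, phi_neg hn, e2, ← map_div, div_eq_mul_inv]; exact h2) with c | c
    · rw [e1] at c
      rw [c] at hsX
      exact h1 hsX
    · rw [phi_neg hn, e2] at c
      exact hs2 c

lemma rs_pow (hn : φ (-1) = 1) {r : Fˣ} (hr : Rs φ r) (k : ℕ) :
    DD φ (r ^ k) ⊆ Sat (XX φ) (φ r) := by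
  refine (dd_pow_sub r k).trans ?_
  rintro b ⟨i, u, hu, hu1⟩
  by_cases h1 : φ u ∈ XX φ
  · exact ⟨i, by rw [← hu]; exact h1⟩
  · by_cases h2 : φ (u * r⁻¹) ∈ XX φ
    · refine ⟨i - 1, ?_⟩
      rw [map_mul, map_inv, hu] at h2
      rw [zpow_sub_one, ← mul_assoc]
      exact h2
    · exact absurd (rs_dd hn hr h1 h2) hu1

lemma tt_inv (hn : φ (-1) = 1) {y : Fˣ} {b : A} (hb : b ∈ TT φ y) : b⁻¹ ∈ TT φ y := by
  obtain ⟨hb0, u, rfl, i, j, h1, h2⟩ := hb
  refine ⟨fun h => hb0 ((sat_inv hn).1 h), u⁻¹, map_inv φ u, j, i, ?_, ?_⟩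
  · rw [inv_inv, mul_comm]; exact h2
  · rw [mul_comm]; exact h1

variable {K : Subgroup A}

/-- units move most classes between powers of `y` to such classes -/
lemma shiftM (hn : φ (-1) = 1) (hX : (XX φ).Finite) {r : Fˣ}
    (hr : Rs φ r) (hrK : φ r ∈ K) {y : Fˣ} (hy : φ y = 1)
    (h : (XX φ).ncard < (TK φ K y).ncard) :
    ∃ b ∈ TK φ K y, b * φ r ∈ TK φ K y := by
  let C3 : Set A := (fun b => b * (φ r)⁻¹) '' XX φ
  have hf3 : C3.Finite := hX.image _
  have hB : C3.ncard < (TK φ K y).ncard := lt_of_le_of_lt (Set.ncard_image_le hX) h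
  obtain ⟨b, ⟨hb, hbK⟩, hb3⟩ := Set.exists_mem_notMem_of_ncard_lt_ncard hB hf3
  refine ⟨b, ⟨hb, hbK⟩, ?_, mul_mem hbK hrK⟩
  obtain ⟨hb0, u, rfl, i, j, h1, h2⟩ := hb
  rw [hy, sat_one] at hb0
  have hbr : φ u * φ r ∉ XX φ := fun h5 => hb3 ⟨_, h5, mul_inv_cancel_right _ _⟩
  refine ⟨?_, u * r, map_mul φ u r, i, j, ?_, ?_⟩
  · rw [hy, sat_one]
    exact hbr
  · have h5 := (rs_dd hn hr (w := y ^ i * u⁻¹) (by
      rw [map_mul, map_zpow, map_inv, hy, one_zpow, one_mul, xx_inv hn]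
      exact hb0) (by
      rw [map_mul, map_mul, map_zpow, map_inv, map_inv, hy, one_zpow, one_mul, ← mul_inv,
        xx_inv hn]
      exact hbr)).1 h1
    rw [mul_inv, ← mul_assoc]
    exact h5
  · have h5 := (rs_dd hn hr (w := u * y ^ j * r) (by
      rw [map_mul, map_mul, map_zpow, hy, one_zpow, mul_one]
      exact hbr) (by
      rw [mul_inv_cancel_right, map_mul, map_zpow, hy, one_zpow, mul_one]
      exact hb0)).2 (by rwa [mul_inv_cancel_right])
    rw [mul_right_comm]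
    exact h5

/-- the dichotomy -/
lemma bigM (hn : φ (-1) = 1) (hK : (K : Set A).Finite) (hX : (XX φ).Finite)
    (hcl : Subgroup.closure (NR φ) = K) {y : Fˣ} (hy : φ y = 1)
    (h : 2 * (XX φ).ncard < (TK φ K y).ncard) : (K : Set A) ⊆ TK φ K y ∪ XX φ := by
  classical
  have hTf : (TK φ K y).Finite := hK.subset Set.inter_subset_right
  let T : Finset A := hTf.toFinset
  have hT : ∀ b, b ∈ T ↔ b ∈ TK φ K y := fun b => Set.Finite.mem_toFinset _
  have hTc : T.card = (TK φ K y).ncard := (Set.ncard_eq_toFinset_card _ _).symm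
  have h1 : ((Finset.image₂ (fun a b => a / b) T T : Finset A) : Set A) ⊆
      TK φ K y ∪ XX φ := by
    intro w hw
    rw [Finset.mem_coe] at hw
    obtain ⟨b, hb, c, hc, rfl⟩ := Finset.mem_image₂.1 hw
    by_cases h2 : b / c ∈ XX φ
    · exact Or.inr h2
    · refine Or.inl ⟨tt_div hn ((hT b).1 hb).1 ((hT c).1 hc).1 ?_,
        div_mem ((hT b).1 hb).2 ((hT c).1 hc).2⟩
      rw [hy, sat_one]
      exact h2
  have hD : (Finset.image₂ (fun a b => a / b) T T).card ≤ T.card + (XX φ).ncard := by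
    have h2 := Set.ncard_le_ncard h1 (hTf.union hX)
    rw [Set.ncard_coe_finset] at h2
    refine h2.trans ((Set.ncard_union_le _ _).trans ?_)
    rw [hTc]
  have hcl' := div_closed T (by rw [hTc] at hD ⊢; omega)
  have hne : ((Finset.image₂ (fun a b => a / b) T T : Finset A) : Set A).Nonempty := by
    have : T.Nonempty := by
      rw [← Finset.card_pos, hTc]; omega
    obtain ⟨t, ht⟩ := this
    exact ⟨t / t, Finset.mem_coe.2 (Finset.mem_image₂_of_mem ht ht)⟩
  let S : Subgroup A := Subgroup.ofDiv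
    ((Finset.image₂ (fun a b => a / b) T T : Finset A) : Set A) hne (by
      intro x hx z hz
      rw [← div_eq_mul_inv]
      exact hcl' x z hx hz)
  have hS : K ≤ S := by
    rw [← hcl, Subgroup.closure_le]
    intro a ha
    obtain ⟨r, rfl, hr⟩ := rs_of ha
    obtain ⟨b, hb, hb'⟩ := shiftM (K := K) hn hX hr
      (by rw [← hcl]; exact Subgroup.subset_closure ha) hy (by omega)
    show φ r ∈ ((Finset.image₂ (fun a b => a / b) T T : Finset A) : Set A)
    rw [Finset.mem_coe]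
    refine Finset.mem_image₂.2 ⟨b * φ r, (hT _).2 hb', b, (hT _).2 hb, ?_⟩
    show b * φ r / b = φ r
    rw [mul_div_cancel_left]
  exact fun a ha => h1 (hS ha)

lemma closure_finite (hp : p.Prime) (hexp : ∀ a : A, a ^ p = 1) (hfin : (NR φ).Finite) :
    Finite (Subgroup.closure (NR φ)) := by
  have h1 : Group.FG (Subgroup.closure (NR φ)) := by
    rw [Group.fg_iff_subgroup_fg]
    exact ⟨hfin.toFinset, by rw [hfin.coe_toFinset]⟩
  refine CommGroup.finite_of_fg_isMulTorsion _ ?_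
  intro g
  rw [isOfFinOrder_iff_pow_eq_one]
  exact ⟨p, hp.pos, Subtype.ext (hexp g)⟩

/-- few classes between the powers of `y ^ p`, for all classes of `K` -/
lemma small_reps (hp : p.Prime) (hexp : ∀ a : A, a ^ p = 1) (hn : φ (-1) = 1) {x : ℕ}
    (hK : (K : Set A).Finite) (hX : (XX φ).Finite) (hx : (XX φ).ncard ≤ x)
    (hcl : Subgroup.closure (NR φ) = K) (h1 : p * x < Nat.card K) (h2 : 5 * x < Nat.card K) :
    ∃ W : Subgroup Fˣ, (∀ w ∈ W, φ w ∈ K) ∧ (∀ a ∈ K, ∃ w ∈ W, φ w = a) ∧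
      ∀ y ∈ W, (TK φ K (y ^ p)).ncard ≤ 2 * x := by
  classical
  have hXK : XX φ ⊆ K := by
    rintro a (rfl | ha)
    · exact one_mem K
    · rw [← hcl]; exact Subgroup.subset_closure ha
  have hcard : Nat.card K = (K : Set A).ncard := rfl
  have hy1 : ∀ y : Fˣ, φ (y ^ p) = 1 := fun y => by rw [map_pow, hexp]
  let W : Subgroup Fˣ := Subgroup.closure {r : Fˣ | φ r ∈ NR φ ∧ Rs φ r}
  have hWK : ∀ w ∈ W, φ w ∈ K := by
    intro w hw
    have h3 : W ≤ K.comap φ := by
      rw [Subgroup.closure_le]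
      intro r hr
      rw [SetLike.mem_coe, Subgroup.mem_comap, ← hcl]
      exact Subgroup.subset_closure hr.1
    exact h3 hw
  have hfT : ∀ y : Fˣ, (TK φ K y).Finite := fun y => hK.subset Set.inter_subset_right
  -- generators
  have hgen : ∀ r : Fˣ, Rs φ r → φ r ∈ K → (TK φ K (r ^ p)).ncard ≤ 2 * x := by
    intro r hr hrK
    by_contra hc
    have h3 := bigM hn hK hX hcl (hy1 r) (by omega)
    have h4 : (K : Set A) ⊆ Sat (XX φ) (φ r) := by
      refine h3.trans (Set.union_subset ?_ (sub_sat _ _))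
      rintro b ⟨hb, -⟩
      have h5 := tt_sub (φ := φ) (r ^ p) hb
      rw [hy1, sat_one] at h5
      exact rs_pow hn hr p h5
    have h6 : (K : Set A) ⊆ (fun x : A × A => x.1 * x.2) ''
        (XX φ ×ˢ (Subgroup.zpowers (φ r) : Set A)) := by
      intro b hb
      obtain ⟨k, hk⟩ := h4 hb
      refine ⟨(b * φ r ^ k, φ r ^ (-k)), ⟨hk, Subgroup.mem_zpowers_iff.2 ⟨-k, rfl⟩⟩, ?_⟩
      show b * φ r ^ k * φ r ^ (-k) = b
      rw [zpow_neg, mul_inv_cancel_right]
    have hzf : ((Subgroup.zpowers (φ r) : Subgroup A) : Set A).Finite := by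
      refine hK.subset ?_
      rw [SetLike.coe_subset_coe, Subgroup.zpowers_le]
      exact hrK
    have h7 := (Set.ncard_le_ncard h6 ((hX.prod hzf).image _)).trans
      (Set.ncard_image_le (hX.prod hzf))
    rw [Set.ncard_prod, mul_comm] at h7
    have h8 : ((Subgroup.zpowers (φ r) : Subgroup A) : Set A).ncard ≤ p :=
      zpowers_card hp hexp _
    have h9 := Nat.mul_le_mul h8 hx
    omega
  have hmul : ∀ y r : Fˣ, (TK φ K (r ^ p)).ncard ≤ 2 * x →
      (TK φ K (y ^ p)).ncard ≤ 2 * x → (TK φ K ((y * r) ^ p)).ncard ≤ 2 * x := by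
    intro y r hr hy
    by_contra hc
    have h3 := bigM hn hK hX hcl (hy1 (y * r)) (by omega)
    have h4 : (K : Set A) ⊆ TK φ K (y ^ p) ∪ TK φ K (r ^ p) ∪ XX φ := by
      intro b hbK
      rcases h3 hbK with ⟨hb, -⟩ | hb
      · have h5 := tt_sub (φ := φ) _ hb
        rw [hy1, sat_one, mul_pow] at h5
        have h6 : b ∈ DD φ (y ^ p) ∨ b ∈ DD φ (r ^ p) := by
          rcases dd_mul _ _ h5 with h6 | ⟨c, hc, e⟩
          · exact Or.inl h6
          · refine Or.inr ?_
            rw [← e]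
            show φ (y ^ p) * c ∈ _
            rw [hy1, one_mul]
            exact hc
        rcases h6 with h6 | h6
        · have h7 := dd_sub hn _ h6
          rw [hy1, sat_one] at h7
          rcases h7 with h7 | h7
          · exact Or.inl (Or.inl ⟨h7, hbK⟩)
          · exact Or.inr h7
        · have h7 := dd_sub hn _ h6
          rw [hy1, sat_one] at h7
          rcases h7 with h7 | h7
          · exact Or.inl (Or.inr ⟨h7, hbK⟩)
          · exact Or.inr h7
      · exact Or.inr hb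
    have h5 := Set.ncard_le_ncard h4 (((hfT _).union (hfT _)).union hX)
    have h6 := Set.ncard_union_le (TK φ K (y ^ p) ∪ TK φ K (r ^ p)) (XX φ)
    have h7 := Set.ncard_union_le (TK φ K (y ^ p)) (TK φ K (r ^ p))
    omega
  have hTi : ∀ y : Fˣ, TK φ K y⁻¹ = TK φ K y := by
    have key : ∀ y : Fˣ, TK φ K y⁻¹ ⊆ TK φ K y := by
      rintro y b ⟨⟨hb0, u, rfl, i, j, h3, h4⟩, hbK⟩
      refine ⟨⟨fun h => hb0 ?_, u, rfl, -i, -j, ?_, ?_⟩, hbK⟩
      · obtain ⟨k, hk⟩ := h
        exact ⟨-k, by rwa [map_inv, inv_zpow, zpow_neg, inv_inv]⟩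
      · rwa [inv_zpow, ← zpow_neg] at h3
      · rwa [inv_zpow, ← zpow_neg] at h4
    intro y
    refine Set.Subset.antisymm (key y) ?_
    have h3 := key y⁻¹
    rwa [inv_inv] at h3
  refine ⟨W, hWK, ?_, ?_⟩
  · intro a ha
    have h3 : K ≤ W.map φ := by
      rw [← hcl, Subgroup.closure_le]
      intro b hb
      obtain ⟨r, hr1, hr2⟩ := rs_of hb
      exact ⟨r, Subgroup.subset_closure ⟨by rw [hr1]; exact hb, hr2⟩, hr1⟩
    obtain ⟨w, hw, e⟩ := h3 ha
    exact ⟨w, hw, e⟩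
  · intro y hy
    induction hy using Subgroup.closure_induction_right with
    | one =>
      have := tk_card hK (φ := φ) (y := 1 ^ p) (hy1 1)
      rw [one_pow, DK, dd_one, Set.empty_inter, Set.ncard_empty] at this
      rw [one_pow]
      omega
    | mul_right y hyW r hr ih =>
      exact hmul y r (hgen r hr.2 (by rw [← hcl]; exact Subgroup.subset_closure hr.1)) ih
    | mul_inv_cancel y hyW r hr ih =>
      refine hmul y r⁻¹ ?_ ih
      rw [inv_pow, hTi]
      exact hgen r hr.2 (by rw [← hcl]; exact Subgroup.subset_closure hr.1)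

/-- comparable elements -/
lemma pair_dd (hp : p.Prime) (hexp : ∀ a : A, a ^ p = 1) (hn : φ (-1) = 1) {v w : Fˣ}
    (hv : φ v ∉ XX φ) (hw : φ w ∉ XX φ) (hwK : φ w ∈ K) (h1 : Sm φ w)
    (hvw : φ (v * w⁻¹) ∉ XX φ) (h : Sm φ (v * w⁻¹)) :
    φ w ∈ TK φ K (v ^ p) ∨ (φ w ∈ Subgroup.zpowers (φ v) ∧ φ w ≠ φ v) := by
  have hy1 : φ (v ^ p) = 1 := by rw [map_pow, hexp]
  have h3 : φ w ∈ DD φ v := by
    refine ⟨w, rfl, fun h6 => ?_⟩
    have h7 := h6.1 h1
    refine sm_excl hvw h ?_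
    have e : (v * w⁻¹)⁻¹ = w * v⁻¹ := by rw [mul_inv, inv_inv, mul_comm]
    rw [e]
    exact h7
  rcases dd_pow_sup hp hn hv h3 with h4 | h4
  · left
    have h5 := dd_sub hn _ h4
    rw [hy1, sat_one] at h5
    rcases h5 with h5 | h5
    · exact ⟨h5, hwK⟩
    · exact absurd h5 hw
  · right
    refine ⟨h4, fun h5 => hvw (Or.inl ?_)⟩
    rw [map_mul, map_inv, h5, mul_inv_cancel]

/-- **The order of the subgroup generated by the classes that are not rigid**, `p` odd. -/
theorem majority (hp : p.Prime) (hp2 : p ≠ 2) (hexp : ∀ a : A, a ^ p = 1) (hn : φ (-1) = 1)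
    {x : ℕ} (hfin : (NR φ).Finite) (hx : (NR φ).ncard + 1 ≤ x) :
    Finite (Subgroup.closure (NR φ)) ∧ Nat.card (Subgroup.closure (NR φ)) ≤
      max (p * x) (7 * x + 2 * p - 6) := by
  classical
  have hK0 := closure_finite hp hexp hfin
  refine ⟨hK0, ?_⟩
  obtain ⟨K, hcl⟩ : ∃ K : Subgroup A, Subgroup.closure (NR φ) = K := ⟨_, rfl⟩
  rw [hcl] at hK0 ⊢
  have hK : (K : Set A).Finite := Set.toFinite _
  have hXf : (XX φ).Finite := hfin.insert 1
  have hXx : (XX φ).ncard ≤ x := (Set.ncard_insert_le _ _).trans hx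
  have hp3 : 3 ≤ p := by
    have := hp.two_le
    omega
  by_contra hcon
  push Not at hcon
  obtain ⟨hc1, hc2⟩ := max_lt_iff.1 hcon
  obtain ⟨W, hWK, hsurj, hsmall⟩ := small_reps hp hexp hn hK hXf hXx hcl hc1 (by omega)
  -- representatives
  have hv : ∀ g : A, ∃ v : Fˣ, g ∈ K → (v ∈ W ∧ φ v = g) := by
    intro g
    by_cases h : g ∈ K
    · obtain ⟨w, hw, e⟩ := hsurj g h
      exact ⟨w, fun _ => ⟨hw, e⟩⟩
    · exact ⟨1, fun h' => absurd h' h⟩
  choose v hv using hv
  have hne : ∀ g : A, g ≠ 1 → g ≠ g⁻¹ := by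
    intro g hg h
    apply hg
    have h1 : g ^ 2 = 1 := by
      rw [pow_two]
      nth_rewrite 2 [h]
      exact mul_inv_cancel g
    have h2 : orderOf g ∣ 2 := orderOf_dvd_of_pow_eq_one h1
    have h3 : orderOf g ∣ p := orderOf_dvd_of_pow_eq_one (hexp g)
    have h4 : Nat.Coprime 2 p := (Nat.coprime_primes Nat.prime_two hp).2 (Ne.symm hp2)
    have h5 := Nat.dvd_gcd h2 h3
    rw [h4, Nat.dvd_one, orderOf_eq_one_iff] at h5
    exact h5
  let P : Set A := {g | WellOrderingRel g g⁻¹}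
  have hP : ∀ g : A, g ≠ g⁻¹ → (g ∈ P ↔ g⁻¹ ∉ P) := by
    intro g hg
    have h1 : g⁻¹ ∈ P ↔ WellOrderingRel g⁻¹ g := by
      show WellOrderingRel g⁻¹ g⁻¹⁻¹ ↔ _
      rw [inv_inv]
    rw [h1]
    show WellOrderingRel g g⁻¹ ↔ _
    constructor
    · intro h2 h3
      exact asymm h2 h3
    · intro h2
      rcases trichotomous_of (WellOrderingRel (α := A)) g g⁻¹ with h3 | h3 | h3
      · exact h3
      · exact absurd h3 hg
      · exact absurd h3 h2
  let w : A → Fˣ := fun g => if g ∈ P then v g else (v g⁻¹)⁻¹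
  have hw : ∀ g ∈ K, w g ∈ W ∧ φ (w g) = g := by
    intro g hg
    by_cases h : g ∈ P
    · have e : w g = v g := if_pos h
      rw [e]
      exact hv g hg
    · have e : w g = (v g⁻¹)⁻¹ := if_neg h
      rw [e]
      have h1 := hv g⁻¹ (inv_mem hg)
      exact ⟨inv_mem h1.1, by rw [map_inv, h1.2, inv_inv]⟩
  have hwinv : ∀ g : A, g ≠ g⁻¹ → w g⁻¹ = (w g)⁻¹ := by
    intro g hg
    by_cases h : g ∈ P
    · have e : w g = v g := if_pos h
      have e' : w g⁻¹ = (v g⁻¹⁻¹)⁻¹ := if_neg ((hP g hg).1 h)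
      rw [e', e, inv_inv]
    · have e : w g = (v g⁻¹)⁻¹ := if_neg h
      have e' : w g⁻¹ = v g⁻¹ := if_pos (by
        by_contra h1
        exact h ((hP g hg).2 h1))
      rw [e', e, inv_inv]
  -- the positive classes
  let Gs : Set A := {g | g ∈ K ∧ g ∉ XX φ ∧ Sm φ (w g)}
  let G : Finset A := (hK.subset (fun g hg => hg.1 : Gs ⊆ K)).toFinset
  have hG : ∀ g, g ∈ G ↔ g ∈ Gs := fun g => Set.Finite.mem_toFinset _
  have hG1 : ∀ g ∈ G, g ≠ g⁻¹ := by
    intro g hg
    refine hne g (fun h => ((hG g).1 hg).2.1 (Or.inl h))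
  have hGi : ∀ g ∈ G, g⁻¹ ∉ G := by
    intro g hg hg'
    obtain ⟨hgK, hgX, hgs⟩ := (hG g).1 hg
    obtain ⟨-, -, hgs'⟩ := (hG _).1 hg'
    rw [hwinv g (hG1 g hg)] at hgs'
    refine sm_excl ?_ hgs hgs'
    rw [(hw g hgK).2]
    exact hgX
  let Xf : Finset A := hXf.toFinset
  have hXf' : ∀ g, g ∈ Xf ↔ g ∈ XX φ := fun g => Set.Finite.mem_toFinset _
  have hXc : Xf.card ≤ x := by
    rw [← Set.ncard_eq_toFinset_card _ hXf]; exact hXx
  have hfT : ∀ y : Fˣ, (TK φ K y).Finite := fun y => hK.subset Set.inter_subset_right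
  have hfz : ∀ g : A, ((Subgroup.zpowers g : Subgroup A) : Set A).Finite := by
    intro g
    apply Set.finite_of_ncard_pos
    have h0 : 0 < Nat.card (Subgroup.zpowers g) := by
      rw [Nat.card_zpowers]
      exact orderOf_pos_iff.2 (isOfFinOrder_iff_pow_eq_one.2 ⟨p, hp.pos, hexp g⟩)
    exact h0
  let E1 : A → Finset A := fun g => G.filter fun h => h ∈ TK φ K (w g ^ p)
  let E2 : A → Finset A := fun g => G.filter fun h => h ∈ Subgroup.zpowers g ∧ h ≠ g
  have hE1 : ∀ g ∈ G, (E1 g).card ≤ x := by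
    intro g hg
    have h1 : 2 * (E1 g).card ≤ (hfT (w g ^ p)).toFinset.card := by
      refine half _ _ ?_ ?_
      · intro h hh hh'
        exact hGi h (Finset.mem_filter.1 hh).1 (Finset.mem_filter.1 hh').1
      · intro h hh
        have h2 := (Finset.mem_filter.1 hh).2
        rw [Set.Finite.mem_toFinset, Set.Finite.mem_toFinset]
        exact ⟨h2, tt_inv hn h2.1, inv_mem h2.2⟩
    rw [← Set.ncard_eq_toFinset_card _ (hfT _)] at h1
    have h3 := hsmall _ (hw g ((hG g).1 hg).1).1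
    omega
  have hE2 : ∀ g ∈ G, 2 * (E2 g).card + 3 ≤ p := by
    intro g hg
    have h1 : 2 * (G.filter fun h => h ∈ Subgroup.zpowers g).card ≤
        ((hfz g).toFinset.erase 1).card := by
      refine half _ _ ?_ ?_
      · intro h hh hh'
        exact hGi h (Finset.mem_filter.1 hh).1 (Finset.mem_filter.1 hh').1
      · intro h hh
        have h2 := (Finset.mem_filter.1 hh).2
        have h3 := ((hG h).1 (Finset.mem_filter.1 hh).1).2.1
        rw [Finset.mem_erase, Finset.mem_erase, Set.Finite.mem_toFinset,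
          Set.Finite.mem_toFinset]
        exact ⟨⟨fun h4 => h3 (Or.inl h4), h2⟩, fun h4 => h3 (Or.inl (inv_eq_one.1 h4)),
          inv_mem h2⟩
    have h2 : ((hfz g).toFinset.erase 1).card + 1 = (hfz g).toFinset.card := by
      apply Finset.card_erase_add_one
      rw [Set.Finite.mem_toFinset]
      exact one_mem _
    have h3 : (hfz g).toFinset.card ≤ p := by
      rw [← Set.ncard_eq_toFinset_card _ (hfz g)]
      exact zpowers_card hp hexp g
    have h4 : (E2 g).card + 1 ≤ (G.filter fun h => h ∈ Subgroup.zpowers g).card := by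
      have h5 : insert g (E2 g) ⊆ G.filter fun h => h ∈ Subgroup.zpowers g := by
        intro h hh
        rcases Finset.mem_insert.1 hh with rfl | hh
        · exact Finset.mem_filter.2 ⟨hg, Subgroup.mem_zpowers _⟩
        · exact Finset.mem_filter.2 ⟨(Finset.mem_filter.1 hh).1, (Finset.mem_filter.1 hh).2.1⟩
      have h6 := Finset.card_le_card h5
      rwa [Finset.card_insert_of_notMem] at h6
      intro h7
      exact (Finset.mem_filter.1 h7).2.2 rfl
    omega
  obtain ⟨m, hm⟩ : ∃ m : ℕ, p = 2 * m + 3 := by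
    obtain ⟨k, hk⟩ := hp.odd_of_ne_two hp2
    exact ⟨k - 1, by omega⟩
  have hE : ∀ g ∈ G, (E1 g ∪ E2 g).card ≤ x + m := by
    intro g hg
    have h1 := Finset.card_union_le (E1 g) (E2 g)
    have h2 := hE1 g hg
    have h3 := hE2 g hg
    omega
  have hGc : G.card ≤ x + 2 * (x + m) := by
    refine pairs G Xf (fun g => E1 g ∪ E2 g) hXc hE ?_
    intro g hg h hh
    obtain ⟨hgK, hgX, hgs⟩ := (hG g).1 hg
    obtain ⟨hhK, hhX, hhs⟩ := (hG h).1 hh
    obtain ⟨hg1, hg2⟩ := hw g hgK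
    obtain ⟨hh1, hh2⟩ := hw h hhK
    by_cases h3 : g / h ∈ XX φ
    · exact Or.inl ((hXf' _).2 h3)
    right
    have h4 : φ (w g * (w h)⁻¹) ∉ XX φ := by
      rw [map_mul, map_inv, hg2, hh2, ← div_eq_mul_inv]; exact h3
    rcases sm_or hn h4 with h5 | h5
    · left
      have h6 := pair_dd (K := K) hp hexp hn (v := w g) (w := w h) (by rwa [hg2])
        (by rwa [hh2]) (by rwa [hh2]) hhs h4 h5
      rw [hh2, hg2] at h6
      rw [Finset.mem_union]
      rcases h6 with h6 | h6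
      · exact Or.inl (Finset.mem_filter.2 ⟨hh, h6⟩)
      · exact Or.inr (Finset.mem_filter.2 ⟨hh, h6⟩)
    · right
      have e : (w g * (w h)⁻¹)⁻¹ = w h * (w g)⁻¹ := by rw [mul_inv, inv_inv, mul_comm]
      rw [e] at h5
      have h4' : φ (w h * (w g)⁻¹) ∉ XX φ := by
        rw [← e, map_inv, xx_inv hn]; exact h4
      have h6 := pair_dd (K := K) hp hexp hn (v := w h) (w := w g) (by rwa [hh2])
        (by rwa [hg2]) (by rwa [hg2]) hgs h4' h5
      rw [hh2, hg2] at h6
      rw [Finset.mem_union]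
      rcases h6 with h6 | h6
      · exact Or.inl (Finset.mem_filter.2 ⟨hg, h6⟩)
      · exact Or.inr (Finset.mem_filter.2 ⟨hg, h6⟩)
  have hcov : (K : Set A) ⊆ ((Xf ∪ (G ∪ G.image fun g => g⁻¹) : Finset A) : Set A) := by
    intro g hgK
    rw [Finset.mem_coe, Finset.mem_union, Finset.mem_union]
    by_cases hg : g ∈ XX φ
    · exact Or.inl ((hXf' g).2 hg)
    right
    have hg1 : g ≠ g⁻¹ := hne g (fun h => hg (Or.inl h))
    rcases sm_or hn (g := w g) (by rw [(hw g hgK).2]; exact hg) with h3 | h3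
    · left
      exact (hG g).2 ⟨hgK, hg, h3⟩
    · right
      refine Finset.mem_image.2 ⟨g⁻¹, (hG _).2 ⟨inv_mem hgK, fun h => hg ((xx_inv hn).1 h), ?_⟩,
        inv_inv g⟩
      rw [hwinv g hg1]
      exact h3
  have h3 := Set.ncard_le_ncard hcov (Finset.finite_toSet _)
  rw [Set.ncard_coe_finset] at h3
  have h4 := Finset.card_union_le Xf (G ∪ G.image fun g => g⁻¹)
  have h5 := Finset.card_union_le G (G.image fun g => g⁻¹)
  have h6 : (G.image fun g => g⁻¹).card ≤ G.card := Finset.card_image_le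
  have h7 : (K : Set A).ncard = Nat.card K := rfl
  omega

end

end Pool.Agent.V7H42.ET
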