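import Mathlib
import Pool.Agent.V7H42.ET.Maj

set_option autoImplicit false

/-! The order of the subgroup generated by the classes that are not rigid: the case `p = 2`, and a
bound for all primes. -/

namespace Pool.Agent.V7H42.ET

open Pool.Agent.Y920.EP

section

variable {F : Type} [Field F] {A : Type} [CommGroup A] {φ : Fˣ →* A} {p : ℕ}

/-- **The order of the subgroup generated by the classes that are not rigid**, `p = 2`. -/
theorem majority_two (hexp : ∀ a : A, a ^ 2 = 1) (hn : φ (-1) = 1)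
    {x : ℕ} (hfin : (NR φ).Finite) (hx : (NR φ).ncard + 1 ≤ x) :
    Finite (Subgroup.closure (NR φ)) ∧ Nat.card (Subgroup.closure (NR φ)) ≤ 6 * x := by
  classical
  have hp : Nat.Prime 2 := Nat.prime_two
  have hK0 := closure_finite hp hexp hfin
  refine ⟨hK0, ?_⟩
  obtain ⟨K, hcl⟩ : ∃ K : Subgroup A, Subgroup.closure (NR φ) = K := ⟨_, rfl⟩
  rw [hcl] at hK0 ⊢
  have hK : (K : Set A).Finite := Set.toFinite _
  have hXf : (XX φ).Finite := hfin.insert 1
  have hXx : (XX φ).ncard ≤ x := (Set.ncard_insert_le _ _).trans hx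
  by_contra hcon
  push Not at hcon
  obtain ⟨W, hWK, hsurj, hsmall⟩ := small_reps hp hexp hn hK hXf hXx hcl (by omega) (by omega)
  have hinv : ∀ g : A, g⁻¹ = g := by
    intro g
    rw [inv_eq_iff_mul_eq_one, ← pow_two]
    exact hexp g
  -- representatives
  have hv : ∀ g : A, ∃ v : Fˣ, g ∈ K → g ∉ XX φ → (v ∈ W ∧ φ v = g ∧ Sm φ v) := by
    intro g
    by_cases h : g ∈ K
    · by_cases h' : g ∈ XX φ
      · exact ⟨1, fun _ h'' => absurd h' h''⟩
      · obtain ⟨w, hw, e⟩ := hsurj g h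
        rcases sm_or hn (g := w) (by rwa [e]) with h1 | h1
        · exact ⟨w, fun _ _ => ⟨hw, e, h1⟩⟩
        · exact ⟨w⁻¹, fun _ _ => ⟨inv_mem hw, by rw [map_inv, e, hinv], h1⟩⟩
    · exact ⟨1, fun h' => absurd h' h⟩
  choose w hw using hv
  let Gs : Set A := {g | g ∈ K ∧ g ∉ XX φ}
  let G : Finset A := (hK.subset (fun g hg => hg.1 : Gs ⊆ K)).toFinset
  have hG : ∀ g, g ∈ G ↔ g ∈ Gs := fun g => Set.Finite.mem_toFinset _
  let Xf : Finset A := hXf.toFinset
  have hXf' : ∀ g, g ∈ Xf ↔ g ∈ XX φ := fun g => Set.Finite.mem_toFinset _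
  have hXc : Xf.card ≤ x := by
    rw [← Set.ncard_eq_toFinset_card _ hXf]; exact hXx
  have hfT : ∀ y : Fˣ, (TK φ K y).Finite := fun y => hK.subset Set.inter_subset_right
  let E1 : A → Finset A := fun g => (hfT (w g ^ 2)).toFinset
  have hE1 : ∀ g ∈ G, (E1 g).card ≤ 2 * x := by
    intro g hg
    have h1 := hsmall _ (hw g ((hG g).1 hg).1 ((hG g).1 hg).2).1
    have h2 : (E1 g).card = (TK φ K (w g ^ 2)).ncard := (Set.ncard_eq_toFinset_card _ _).symm
    omega
  have hz : ∀ g h : A, h ∈ Subgroup.zpowers g → h = 1 ∨ h = g := by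
    intro g h hh
    obtain ⟨k, rfl⟩ := Subgroup.mem_zpowers_iff.1 hh
    rcases Int.even_or_odd' k with ⟨m, rfl | rfl⟩
    · left
      rw [zpow_mul]
      have : g ^ (2 : ℤ) = 1 := by exact_mod_cast hexp g
      rw [this, one_zpow]
    · right
      rw [zpow_add, zpow_mul]
      have : g ^ (2 : ℤ) = 1 := by exact_mod_cast hexp g
      rw [this, one_zpow, one_mul, zpow_one]
  have hGc : G.card ≤ x + 2 * (2 * x) := by
    refine pairs G Xf E1 hXc hE1 ?_
    intro g hg h hh
    obtain ⟨hgK, hgX⟩ := (hG g).1 hg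
    obtain ⟨hhK, hhX⟩ := (hG h).1 hh
    obtain ⟨hg1, hg2, hgs⟩ := hw g hgK hgX
    obtain ⟨hh1, hh2, hhs⟩ := hw h hhK hhX
    by_cases h3 : g / h ∈ XX φ
    · exact Or.inl ((hXf' _).2 h3)
    right
    have h4 : φ (w g * (w h)⁻¹) ∉ XX φ := by
      rw [map_mul, map_inv, hg2, hh2, ← div_eq_mul_inv]; exact h3
    rcases sm_or hn h4 with h5 | h5
    · left
      have h6 := pair_dd (K := K) hp hexp hn (v := w g) (w := w h) (by rwa [hg2])
        (by rwa [hh2]) (by rwa [hh2]) hhs h4 h5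
      rw [hh2, hg2] at h6
      rcases h6 with h6 | ⟨h6, h7⟩
      · exact (Set.Finite.mem_toFinset _).2 h6
      · exfalso
        rcases hz g h h6 with h8 | h8
        · exact hhX (Or.inl h8)
        · exact h7 h8
    · right
      have e : (w g * (w h)⁻¹)⁻¹ = w h * (w g)⁻¹ := by rw [mul_inv, inv_inv, mul_comm]
      rw [e] at h5
      have h4' : φ (w h * (w g)⁻¹) ∉ XX φ := by
        rw [← e, map_inv, xx_inv hn]; exact h4
      have h6 := pair_dd (K := K) hp hexp hn (v := w h) (w := w g) (by rwa [hh2])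
        (by rwa [hg2]) (by rwa [hg2]) hgs h4' h5
      rw [hh2, hg2] at h6
      rcases h6 with h6 | ⟨h6, h7⟩
      · exact (Set.Finite.mem_toFinset _).2 h6
      · exfalso
        rcases hz h g h6 with h8 | h8
        · exact hgX (Or.inl h8)
        · exact h7 h8
  have hcov : (K : Set A) ⊆ ((Xf ∪ G : Finset A) : Set A) := by
    intro g hgK
    rw [Finset.mem_coe, Finset.mem_union]
    by_cases hg : g ∈ XX φ
    · exact Or.inl ((hXf' g).2 hg)
    · exact Or.inr ((hG g).2 ⟨hgK, hg⟩)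
  have h3 := Set.ncard_le_ncard hcov (Finset.finite_toSet _)
  rw [Set.ncard_coe_finset] at h3
  have h4 := Finset.card_union_le Xf G
  have h7 : (K : Set A).ncard = Nat.card K := rfl
  omega

/-- a group of exponent `p` -/
lemma card_pow (hp : p.Prime) (hexp : ∀ a : A, a ^ p = 1) (K : Subgroup A) [Finite K] :
    ∃ i : ℕ, Nat.card K = p ^ i := by
  have : Fact p.Prime := ⟨hp⟩
  have h : IsPGroup p K := fun g => ⟨1, by
    rw [pow_one]
    exact Subtype.ext (hexp g)⟩
  exact IsPGroup.iff_card.1 h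

/-- all odd primes: the bound `max (p, 9) x` -/
theorem majority_odd (hp : p.Prime) (hp2 : p ≠ 2) (hexp : ∀ a : A, a ^ p = 1)
    (hn : φ (-1) = 1) {x : ℕ} (hfin : (NR φ).Finite) (hx : (NR φ).ncard + 1 ≤ x) :
    Finite (Subgroup.closure (NR φ)) ∧ Nat.card (Subgroup.closure (NR φ)) ≤ max p 9 * x := by
  obtain ⟨h1, h2⟩ := majority hp hp2 hexp hn hfin hx
  refine ⟨h1, ?_⟩
  obtain ⟨i, hi⟩ := card_pow hp hexp (Subgroup.closure (NR φ))
  rw [hi] at h2 ⊢
  have hx1 : 1 ≤ x := by omega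
  have hmx : p * x ≤ max p 9 * x := Nat.mul_le_mul_right _ (le_max_left _ _)
  have hmx' : 9 * x ≤ max p 9 * x := Nat.mul_le_mul_right _ (le_max_right _ _)
  rcases le_max_iff.1 h2 with h3 | h3
  · exact h3.trans hmx
  have hp3 : 3 ≤ p := by
    have := hp.two_le
    omega
  match i, h3 with
  | 0, _ => rw [pow_zero]; exact le_trans (by omega) hmx'
  | 1, _ => rw [pow_one]; exact le_trans (by nlinarith) hmx
  | i + 2, h3 =>
    have h4 : p * p ≤ 7 * x + 2 * p - 6 := by
      refine le_trans ?_ h3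
      rw [pow_add, pow_two]
      exact Nat.le_mul_of_pos_left _ (pow_pos hp.pos _)
    have h5 : p * p + 6 ≤ 7 * x + 2 * p := by omega
    have h6 : 2 * p ≤ 2 * x + 6 := by
      by_contra hc
      push Not at hc
      have : p * p + 6 ≤ 7 * (p - 4) + 2 * p := by omega
      have h7 : 4 ≤ p := by omega
      obtain ⟨q, rfl⟩ := Nat.exists_eq_add_of_le h7
      have h8 : 4 + q - 4 = q := by omega
      rw [h8] at this
      nlinarith [mul_self_nonneg (q : ℤ)]
    refine le_trans h3 (le_trans ?_ hmx')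
    omega

end

end Pool.Agent.V7H42.ET
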