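import Mathlib
import Pool.Agent.V7H42.ET.MajTwo

set_option autoImplicit false

/-! The order of the subgroup generated by the classes that are not rigid: sharper constants. -/

namespace Pool.Agent.V7H42.ET

open Pool.Agent.Y920.EP

section

variable {F : Type} [Field F] {A : Type} [CommGroup A] {φ : Fˣ →* A} {p : ℕ} {K : Subgroup A}

lemma tk_div (hn : φ (-1) = 1) {y : Fˣ} (hy : φ y = 1) {b c : A} (hb : b ∈ TK φ K y)
    (hc : c ∈ TK φ K y) : b / c ∈ TK φ K y ∨ b / c ∈ XX φ := by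
  by_cases h : b / c ∈ XX φ
  · exact Or.inr h
  · exact Or.inl ⟨tt_div hn hb.1 hc.1 (by rw [hy, sat_one]; exact h), div_mem hb.2 hc.2⟩

lemma tk_notMem {y : Fˣ} (hy : φ y = 1) {b : A} (hb : b ∈ TK φ K y) : b ∉ XX φ := by
  have h := hb.1.1
  rwa [hy, sat_one] at h

lemma tk_inv (hn : φ (-1) = 1) {y : Fˣ} {b : A} (hb : b ∈ TK φ K y) : b⁻¹ ∈ TK φ K y :=
  ⟨tt_inv hn hb.1, inv_mem hb.2⟩

/-- few classes between the powers of `y ^ p`, for all classes of `K` -/
lemma small_reps' (hp : p.Prime) (hexp : ∀ a : A, a ^ p = 1) (hn : φ (-1) = 1) {x : ℕ}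
    (hK : (K : Set A).Finite) (hX : (XX φ).Finite) (hx : (XX φ).ncard ≤ x)
    (hcl : Subgroup.closure (NR φ) = K) (h1 : p * x < Nat.card K) (h2 : 4 * x < Nat.card K) :
    ∃ W : Subgroup Fˣ, (∀ w ∈ W, φ w ∈ K) ∧ (∀ a ∈ K, ∃ w ∈ W, φ w = a) ∧
      ∀ y ∈ W, (TK φ K (y ^ p)).ncard ≤ 2 * x := by
  classical
  have hXK : XX φ ⊆ K := by
    rintro a (rfl | ha)
    · exact one_mem K
    · rw [← hcl]; exact Subgroup.subset_closure ha
  have hcard : Nat.card K = (K : Set A).ncard := rfl
  have hy1 : ∀ y : Fˣ, φ (y ^ p) = 1 := fun y => by rw [map_pow, hexp]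
  let W : Subgroup Fˣ := Subgroup.closure {r : Fˣ | φ r ∈ NR φ ∧ Rs φ r}
  have hWK : ∀ w ∈ W, φ w ∈ K := by
    intro w hw
    have h3 : W ≤ K.comap φ := by
      rw [Subgroup.closure_le]
      intro r hr
      rw [SetLike.mem_coe, Subgroup.mem_comap, ← hcl]
      exact Subgroup.subset_closure hr.1
    exact h3 hw
  have hfT : ∀ y : Fˣ, (TK φ K y).Finite := fun y => hK.subset Set.inter_subset_right
  -- generators
  have hgen : ∀ r : Fˣ, Rs φ r → φ r ∈ K → (TK φ K (r ^ p)).ncard ≤ 2 * x := by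
    intro r hr hrK
    by_contra hc
    have h3 := bigM hn hK hX hcl (hy1 r) (by omega)
    have h4 : (K : Set A) ⊆ Sat (XX φ) (φ r) := by
      refine h3.trans (Set.union_subset ?_ (sub_sat _ _))
      rintro b ⟨hb, -⟩
      have h5 := tt_sub (φ := φ) (r ^ p) hb
      rw [hy1, sat_one] at h5
      exact rs_pow hn hr p h5
    have h6 : (K : Set A) ⊆ (fun x : A × A => x.1 * x.2) ''
        (XX φ ×ˢ (Subgroup.zpowers (φ r) : Set A)) := by
      intro b hb
      obtain ⟨k, hk⟩ := h4 hb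
      refine ⟨(b * φ r ^ k, φ r ^ (-k)), ⟨hk, Subgroup.mem_zpowers_iff.2 ⟨-k, rfl⟩⟩, ?_⟩
      show b * φ r ^ k * φ r ^ (-k) = b
      rw [zpow_neg, mul_inv_cancel_right]
    have hzf : ((Subgroup.zpowers (φ r) : Subgroup A) : Set A).Finite := by
      refine hK.subset ?_
      rw [SetLike.coe_subset_coe, Subgroup.zpowers_le]
      exact hrK
    have h7 := (Set.ncard_le_ncard h6 ((hX.prod hzf).image _)).trans
      (Set.ncard_image_le (hX.prod hzf))
    rw [Set.ncard_prod, mul_comm] at h7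
    have h8 : ((Subgroup.zpowers (φ r) : Subgroup A) : Set A).ncard ≤ p :=
      zpowers_card hp hexp _
    have h9 := Nat.mul_le_mul h8 hx
    omega
  have hmul : ∀ y r : Fˣ, (TK φ K (r ^ p)).ncard ≤ 2 * x →
      (TK φ K (y ^ p)).ncard ≤ 2 * x → (TK φ K ((y * r) ^ p)).ncard ≤ 2 * x := by
    intro y r hr hy
    by_contra hc
    have h3 := bigM hn hK hX hcl (hy1 (y * r)) (by omega)
    have h4 : (K : Set A) ⊆ TK φ K (y ^ p) ∪ TK φ K (r ^ p) ∪ XX φ := by
      intro b hbK
      rcases h3 hbK with ⟨hb, -⟩ | hb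
      · have h5 := tt_sub (φ := φ) _ hb
        rw [hy1, sat_one, mul_pow] at h5
        have h6 : b ∈ DD φ (y ^ p) ∨ b ∈ DD φ (r ^ p) := by
          rcases dd_mul _ _ h5 with h6 | ⟨c, hc, e⟩
          · exact Or.inl h6
          · refine Or.inr ?_
            rw [← e]
            show φ (y ^ p) * c ∈ _
            rw [hy1, one_mul]
            exact hc
        rcases h6 with h6 | h6
        · have h7 := dd_sub hn _ h6
          rw [hy1, sat_one] at h7
          rcases h7 with h7 | h7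
          · exact Or.inl (Or.inl ⟨h7, hbK⟩)
          · exact Or.inr h7
        · have h7 := dd_sub hn _ h6
          rw [hy1, sat_one] at h7
          rcases h7 with h7 | h7
          · exact Or.inl (Or.inr ⟨h7, hbK⟩)
          · exact Or.inr h7
      · exact Or.inr hb
    by_cases hne : ∃ b, b ∈ TK φ K (r ^ p) ∧ b ∉ TK φ K (y ^ p)
    · obtain ⟨b, hb1, hb2⟩ := hne
      have hsub : ∀ a ∈ TK φ K (y ^ p) \ TK φ K (r ^ p), a * b ∈ XX φ := by
        rintro a ⟨ha1, ha2⟩
        rcases h4 (mul_mem ha1.2 hb1.2) with (h5 | h5) | h5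
        · exfalso
          have h6 := tk_div hn (hy1 y) h5 ha1
          rw [mul_div_cancel_left] at h6
          rcases h6 with h6 | h6
          · exact hb2 h6
          · exact tk_notMem (hy1 r) hb1 h6
        · exfalso
          have h6 := tk_div hn (hy1 r) h5 hb1
          rw [mul_div_cancel_right] at h6
          rcases h6 with h6 | h6
          · exact ha2 h6
          · exact tk_notMem (hy1 y) ha1 h6
        · exact h5
      have h5 : (TK φ K (y ^ p) \ TK φ K (r ^ p)).ncard ≤ (XX φ).ncard :=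
        Set.ncard_le_ncard_of_injOn (fun a => a * b) hsub
          (fun a _ a' _ e => by simpa using e) hX
      have h6 : (K : Set A) ⊆ (TK φ K (y ^ p) \ TK φ K (r ^ p)) ∪ TK φ K (r ^ p) ∪ XX φ := by
        intro a ha
        rcases h4 ha with (h7 | h7) | h7
        · by_cases h8 : a ∈ TK φ K (r ^ p)
          · exact Or.inl (Or.inr h8)
          · exact Or.inl (Or.inl ⟨h7, h8⟩)
        · exact Or.inl (Or.inr h7)
        · exact Or.inr h7
      have h7 := Set.ncard_le_ncard h6 ((((hfT _).subset Set.sdiff_subset).union (hfT _)).union hX)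
      have h8 := Set.ncard_union_le ((TK φ K (y ^ p) \ TK φ K (r ^ p)) ∪ TK φ K (r ^ p)) (XX φ)
      have h9 := Set.ncard_union_le (TK φ K (y ^ p) \ TK φ K (r ^ p)) (TK φ K (r ^ p))
      omega
    · push Not at hne
      have h6 : (K : Set A) ⊆ TK φ K (y ^ p) ∪ XX φ := by
        intro a ha
        rcases h4 ha with (h7 | h7) | h7
        · exact Or.inl h7
        · exact Or.inl (hne a h7)
        · exact Or.inr h7
      have h7 := Set.ncard_le_ncard h6 ((hfT _).union hX)
      have h8 := Set.ncard_union_le (TK φ K (y ^ p)) (XX φ)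
      omega
  have hTi : ∀ y : Fˣ, TK φ K y⁻¹ = TK φ K y := by
    have key : ∀ y : Fˣ, TK φ K y⁻¹ ⊆ TK φ K y := by
      rintro y b ⟨⟨hb0, u, rfl, i, j, h3, h4⟩, hbK⟩
      refine ⟨⟨fun h => hb0 ?_, u, rfl, -i, -j, ?_, ?_⟩, hbK⟩
      · obtain ⟨k, hk⟩ := h
        exact ⟨-k, by rwa [map_inv, inv_zpow, zpow_neg, inv_inv]⟩
      · rwa [inv_zpow, ← zpow_neg] at h3
      · rwa [inv_zpow, ← zpow_neg] at h4
    intro y
    refine Set.Subset.antisymm (key y) ?_
    have h3 := key y⁻¹
    rwa [inv_inv] at h3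
  refine ⟨W, hWK, ?_, ?_⟩
  · intro a ha
    have h3 : K ≤ W.map φ := by
      rw [← hcl, Subgroup.closure_le]
      intro b hb
      obtain ⟨r, hr1, hr2⟩ := rs_of hb
      exact ⟨r, Subgroup.subset_closure ⟨by rw [hr1]; exact hb, hr2⟩, hr1⟩
    obtain ⟨w, hw, e⟩ := h3 ha
    exact ⟨w, hw, e⟩
  · intro y hy
    induction hy using Subgroup.closure_induction_right with
    | one =>
      have := tk_card hK (φ := φ) (y := 1 ^ p) (hy1 1)
      rw [one_pow, DK, dd_one, Set.empty_inter, Set.ncard_empty] at this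
      rw [one_pow]
      omega
    | mul_right y hyW r hr ih =>
      exact hmul y r (hgen r hr.2 (by rw [← hcl]; exact Subgroup.subset_closure hr.1)) ih
    | mul_inv_cancel y hyW r hr ih =>
      refine hmul y r⁻¹ ?_ ih
      rw [inv_pow, hTi]
      exact hgen r hr.2 (by rw [← hcl]; exact Subgroup.subset_closure hr.1)

/-- an element of a class that has no elements between powers of `y` -/
lemma inf_small (hn : φ (-1) = 1) {y w : Fˣ} (hy : φ y = 1) (hX : φ w ∉ XX φ)
    (hT : φ w ∉ TT φ y) (h : Sm φ w) (k : ℤ) : Sm φ (w * y ^ k) := by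
  by_contra h1
  have hX' : φ (w * y ^ k) ∉ XX φ := by
    rw [map_mul, map_zpow, hy, one_zpow, mul_one]; exact hX
  have h2 := (sm_inv_iff hn hX').2 h1
  apply hT
  refine ⟨by rw [hy, sat_one]; exact hX, w, rfl, -k, 0, ?_, by rwa [zpow_zero, mul_one]⟩
  rwa [mul_inv, mul_comm, ← zpow_neg] at h2

/-- powers of a small element -/
lemma sm_pow (hn : φ (-1) = 1) {w : Fˣ} (hX : ∀ k : ℕ, 1 ≤ k → k < p → φ w ^ k ∉ XX φ)
    (hp : 1 < p) (h : Sm φ w) : ∀ k : ℕ, 1 ≤ k → k < p → Sm φ (w ^ k) := by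
  intro k hk
  induction k, hk using Nat.le_induction with
  | base => intro _; rwa [pow_one]
  | succ k hk ih =>
    intro hkp
    rw [pow_succ]
    refine sm_mul hn (by rw [map_pow]; exact hX k hk (by omega)) ?_ ?_ (ih (by omega)) h
    · have := hX 1 le_rfl hp
      rwa [pow_one] at this
    · rw [← pow_succ, map_pow]
      exact hX (k + 1) (by omega) hkp

/-- a bound for the largest number of classes between powers -/
lemma c_bound (hp : p.Prime) (hexp : ∀ a : A, a ^ p = 1) (hn : φ (-1) = 1)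
    (hK : (K : Set A).Finite) (hXf : (XX φ).Finite) {x : ℕ} (hx : (XX φ).ncard ≤ x)
    {z w : Fˣ} (hwK : φ w ∈ K) (hX : ∀ k : ℕ, 1 ≤ k → k < p → φ w ^ k ∉ XX φ) (hws : Sm φ w)
    (hC : φ w ∉ TK φ K (z ^ p))
    (hmax : (TK φ K (w ^ p)).ncard ≤ (TK φ K (z ^ p)).ncard) :
    (p - 1) * (p - 1) * (TK φ K (z ^ p)).ncard ≤ p * (x - 1) := by
  classical
  have hp1 : 1 < p := hp.one_lt
  have hy1 : ∀ y : Fˣ, φ (y ^ p) = 1 := fun y => by rw [map_pow, hexp]
  obtain ⟨g, hg⟩ : ∃ g : A, φ w = g := ⟨_, rfl⟩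
  have hgX : g ∉ XX φ := by
    have := hX 1 le_rfl hp1
    rwa [pow_one, hg] at this
  have hCT : φ w ∉ TT φ (z ^ p) := fun h => hC ⟨h, hwK⟩
  have hinf := fun k : ℤ => inf_small hn (hy1 z) (by rw [hg]; exact hgX) hCT hws k
  have hpw := sm_pow hn hX hp1 hws
  rw [hg] at hX hwK hC
  have hXi : ∀ a : A, a ∉ XX φ → a⁻¹ ∉ XX φ := fun a ha h => ha ((xx_inv hn).1 h)
  -- powers of `g` in the set of `w`
  have hgD : ∀ k : ℕ, 1 ≤ k → k < p → g ^ k ∈ TK φ K (w ^ p) := by
    intro k hk hkp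
    refine ⟨⟨by rw [hy1, sat_one]; exact hX k hk hkp, w ^ k, by rw [map_pow, hg], 1, 0, ?_, ?_⟩,
      pow_mem hwK k⟩
    · have e : (w ^ p) ^ (1 : ℤ) * (w ^ k)⁻¹ = w ^ (p - k) := by
        rw [zpow_one, mul_inv_eq_iff_eq_mul, ← pow_add, Nat.sub_add_cancel hkp.le]
      rw [e]
      exact hpw (p - k) (by omega) (by omega)
    · rw [zpow_zero, mul_one]
      exact hpw k hk hkp
  -- elements of the set of `z` that are not in the set of `w`
  have hlost : ∀ b ∈ TK φ K (z ^ p), b ∉ TK φ K (w ^ p) → ∀ k : ℕ, 1 ≤ k → k < p →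
      g ^ k * b ∈ XX φ := by
    intro b hb hbw k hk hkp
    by_contra hc
    obtain ⟨⟨hb0, u, hu, i, j, h1, h2⟩, hbK⟩ := id hb
    have hbX : b ∉ XX φ := tk_notMem (hy1 z) hb
    apply hbw
    -- one side
    have side : ∀ (u : Fˣ) (b : A) (j : ℤ) (k : ℕ), 1 ≤ k → k < p → φ u = b → b ∉ XX φ →
        g ^ k * b ∉ XX φ → Sm φ (u * (z ^ p) ^ j) → Sm φ (u * w ^ p) := by
      intro u b j k hk hkp hu hbX hkb h2
      have e1 : φ (w ^ k * (z ^ p) ^ (-j)) = g ^ k := by
        rw [map_mul, map_pow, map_zpow, hy1, one_zpow, mul_one, hg]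
      have e2 : φ (u * (z ^ p) ^ j) = b := by
        rw [map_mul, map_zpow, hy1, one_zpow, mul_one, hu]
      have s1 : Sm φ (w ^ k * (z ^ p) ^ (-j)) := by
        rcases Nat.eq_or_lt_of_le hk with h3 | h3
        · rw [← h3, pow_one]
          exact hinf (-j)
        · have e : w ^ k * (z ^ p) ^ (-j) = w ^ (k - 1) * (w * (z ^ p) ^ (-j)) := by
            rw [← mul_assoc, ← pow_succ, Nat.sub_add_cancel hk]
          rw [e]
          refine sm_mul hn ?_ ?_ ?_ (hpw (k - 1) (by omega) (by omega)) (hinf (-j))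
          · rw [map_pow, hg]; exact hX (k - 1) (by omega) (by omega)
          · rw [map_mul, map_zpow, hy1, one_zpow, mul_one, hg]; exact hgX
          · rw [← e, e1]; exact hX k hk hkp
      have e3 : (w ^ k * (z ^ p) ^ (-j)) * (u * (z ^ p) ^ j) = w ^ k * u := by
        rw [zpow_neg]
        rw [mul_mul_mul_comm, mul_assoc, mul_comm ((z ^ p) ^ j)⁻¹, mul_inv_cancel, mul_one]
      have s2 : Sm φ (w ^ k * u) := by
        rw [← e3]
        refine sm_mul hn ?_ ?_ ?_ s1 h2
        · rw [e1]; exact hX k hk hkp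
        · rw [e2]; exact hbX
        · rw [e3, map_mul, map_pow, hg, hu]; exact hkb
      have e4 : w ^ (p - k) * (w ^ k * u) = u * w ^ p := by
        rw [← mul_assoc, ← pow_add, Nat.sub_add_cancel hkp.le, mul_comm]
      rw [← e4]
      refine sm_mul hn ?_ ?_ ?_ (hpw (p - k) (by omega) (by omega)) s2
      · rw [map_pow, hg]; exact hX (p - k) (by omega) (by omega)
      · rw [map_mul, map_pow, hg, hu]; exact hkb
      · rw [e4, map_mul, hy1, mul_one, hu]; exact hbX
    refine ⟨⟨by rw [hy1, sat_one]; exact hbX, u, hu, 1, 1, ?_, ?_⟩, hbK⟩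
    · rw [zpow_one, mul_comm]
      refine side u⁻¹ b⁻¹ i (p - k) (by omega) (by omega) (by rw [map_inv, hu]) (hXi b hbX) ?_
        (by rwa [mul_comm] at h1)
      intro h3
      apply hc
      rw [← xx_inv hn]
      have e : (g ^ k * b)⁻¹ = g ^ (p - k) * b⁻¹ := by
        rw [mul_inv]
        congr 1
        rw [inv_eq_iff_mul_eq_one, ← pow_add]
        have : k + (p - k) = p := by omega
        rw [this, hexp]
      rw [e]
      exact h3
    · rw [zpow_one]
      exact side u b j k hk hkp hu hbX hc h2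
  -- powers of `g` are not in the set of `z`
  have hpowX : ∀ n : ℕ, g ^ n ∈ XX φ → g ^ n = 1 := by
    intro n hn'
    have e : g ^ n = g ^ (n % p) := by
      conv_lhs => rw [← Nat.mod_add_div n p]
      rw [pow_add, pow_mul, hexp, one_pow, mul_one]
    rw [e] at hn' ⊢
    rcases Nat.eq_zero_or_pos (n % p) with h | h
    · rw [h, pow_zero]
    · exact absurd hn' (hX _ h (Nat.mod_lt _ hp.pos))
  have hgC : ∀ k : ℕ, 1 ≤ k → k < p → g ^ k ∉ TK φ K (z ^ p) := by
    intro k hk hkp hc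
    have hall : ∀ m : ℕ, (g ^ k) ^ m ∈ TK φ K (z ^ p) ∨ (g ^ k) ^ m = 1 := by
      intro m
      induction m with
      | zero => right; rw [pow_zero]
      | succ m ih =>
        rcases ih with h | h
        · have h3 := tk_div hn (hy1 z) h (tk_inv hn hc)
          have e : (g ^ k) ^ m / (g ^ k)⁻¹ = (g ^ k) ^ (m + 1) := by
            rw [div_inv_eq_mul, pow_succ]
          rw [e] at h3
          rcases h3 with h3 | h3
          · exact Or.inl h3
          · right
            rw [← pow_mul] at h3 ⊢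
            exact hpowX _ h3
        · left
          rw [pow_succ, h, one_mul]
          exact hc
    have hcop : Nat.Coprime k p := (Nat.coprime_comm.1
      ((Nat.Prime.coprime_iff_not_dvd hp).2 (fun h => by
        have := Nat.le_of_dvd (by omega) h
        omega)))
    obtain ⟨m, hm⟩ := Nat.exists_mul_mod_eq_one_of_coprime hcop hp1
    have e : (g ^ k) ^ m = g := by
      rw [← pow_mul]
      conv_lhs => rw [← Nat.mod_add_div (k * m) p]
      rw [hm.2, pow_add, pow_mul, hexp, one_pow, mul_one, pow_one]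
    have h3 := hall m
    rw [e] at h3
    rcases h3 with h3 | h3
    · exact hC h3
    · exact hgX (Or.inl h3)
  -- the sets
  have hCf : (TK φ K (z ^ p)).Finite := hK.subset Set.inter_subset_right
  have hDf : (TK φ K (w ^ p)).Finite := hK.subset Set.inter_subset_right
  obtain ⟨Cf, hCm⟩ : ∃ Cf : Finset A, ∀ b, b ∈ Cf ↔ b ∈ TK φ K (z ^ p) :=
    ⟨hCf.toFinset, fun b => Set.Finite.mem_toFinset _⟩
  obtain ⟨Df, hDm⟩ : ∃ Df : Finset A, ∀ b, b ∈ Df ↔ b ∈ TK φ K (w ^ p) :=
    ⟨hDf.toFinset, fun b => Set.Finite.mem_toFinset _⟩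
  obtain ⟨Xf, hXm⟩ : ∃ Xf : Finset A, ∀ b, b ∈ Xf ↔ b ∈ XX φ :=
    ⟨hXf.toFinset, fun b => Set.Finite.mem_toFinset _⟩
  have hCc : Cf.card = (TK φ K (z ^ p)).ncard := by
    rw [← Set.ncard_coe_finset]
    congr 1
    ext b
    exact hCm b
  have hDc : Df.card = (TK φ K (w ^ p)).ncard := by
    rw [← Set.ncard_coe_finset]
    congr 1
    ext b
    exact hDm b
  have hXc : Xf.card = (XX φ).ncard := by
    rw [← Set.ncard_coe_finset]
    congr 1
    ext b
    exact hXm b
  have h1X : (1 : A) ∈ Xf := (hXm 1).2 (Or.inl rfl)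
  have hdis : ∀ k l : ℕ, k < l → l < p → ∀ b ∈ Cf, ∀ c ∈ Cf, g ^ k * b ≠ g ^ l * c := by
    intro k l hkl hl b hb c hc e
    have e2 : g ^ (l - k) = b / c := by
      rw [eq_div_iff_mul_eq']
      have : g ^ l = g ^ k * g ^ (l - k) := by
        rw [← pow_add]; congr 1; omega
      rw [this, mul_assoc] at e
      exact (mul_left_cancel e).symm
    have h3 := tk_div hn (hy1 z) ((hCm b).1 hb) ((hCm c).1 hc)
    rw [← e2] at h3
    rcases h3 with h3 | h3
    · exact hgC (l - k) (by omega) (by omega) h3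
    · exact hX (l - k) (by omega) (by omega) h3
  have hone : ∀ k : ℕ, 1 ≤ k → k < p → ∀ b ∈ Cf, g ^ k * b ≠ 1 := by
    intro k hk hkp b hb e
    have e2 : g ^ k = b⁻¹ := eq_inv_of_mul_eq_one_left e
    apply hgC k hk hkp
    rw [e2]
    exact tk_inv hn ((hCm b).1 hb)
  have hcosets : ∀ S : Finset A, S ⊆ Cf →
      (((Finset.range (p - 1)).biUnion fun k => S.image fun b => g ^ (k + 1) * b)).card =
        (p - 1) * S.card := by
    intro S hS
    rw [Finset.card_biUnion]
    · have h3 : ∀ k ∈ Finset.range (p - 1), (S.image fun b => g ^ (k + 1) * b).card = S.card :=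
        fun k _ => Finset.card_image_of_injective S (fun b c e => mul_left_cancel e)
      rw [Finset.sum_congr rfl h3, Finset.sum_const, Finset.card_range, smul_eq_mul]
    · intro k hk l hl hkl
      rw [Finset.mem_coe, Finset.mem_range] at hk hl
      rw [Function.onFun, Finset.disjoint_left]
      intro a ha hb
      obtain ⟨b, hb1, e1⟩ := Finset.mem_image.1 ha
      obtain ⟨c, hc1, e2⟩ := Finset.mem_image.1 hb
      rcases lt_or_gt_of_ne hkl with h | h
      · exact hdis (k + 1) (l + 1) (by omega) (by omega) b (hS hb1) c (hS hc1)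
          (e1.trans e2.symm)
      · exact hdis (l + 1) (k + 1) (by omega) (by omega) c (hS hc1) b (hS hb1)
          (e2.trans e1.symm)
  -- first count
  have hA : (Cf ∩ Df).card + (p - 1) * Cf.card ≤ Df.card + (Xf.card - 1) := by
    rw [← hcosets Cf (Finset.Subset.refl _)]
    rw [← Finset.card_union_of_disjoint]
    · have h3 : (Cf ∩ Df) ∪ ((Finset.range (p - 1)).biUnion fun k =>
          Cf.image fun b => g ^ (k + 1) * b) ⊆ Df ∪ Xf.erase 1 := by
        intro a ha
        rw [Finset.mem_union] at ha ⊢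
        rcases ha with ha | ha
        · exact Or.inl (Finset.mem_inter.1 ha).2
        · obtain ⟨k, hk, hk1⟩ := Finset.mem_biUnion.1 ha
          rw [Finset.mem_range] at hk
          obtain ⟨b, hb, rfl⟩ := Finset.mem_image.1 hk1
          by_cases h4 : g ^ (k + 1) * b ∈ XX φ
          · exact Or.inr (Finset.mem_erase.2 ⟨hone (k + 1) (by omega) (by omega) b hb,
              (hXm _).2 h4⟩)
          · left
            by_cases h5 : b ∈ TK φ K (w ^ p)
            · have h6 := tk_div hn (hy1 w) (hgD (k + 1) (by omega) (by omega)) (tk_inv hn h5)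
              rw [div_inv_eq_mul] at h6
              exact (hDm _).2 (h6.resolve_right h4)
            · exact absurd (hlost b ((hCm b).1 hb) h5 (k + 1) (by omega) (by omega)) h4
      refine (Finset.card_le_card h3).trans ((Finset.card_union_le _ _).trans ?_)
      rw [Finset.card_erase_of_mem h1X]
    · rw [Finset.disjoint_left]
      intro a ha hb
      obtain ⟨k, hk, hk1⟩ := Finset.mem_biUnion.1 hb
      rw [Finset.mem_range] at hk
      obtain ⟨b, hb1, e1⟩ := Finset.mem_image.1 hk1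
      refine hdis 0 (k + 1) (by omega) (by omega) a (Finset.mem_inter.1 ha).1 b hb1 ?_
      rw [pow_zero, one_mul]
      exact e1.symm
  -- second count
  have hB : (p - 1) * (Cf \ Df).card ≤ Xf.card - 1 := by
    rw [← hcosets (Cf \ Df) Finset.sdiff_subset, ← Finset.card_erase_of_mem h1X]
    apply Finset.card_le_card
    intro a ha
    obtain ⟨k, hk, hk1⟩ := Finset.mem_biUnion.1 ha
    rw [Finset.mem_range] at hk
    obtain ⟨b, hb, rfl⟩ := Finset.mem_image.1 hk1
    rw [Finset.mem_sdiff] at hb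
    refine Finset.mem_erase.2 ⟨hone (k + 1) (by omega) (by omega) b hb.1, (hXm _).2 ?_⟩
    exact hlost b ((hCm b).1 hb.1) (fun h => hb.2 ((hDm b).2 h)) (k + 1) (by omega) (by omega)
  have hsplit := Finset.card_inter_add_card_sdiff Cf Df
  rw [← hCc]
  rw [← hCc, ← hDc] at hmax
  rw [← hXc] at hx
  obtain ⟨q, hq⟩ : ∃ q : ℕ, p = q + 1 := ⟨p - 1, by omega⟩
  have hq' : p - 1 = q := by omega
  rw [hq'] at hA hB ⊢
  have h5 : q * Cf.card ≤ (Xf.card - 1) + (Cf \ Df).card := by omega
  have h6 : q * (q * Cf.card) ≤ q * ((Xf.card - 1) + (Cf \ Df).card) := Nat.mul_le_mul_left q h5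
  have h7 : Xf.card - 1 ≤ x - 1 := by omega
  calc q * q * Cf.card = q * (q * Cf.card) := by ring
    _ ≤ q * ((Xf.card - 1) + (Cf \ Df).card) := h6
    _ = q * (Xf.card - 1) + q * (Cf \ Df).card := by ring
    _ ≤ q * (x - 1) + (x - 1) := Nat.add_le_add (Nat.mul_le_mul_left q h7) (hB.trans h7)
    _ = p * (x - 1) := by rw [hq]; ring

/-- the count of the pairs -/
lemma count_odd (hp : p.Prime) (hp2 : p ≠ 2) (hexp : ∀ a : A, a ^ p = 1) (hn : φ (-1) = 1)
    {x c : ℕ} (hK : (K : Set A).Finite) (hXf : (XX φ).Finite) (hXx : (XX φ).ncard ≤ x)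
    (W : Subgroup Fˣ) (hsurj : ∀ a ∈ K, ∃ w ∈ W, φ w = a)
    (hsmall : ∀ y ∈ W, (TK φ K (y ^ p)).ncard ≤ c) :
    Nat.card K + 6 ≤ 3 * x + 2 * c + 2 * p := by
  classical
  have hp3 : 3 ≤ p := by
    have := hp.two_le
    omega
  -- representatives
  have hv : ∀ g : A, ∃ v : Fˣ, g ∈ K → (v ∈ W ∧ φ v = g) := by
    intro g
    by_cases h : g ∈ K
    · obtain ⟨w, hw, e⟩ := hsurj g h
      exact ⟨w, fun _ => ⟨hw, e⟩⟩
    · exact ⟨1, fun h' => absurd h' h⟩
  choose v hv using hv
  have hne : ∀ g : A, g ≠ 1 → g ≠ g⁻¹ := by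
    intro g hg h
    apply hg
    have h1 : g ^ 2 = 1 := by
      rw [pow_two]
      nth_rewrite 2 [h]
      exact mul_inv_cancel g
    have h2 : orderOf g ∣ 2 := orderOf_dvd_of_pow_eq_one h1
    have h3 : orderOf g ∣ p := orderOf_dvd_of_pow_eq_one (hexp g)
    have h4 : Nat.Coprime 2 p := (Nat.coprime_primes Nat.prime_two hp).2 (Ne.symm hp2)
    have h5 := Nat.dvd_gcd h2 h3
    rw [h4, Nat.dvd_one, orderOf_eq_one_iff] at h5
    exact h5
  let P : Set A := {g | WellOrderingRel g g⁻¹}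
  have hP : ∀ g : A, g ≠ g⁻¹ → (g ∈ P ↔ g⁻¹ ∉ P) := by
    intro g hg
    have h1 : g⁻¹ ∈ P ↔ WellOrderingRel g⁻¹ g := by
      show WellOrderingRel g⁻¹ g⁻¹⁻¹ ↔ _
      rw [inv_inv]
    rw [h1]
    show WellOrderingRel g g⁻¹ ↔ _
    constructor
    · intro h2 h3
      exact asymm h2 h3
    · intro h2
      rcases trichotomous_of (WellOrderingRel (α := A)) g g⁻¹ with h3 | h3 | h3
      · exact h3
      · exact absurd h3 hg
      · exact absurd h3 h2
  let w : A → Fˣ := fun g => if g ∈ P then v g else (v g⁻¹)⁻¹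
  have hw : ∀ g ∈ K, w g ∈ W ∧ φ (w g) = g := by
    intro g hg
    by_cases h : g ∈ P
    · have e : w g = v g := if_pos h
      rw [e]
      exact hv g hg
    · have e : w g = (v g⁻¹)⁻¹ := if_neg h
      rw [e]
      have h1 := hv g⁻¹ (inv_mem hg)
      exact ⟨inv_mem h1.1, by rw [map_inv, h1.2, inv_inv]⟩
  have hwinv : ∀ g : A, g ≠ g⁻¹ → w g⁻¹ = (w g)⁻¹ := by
    intro g hg
    by_cases h : g ∈ P
    · have e : w g = v g := if_pos h
      have e' : w g⁻¹ = (v g⁻¹⁻¹)⁻¹ := if_neg ((hP g hg).1 h)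
      rw [e', e, inv_inv]
    · have e : w g = (v g⁻¹)⁻¹ := if_neg h
      have e' : w g⁻¹ = v g⁻¹ := if_pos (by
        by_contra h1
        exact h ((hP g hg).2 h1))
      rw [e', e, inv_inv]
  -- the positive classes
  let Gs : Set A := {g | g ∈ K ∧ g ∉ XX φ ∧ Sm φ (w g)}
  let G : Finset A := (hK.subset (fun g hg => hg.1 : Gs ⊆ K)).toFinset
  have hG : ∀ g, g ∈ G ↔ g ∈ Gs := fun g => Set.Finite.mem_toFinset _
  have hG1 : ∀ g ∈ G, g ≠ g⁻¹ := by
    intro g hg
    refine hne g (fun h => ((hG g).1 hg).2.1 (Or.inl h))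
  have hGi : ∀ g ∈ G, g⁻¹ ∉ G := by
    intro g hg hg'
    obtain ⟨hgK, hgX, hgs⟩ := (hG g).1 hg
    obtain ⟨-, -, hgs'⟩ := (hG _).1 hg'
    rw [hwinv g (hG1 g hg)] at hgs'
    refine sm_excl ?_ hgs hgs'
    rw [(hw g hgK).2]
    exact hgX
  let Xf : Finset A := hXf.toFinset
  have hXf' : ∀ g, g ∈ Xf ↔ g ∈ XX φ := fun g => Set.Finite.mem_toFinset _
  have hXc : Xf.card ≤ x := by
    rw [← Set.ncard_eq_toFinset_card _ hXf]; exact hXx
  have hfT : ∀ y : Fˣ, (TK φ K y).Finite := fun y => hK.subset Set.inter_subset_right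
  have hfz : ∀ g : A, ((Subgroup.zpowers g : Subgroup A) : Set A).Finite := by
    intro g
    apply Set.finite_of_ncard_pos
    have h0 : 0 < Nat.card (Subgroup.zpowers g) := by
      rw [Nat.card_zpowers]
      exact orderOf_pos_iff.2 (isOfFinOrder_iff_pow_eq_one.2 ⟨p, hp.pos, hexp g⟩)
    exact h0
  let E1 : A → Finset A := fun g => G.filter fun h => h ∈ TK φ K (w g ^ p)
  let E2 : A → Finset A := fun g => G.filter fun h => h ∈ Subgroup.zpowers g ∧ h ≠ g
  have hE1 : ∀ g ∈ G, 2 * (E1 g).card ≤ c := by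
    intro g hg
    have h1 : 2 * (E1 g).card ≤ (hfT (w g ^ p)).toFinset.card := by
      refine half _ _ ?_ ?_
      · intro h hh hh'
        exact hGi h (Finset.mem_filter.1 hh).1 (Finset.mem_filter.1 hh').1
      · intro h hh
        have h2 := (Finset.mem_filter.1 hh).2
        rw [Set.Finite.mem_toFinset, Set.Finite.mem_toFinset]
        exact ⟨h2, tt_inv hn h2.1, inv_mem h2.2⟩
    rw [← Set.ncard_eq_toFinset_card _ (hfT _)] at h1
    exact h1.trans (hsmall _ (hw g ((hG g).1 hg).1).1)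
  have hE2 : ∀ g ∈ G, 2 * (E2 g).card + 3 ≤ p := by
    intro g hg
    have h1 : 2 * (G.filter fun h => h ∈ Subgroup.zpowers g).card ≤
        ((hfz g).toFinset.erase 1).card := by
      refine half _ _ ?_ ?_
      · intro h hh hh'
        exact hGi h (Finset.mem_filter.1 hh).1 (Finset.mem_filter.1 hh').1
      · intro h hh
        have h2 := (Finset.mem_filter.1 hh).2
        have h3 := ((hG h).1 (Finset.mem_filter.1 hh).1).2.1
        rw [Finset.mem_erase, Finset.mem_erase, Set.Finite.mem_toFinset,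
          Set.Finite.mem_toFinset]
        exact ⟨⟨fun h4 => h3 (Or.inl h4), h2⟩, fun h4 => h3 (Or.inl (inv_eq_one.1 h4)),
          inv_mem h2⟩
    have h2 : ((hfz g).toFinset.erase 1).card + 1 = (hfz g).toFinset.card := by
      apply Finset.card_erase_add_one
      rw [Set.Finite.mem_toFinset]
      exact one_mem _
    have h3 : (hfz g).toFinset.card ≤ p := by
      rw [← Set.ncard_eq_toFinset_card _ (hfz g)]
      exact zpowers_card hp hexp g
    have h4 : (E2 g).card + 1 ≤ (G.filter fun h => h ∈ Subgroup.zpowers g).card := by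
      have h5 : insert g (E2 g) ⊆ G.filter fun h => h ∈ Subgroup.zpowers g := by
        intro h hh
        rcases Finset.mem_insert.1 hh with rfl | hh
        · exact Finset.mem_filter.2 ⟨hg, Subgroup.mem_zpowers _⟩
        · exact Finset.mem_filter.2 ⟨(Finset.mem_filter.1 hh).1, (Finset.mem_filter.1 hh).2.1⟩
      have h6 := Finset.card_le_card h5
      rwa [Finset.card_insert_of_notMem] at h6
      intro h7
      exact (Finset.mem_filter.1 h7).2.2 rfl
    omega
  have hE : ∀ g ∈ G, (E1 g ∪ E2 g).card ≤ (c + p - 3) / 2 := by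
    intro g hg
    have h1 := Finset.card_union_le (E1 g) (E2 g)
    have h2 := hE1 g hg
    have h3 := hE2 g hg
    omega
  have hGc : G.card ≤ x + 2 * ((c + p - 3) / 2) := by
    refine pairs G Xf (fun g => E1 g ∪ E2 g) hXc hE ?_
    intro g hg h hh
    obtain ⟨hgK, hgX, hgs⟩ := (hG g).1 hg
    obtain ⟨hhK, hhX, hhs⟩ := (hG h).1 hh
    obtain ⟨hg1, hg2⟩ := hw g hgK
    obtain ⟨hh1, hh2⟩ := hw h hhK
    by_cases h3 : g / h ∈ XX φ
    · exact Or.inl ((hXf' _).2 h3)
    right
    have h4 : φ (w g * (w h)⁻¹) ∉ XX φ := by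
      rw [map_mul, map_inv, hg2, hh2, ← div_eq_mul_inv]; exact h3
    rcases sm_or hn h4 with h5 | h5
    · left
      have h6 := pair_dd (K := K) hp hexp hn (v := w g) (w := w h) (by rwa [hg2])
        (by rwa [hh2]) (by rwa [hh2]) hhs h4 h5
      rw [hh2, hg2] at h6
      rw [Finset.mem_union]
      rcases h6 with h6 | h6
      · exact Or.inl (Finset.mem_filter.2 ⟨hh, h6⟩)
      · exact Or.inr (Finset.mem_filter.2 ⟨hh, h6⟩)
    · right
      have e : (w g * (w h)⁻¹)⁻¹ = w h * (w g)⁻¹ := by rw [mul_inv, inv_inv, mul_comm]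
      rw [e] at h5
      have h4' : φ (w h * (w g)⁻¹) ∉ XX φ := by
        rw [← e, map_inv, xx_inv hn]; exact h4
      have h6 := pair_dd (K := K) hp hexp hn (v := w h) (w := w g) (by rwa [hh2])
        (by rwa [hg2]) (by rwa [hg2]) hgs h4' h5
      rw [hh2, hg2] at h6
      rw [Finset.mem_union]
      rcases h6 with h6 | h6
      · exact Or.inl (Finset.mem_filter.2 ⟨hg, h6⟩)
      · exact Or.inr (Finset.mem_filter.2 ⟨hg, h6⟩)
  have hcov : (K : Set A) ⊆ ((Xf ∪ (G ∪ G.image fun g => g⁻¹) : Finset A) : Set A) := by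
    intro g hgK
    rw [Finset.mem_coe, Finset.mem_union, Finset.mem_union]
    by_cases hg : g ∈ XX φ
    · exact Or.inl ((hXf' g).2 hg)
    right
    have hg1 : g ≠ g⁻¹ := hne g (fun h => hg (Or.inl h))
    rcases sm_or hn (g := w g) (by rw [(hw g hgK).2]; exact hg) with h3 | h3
    · left
      exact (hG g).2 ⟨hgK, hg, h3⟩
    · right
      refine Finset.mem_image.2 ⟨g⁻¹, (hG _).2 ⟨inv_mem hgK, fun h => hg ((xx_inv hn).1 h), ?_⟩,
        inv_inv g⟩
      rw [hwinv g hg1]
      exact h3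
  have h3 := Set.ncard_le_ncard hcov (Finset.finite_toSet _)
  rw [Set.ncard_coe_finset] at h3
  have h4 := Finset.card_union_le Xf (G ∪ G.image fun g => g⁻¹)
  have h5 := Finset.card_union_le G (G.image fun g => g⁻¹)
  have h6 : (G.image fun g => g⁻¹).card ≤ G.card := Finset.card_image_le
  have h7 : (K : Set A).ncard = Nat.card K := rfl
  omega

/-- **The order of the subgroup generated by the classes that are not rigid.** -/
theorem majority_best (hp : p.Prime) (hp2 : p ≠ 2) (hexp : ∀ a : A, a ^ p = 1)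
    (hn : φ (-1) = 1) {x : ℕ} (hfin : (NR φ).Finite) (hx : (NR φ).ncard + 1 ≤ x) :
    2 * Nat.card (Subgroup.closure (NR φ)) ≤ max 9 (2 * p) * x := by
  classical
  have hK0 := closure_finite hp hexp hfin
  have hp3 : 3 ≤ p := by
    have := hp.two_le
    omega
  -- the trivial case
  rcases Nat.lt_or_ge x 2 with hx2 | hx2
  · have h0 : (NR φ).ncard = 0 := by omega
    rw [Set.ncard_eq_zero hfin] at h0
    rw [h0, Subgroup.closure_empty, Subgroup.card_bot]
    have h1 : 9 * x ≤ max 9 (2 * p) * x := Nat.mul_le_mul_right _ (le_max_left _ _)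
    omega
  obtain ⟨K, hcl⟩ : ∃ K : Subgroup A, Subgroup.closure (NR φ) = K := ⟨_, rfl⟩
  rw [hcl] at hK0 ⊢
  have hK : (K : Set A).Finite := Set.toFinite _
  have hXf : (XX φ).Finite := hfin.insert 1
  have hXx : (XX φ).ncard ≤ x := (Set.ncard_insert_le _ _).trans hx
  have hcard : Nat.card K = (K : Set A).ncard := rfl
  by_contra hcon
  push Not at hcon
  have hc1 : 9 * x < 2 * Nat.card K :=
    lt_of_le_of_lt (Nat.mul_le_mul_right _ (le_max_left _ _)) hcon
  have hc2 : p * x < Nat.card K := by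
    have h1 : 2 * p * x < 2 * Nat.card K :=
      lt_of_le_of_lt (Nat.mul_le_mul_right _ (le_max_right _ _)) hcon
    rw [mul_assoc] at h1
    omega
  obtain ⟨W, hWK, hsurj, hsmall⟩ := small_reps' hp hexp hn hK hXf hXx hcl hc2 (by omega)
  have hy1 : ∀ y : Fˣ, φ (y ^ p) = 1 := fun y => by rw [map_pow, hexp]
  have hfT : ∀ y : Fˣ, (TK φ K y).Finite := fun y => hK.subset Set.inter_subset_right
  -- the largest set
  obtain ⟨z, hzW, hz⟩ : ∃ z ∈ W, ∀ y ∈ W, (TK φ K (y ^ p)).ncard ≤ (TK φ K (z ^ p)).ncard := by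
    let S : Set ℕ := (fun z => (TK φ K (z ^ p)).ncard) '' (W : Set Fˣ)
    have hne : S.Nonempty := ⟨_, 1, one_mem W, rfl⟩
    have hbd : BddAbove S := ⟨2 * x, by
      rintro _ ⟨y, hy, rfl⟩
      exact hsmall y hy⟩
    obtain ⟨z, hzW, hz⟩ := Nat.sSup_mem hne hbd
    refine ⟨z, hzW, fun y hy => ?_⟩
    have h1 : (fun z => (TK φ K (z ^ p)).ncard) z = sSup S := hz
    have h2 : (TK φ K (y ^ p)).ncard ≤ sSup S := le_csSup hbd ⟨y, hy, rfl⟩
    rw [← h1] at h2
    exact h2
  -- a good class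
  obtain ⟨m, hm⟩ := hp.odd_of_ne_two hp2
  obtain ⟨g, hgK, hgC, hgX⟩ : ∃ g ∈ K, g ∉ TK φ K (z ^ p) ∧ ∀ k : ℕ, 1 ≤ k → k ≤ m →
      g ^ k ∉ XX φ := by
    by_contra hc
    push Not at hc
    let B : ℕ → Finset A := fun k => hK.toFinset.filter fun g => g ^ (k + 1) ∈ XX φ
    have hB : ∀ k ∈ Finset.range m, (B k).card ≤ x := by
      intro k hk
      rw [Finset.mem_range] at hk
      have h1 : (B k).card ≤ hXf.toFinset.card := by
        refine Finset.card_le_card_of_injOn (fun g => g ^ (k + 1)) ?_ ?_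
        · intro g hg
          rw [Finset.mem_coe, Set.Finite.mem_toFinset]
          exact (Finset.mem_filter.1 (Finset.mem_coe.1 hg)).2
        · intro g _ h _ e
          have e1 : (g / h) ^ (k + 1) = 1 := by
            rw [div_pow]
            exact div_eq_one.2 e
          have h3 : orderOf (g / h) ∣ k + 1 := orderOf_dvd_of_pow_eq_one e1
          have h4 : orderOf (g / h) ∣ p := orderOf_dvd_of_pow_eq_one (hexp _)
          rcases (Nat.dvd_prime hp).1 h4 with h5 | h5
          · exact div_eq_one.1 (orderOf_eq_one_iff.1 h5)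
          · rw [h5] at h3
            have := Nat.le_of_dvd (by omega) h3
            omega
      rw [← Set.ncard_eq_toFinset_card _ hXf] at h1
      exact h1.trans hXx
    have hcov : hK.toFinset ⊆ (hfT (z ^ p)).toFinset ∪ (Finset.range m).biUnion B := by
      intro g hg
      rw [Set.Finite.mem_toFinset] at hg
      rw [Finset.mem_union, Set.Finite.mem_toFinset]
      by_cases h1 : g ∈ TK φ K (z ^ p)
      · exact Or.inl h1
      · obtain ⟨k, hk1, hk2, hk3⟩ := hc g hg h1
        refine Or.inr (Finset.mem_biUnion.2 ⟨k - 1, Finset.mem_range.2 (by omega),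
          Finset.mem_filter.2 ⟨(Set.Finite.mem_toFinset _).2 hg, ?_⟩⟩)
        rw [Nat.sub_add_cancel hk1]
        exact hk3
    have h1 := Finset.card_le_card hcov
    have h2 := Finset.card_union_le (hfT (z ^ p)).toFinset ((Finset.range m).biUnion B)
    have h3 : ((Finset.range m).biUnion B).card ≤ m * x := by
      refine Finset.card_biUnion_le.trans ?_
      have := Finset.sum_le_card_nsmul _ _ _ hB
      rwa [Finset.card_range, smul_eq_mul] at this
    rw [← Set.ncard_eq_toFinset_card _ hK] at h1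
    rw [← Set.ncard_eq_toFinset_card _ (hfT (z ^ p))] at h2
    have h4 := hsmall z hzW
    have h5 : (2 * m + 1) * x = m * x + m * x + x := by ring
    rw [hm, h5] at hc2
    have h6 : 1 * x ≤ m * x := Nat.mul_le_mul_right _ (by omega)
    omega
  have hgX' : ∀ k : ℕ, 1 ≤ k → k < p → g ^ k ∉ XX φ := by
    intro k hk hkp
    rcases Nat.lt_or_ge m k with h | h
    · intro h1
      refine hgX (p - k) (by omega) (by omega) ?_
      rw [← xx_inv hn]
      have e : (g ^ (p - k))⁻¹ = g ^ k := by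
        rw [inv_eq_iff_mul_eq_one, ← pow_add]
        have : p - k + k = p := by omega
        rw [this, hexp]
      rw [e]
      exact h1
    · exact hgX k hk h
  have hgX1 : g ∉ XX φ := by
    have := hgX' 1 le_rfl (by omega)
    rwa [pow_one] at this
  have hcb : (p - 1) * (p - 1) * (TK φ K (z ^ p)).ncard ≤ p * (x - 1) := by
    obtain ⟨v, hvW, hv⟩ := hsurj g hgK
    rcases sm_or hn (g := v) (by rw [hv]; exact hgX1) with h | h
    · exact c_bound hp hexp hn hK hXf hXx (w := v) (by rw [hv]; exact hgK)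
        (by rw [hv]; exact hgX') h (by rw [hv]; exact hgC) (hz v hvW)
    · refine c_bound hp hexp hn hK hXf hXx (w := v⁻¹) (by rw [map_inv, hv]; exact inv_mem hgK)
        ?_ h ?_ (hz _ (inv_mem hvW))
      · intro k hk hkp
        rw [map_inv, hv, inv_pow, xx_inv hn]
        exact hgX' k hk hkp
      · rw [map_inv, hv]
        intro h1
        have := tk_inv hn h1
        rw [inv_inv] at this
        exact hgC this
  obtain ⟨c, hc⟩ : ∃ c : ℕ, (TK φ K (z ^ p)).ncard = c := ⟨_, rfl⟩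
  rw [hc] at hcb hz
  have hfinal := count_odd hp hp2 hexp hn hK hXf hXx W hsurj hz
  obtain ⟨q, hq⟩ : ∃ q : ℕ, p = q + 1 := ⟨p - 1, by omega⟩
  have hq' : p - 1 = q := by omega
  rw [hq'] at hcb
  rw [hq] at hc2 hfinal hcb
  by_cases hq2 : q = 2
  · subst hq2
    omega
  · have hq4 : 4 ≤ q := by omega
    have h1 : 2 * (q + 1) ≤ q * q := by nlinarith
    have h2 : (q + 1) * (2 * c) ≤ (q + 1) * (x - 1) := by
      calc (q + 1) * (2 * c) = 2 * (q + 1) * c := by ring
        _ ≤ q * q * c := Nat.mul_le_mul_right _ h1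
        _ ≤ (q + 1) * (x - 1) := hcb
    have h3 : 2 * c ≤ x - 1 := Nat.le_of_mul_le_mul_left h2 (by omega)
    rcases Nat.eq_or_lt_of_le hx2 with h4 | h4
    · rw [← h4] at h3 hfinal hc2
      have h5 : c = 0 := by omega
      rw [h5] at hfinal
      omega
    · have h5 : 2 * q - 5 ≤ (q - 3) * x := by
        have h6 : (q - 3) * 3 ≤ (q - 3) * x := Nat.mul_le_mul_left _ h4
        omega
      have h6 : (q + 1) * x = (q - 3) * x + 4 * x := by
        rw [← add_mul]
        congr 1
        omega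
      rw [h6] at hc2
      omega

theorem majority_five (hp : p.Prime) (hp5 : 5 ≤ p) (hexp : ∀ a : A, a ^ p = 1)
    (hn : φ (-1) = 1) {x : ℕ} (hfin : (NR φ).Finite) (hx : (NR φ).ncard + 1 ≤ x) :
    Finite (Subgroup.closure (NR φ)) ∧ Nat.card (Subgroup.closure (NR φ)) ≤ p * x := by
  refine ⟨closure_finite hp hexp hfin, ?_⟩
  have h := majority_best hp (by omega) hexp hn hfin hx
  rw [max_eq_right (by omega), mul_assoc] at h
  omega

theorem majority_three (hexp : ∀ a : A, a ^ 3 = 1)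
    (hn : φ (-1) = 1) {x : ℕ} (hfin : (NR φ).Finite) (hx : (NR φ).ncard + 1 ≤ x) :
    Finite (Subgroup.closure (NR φ)) ∧ 2 * Nat.card (Subgroup.closure (NR φ)) ≤ 9 * x := by
  refine ⟨closure_finite Nat.prime_three hexp hfin, ?_⟩
  have h := majority_best Nat.prime_three (by omega) hexp hn hfin hx
  rwa [max_eq_left (by omega)] at h

end

end Pool.Agent.V7H42.ET
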