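import Mathlib
import Pool.Agent.V7H42.ET.Maj3
import Pool.Agent.Y98.EP.PCD
import Pool.Agent.Y447.EP.WB
import Pool.Agent.Y232.EP.Coarse
import Pool.Agent.Y925.ET.WA

set_option autoImplicit false

/-! The valuation ring of a field with few classes that are not rigid. -/

namespace Pool.Agent.V7H42.ET

open Pool.Agent.Y920.EP
open Pool.Agent.Y920.ETC (PCD Compat RigidPair)

section

variable {F : Type} [Field F] {A : Type} [CommGroup A] {φ : Fˣ →* A} {p : ℕ}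

/-- twice the factor -/
def Cp (p : ℕ) : ℕ := if p = 2 then 24 else max 9 (2 * p)

/-- doubling of the subgroup in the exceptional case -/
lemma relIndex_two {G : Type} [CommGroup G] {T H H' : Subgroup G} (hT : T ≤ H)
    (hsq : ∀ x : G, x * x ∈ T) (z : G) (hH : ∀ y : G, y ∈ H' ↔ (y ∈ H ∨ y * z ∈ H))
    (hfin : T.relIndex H ≠ 0) : T.relIndex H' ≠ 0 ∧ T.relIndex H' ≤ 2 * T.relIndex H := by
  by_cases hz : z ∈ H
  · have : H' = H := by
      ext y
      rw [hH]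
      constructor
      · rintro (h | h)
        · exact h
        · exact (Subgroup.mul_mem_cancel_right _ hz).1 h
      · exact Or.inl
    rw [this]
    exact ⟨hfin, by omega⟩
  · have hHH' : H ≤ H' := fun y hy => (hH y).2 (Or.inl hy)
    have h2 : H.relIndex H' = 2 := by
      rw [Subgroup.relIndex_eq_two_iff]
      refine ⟨z, (hH z).2 (Or.inr (hT (hsq z))), fun b hb => ?_⟩
      rcases (hH b).1 hb with h | h
      · exact Or.inr ⟨h, fun h1 => hz ((Subgroup.mul_mem_cancel_left _ h).1 h1)⟩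
      · exact Or.inl ⟨h, fun h1 => hz ((Subgroup.mul_mem_cancel_left _ h1).1 h)⟩
    have h3 := Subgroup.relIndex_mul_relIndex T H H' hT hHH'
    rw [h2] at h3
    rw [← h3]
    exact ⟨by positivity, by omega⟩

/-- the valuation ring -/
theorem ring_all (hsurj : Function.Surjective φ) (hp : p.Prime) {T : Subgroup Fˣ}
    (hker : φ.ker = T) (hT : pwG F p ≤ T) (hn : φ (-1) = 1) (hfin : (NR φ).Finite) {x : ℕ}
    (hx : (NR φ).ncard + 1 ≤ x) :
    ∃ (H : Subgroup Fˣ) (O : ValuationSubring F), T ≤ H ∧ T.relIndex H ≠ 0 ∧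
      2 * T.relIndex H ≤ Cp p * x ∧ O.unitGroup ≤ H ∧
      (∀ y : F, y ∈ O → y⁻¹ ∉ O → ∃ t ∈ T, ((t : Fˣ) : F) = 1 + y) ∧
      (T = pwG F p → (p : F) ≠ 0 → (p : F)⁻¹ ∈ O) := by
  have hexp : ∀ a : A, a ^ p = 1 := by
    intro a
    obtain ⟨x, rfl⟩ := hsurj a
    rw [← map_pow, ← MonoidHom.mem_ker, hker]
    exact hT ⟨x, rfl⟩
  set K := Subgroup.closure (NR φ) with hKdef
  have hRP : RP φ.ker (K.comap φ) := rp_of hn K Subgroup.subset_closure
  have hidx : φ.ker.relIndex (K.comap φ) = Nat.card K := by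
    have h1 := Subgroup.relIndex_ker φ (K := K.comap φ)
    rwa [Subgroup.map_comap_eq_self_of_surjective hsurj] at h1
  have hfinK : Finite K := closure_finite hp hexp hfin
  have hpos : Nat.card K ≠ 0 := Nat.card_pos.ne'
  -- the group of the units
  obtain ⟨H, hRPH, hPCD, hi1, hi2⟩ : ∃ H : Subgroup Fˣ, RP φ.ker H ∧ PCD φ.ker H ∧
      φ.ker.relIndex H ≠ 0 ∧ 2 * φ.ker.relIndex H ≤ Cp p * x := by
    by_cases hp2 : p = 2
    · subst hp2
      obtain ⟨-, h2⟩ := majority_two hexp hn hfin hx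
      have hsq : ∀ x : Fˣ, x * x ∈ φ.ker := by
        intro y
        rw [MonoidHom.mem_ker, ← pow_two, map_pow, hexp]
      obtain ⟨z, H', hH', hR', hP'⟩ := Pool.Agent.Y925.ET.t_WA F φ.ker (K.comap φ)
        ⟨hsq, hRP.le, hRP.neg, hRP.rigid⟩
      obtain ⟨h3, h4⟩ := relIndex_two hRP.le hsq z hH' (by rw [hidx]; exact hpos)
      refine ⟨H', ⟨hR'.le, hR'.neg, hR'.rigid⟩, hP', h3, ?_⟩
      rw [hidx] at h4
      have h2' : Nat.card K ≤ 6 * x := h2
      have h5 : Cp 2 = 24 := if_pos rfl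
      rw [h5]
      omega
    · have h2 := majority_best hp hp2 hexp hn hfin hx
      have hsq : ∀ x : Fˣ, x * x ∈ K.comap φ → x ∈ K.comap φ := by
        intro x hx
        rw [Subgroup.mem_comap] at hx ⊢
        obtain ⟨m, hm⟩ := hp.odd_of_ne_two hp2
        have : φ x = φ (x * x) ^ (m + 1) := by
          rw [map_mul, ← pow_two, ← pow_mul, show 2 * (m + 1) = p + 1 by omega, pow_succ,
            hexp, one_mul]
        rw [this]
        exact pow_mem hx _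
      refine ⟨K.comap φ, hRP, Pool.Agent.Y98.EP.t_PCD F _ _ hRP hsq, by rw [hidx]; exact hpos,
        ?_⟩
      rw [hidx]
      have h5 : Cp p = max 9 (2 * p) := if_neg hp2
      rw [h5]
      exact h2
  obtain ⟨O, hO⟩ := Pool.Agent.Y447.EP.t_WB' F _ _ hRPH hPCD
  rw [hker] at hRPH hO hi1 hi2
  have key : ∃ O' : ValuationSubring F, Compat T H O' ∧
      (T = pwG F p → (p : F) ≠ 0 → (p : F)⁻¹ ∈ O') := by
    by_cases hcase : T = pwG F p ∧ (p : F) ≠ 0
    · obtain ⟨O', -, hpO, hO'⟩ := Pool.Agent.Y232.EP.t_COARSE' F p hp hcase.2 T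
        H (fun x => by rw [hcase.1, mem_pwG]) hRPH.le O hO
      exact ⟨O', hO', fun _ _ => hpO⟩
    · exact ⟨O, hO, fun h1 h2 => absurd ⟨h1, h2⟩ hcase⟩
  obtain ⟨O', hO', hpO'⟩ := key
  refine ⟨H, O', hRPH.le, hi1, hi2, ?_, hO'.one, hpO'⟩
  intro u hu
  refine hO'.units u ?_ ?_
  · rw [← ValuationSubring.valuation_le_one_iff]
    exact le_of_eq hu
  · rw [← ValuationSubring.valuation_le_one_iff]
    exact le_of_eq (inv_mem hu : u⁻¹ ∈ O'.unitGroup)

end

section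

variable {F : Type} [Field F] {p : ℕ}

/-- the classes that are not rigid -/
def nonrigidC (T : Subgroup Fˣ) : Set (Fˣ ⧸ T) :=
  {c | ∃ r s : Fˣ, (r : Fˣ ⧸ T) = c ∧ (r : F) + s = 1 ∧ r ∉ T ∧ s ∉ T ∧ s / r ∉ T}

lemma nonrigid_eq (T : Subgroup Fˣ) :
    NR (A := Fˣ ⧸ T) (QuotientGroup.mk' T) = nonrigidC T := by
  have hone : ∀ x : Fˣ, (x : Fˣ ⧸ T) = 1 ↔ x ∈ T := fun x => QuotientGroup.eq_one_iff x
  have heq : ∀ x y : Fˣ, (x : Fˣ ⧸ T) = (y : Fˣ ⧸ T) ↔ x / y ∈ T := by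
    intro x y
    rw [← hone, QuotientGroup.mk_div, div_eq_one]
  ext c
  constructor
  · rintro ⟨hc1, r, s, hr, hrs, hs1, hs2⟩
    have hr' : (r : Fˣ ⧸ T) = c := hr
    refine ⟨r, s, hr', hrs, ?_, ?_, ?_⟩
    · rw [← hone, hr']; exact hc1
    · rw [← hone]; exact hs1
    · rw [← heq, hr']; exact hs2
  · rintro ⟨r, s, hr, hrs, hr1, hs1, hs2⟩
    refine ⟨?_, r, s, hr, hrs, ?_, ?_⟩
    · rw [← hr, Ne, hone]; exact hr1
    · show ¬ (s : Fˣ ⧸ T) = 1
      rw [hone]; exact hs1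
    · show ¬ (s : Fˣ ⧸ T) = c
      rw [← hr, heq]; exact hs2

/-- the valuation ring, for a subgroup `T` -/
theorem ring_T (hp : p.Prime) {T : Subgroup Fˣ} (hT : pwG F p ≤ T) (hneg : (-1 : Fˣ) ∈ T)
    (hfin : (nonrigidC T).Finite) :
    ∃ O : ValuationSubring F,
      (∀ y : F, y ∈ O → y⁻¹ ∉ O → ∃ t ∈ T, ((t : Fˣ) : F) = 1 + y) ∧
      T.relIndex (O.unitGroup ⊔ T) ≠ 0 ∧
      2 * T.relIndex (O.unitGroup ⊔ T) ≤ Cp p * ((nonrigidC T).ncard + 1) ∧
      (T = pwG F p → (p : F) ≠ 0 → (p : F)⁻¹ ∈ O) := by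
  rw [← nonrigid_eq] at hfin ⊢
  obtain ⟨H, O, h1, h2, h3, h4, h5, h6⟩ := ring_all (A := Fˣ ⧸ T) (φ := QuotientGroup.mk' T)
    (QuotientGroup.mk'_surjective T) hp (QuotientGroup.ker_mk' T) hT (by
      rw [QuotientGroup.mk'_apply, QuotientGroup.eq_one_iff]; exact hneg) hfin le_rfl
  have h7 : O.unitGroup ⊔ T ≤ H := sup_le h4 h1
  have h8 : T.relIndex (O.unitGroup ⊔ T) ∣ T.relIndex H :=
    Dvd.intro _ (Subgroup.relIndex_mul_relIndex T (O.unitGroup ⊔ T) H le_sup_right h7)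
  refine ⟨O, h5, fun h => h2 ?_, le_trans (Nat.mul_le_mul_left 2
    (Nat.le_of_dvd (Nat.pos_of_ne_zero h2) h8)) h3, h6⟩
  rw [h] at h8
  exact Nat.eq_zero_of_zero_dvd h8

/-- classes that are not rigid are classes of units -/
lemma unit_of_nonrigid {T : Subgroup Fˣ} (hneg : (-1 : Fˣ) ∈ T) {O : ValuationSubring F}
    (hO : ∀ y : F, y ∈ O → y⁻¹ ∉ O → ∃ t ∈ T, ((t : Fˣ) : F) = 1 + y) {c : Fˣ ⧸ T}
    (hc : c ∈ nonrigidC T) : ∃ u ∈ O.unitGroup, ((u : Fˣ) : Fˣ ⧸ T) = c := by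
  obtain ⟨r, s, rfl, hrs, hr, hs, hsr⟩ := hc
  refine ⟨r, ?_, rfl⟩
  have h1 : (r : F) ∈ O := by
    by_contra h1
    have h2 : (r : F)⁻¹ ∈ O := (O.mem_or_inv_mem _).resolve_left h1
    obtain ⟨t, ht, e⟩ := hO (-(r : F)⁻¹) (neg_mem h2) (by
      rw [inv_neg, inv_inv]; exact fun h => h1 (neg_mem_iff.1 h))
    apply hsr
    have h3 : s / r = -1 * t := by
      apply Units.ext
      rw [Units.val_div_eq_div_val, Units.val_mul, Units.val_neg, Units.val_one, e]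
      have : (r : F) ≠ 0 := r.ne_zero
      field_simp
      linear_combination hrs
    rw [h3]
    exact mul_mem hneg ht
  have h2 : (r : F)⁻¹ ∈ O := by
    by_contra h2
    obtain ⟨t, ht, e⟩ := hO (-(r : F)) (neg_mem h1) (by
      rw [inv_neg]; exact fun h => h2 (neg_mem_iff.1 h))
    apply hs
    have h3 : s = t := by
      apply Units.ext
      rw [e]
      linear_combination hrs
    rw [h3]
    exact ht
  rw [ValuationSubring.mem_unitGroup_iff]
  refine le_antisymm ((O.valuation_le_one_iff _).2 h1) ?_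
  have h3 := (O.valuation_le_one_iff _).2 h2
  rw [map_inv₀] at h3
  have h4 : 0 < O.valuation (r : F) := zero_lt_iff.2 ((Valuation.ne_zero_iff _).2 r.ne_zero)
  exact (inv_le_one₀ h4).1 h3

end

end Pool.Agent.V7H42.ET
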