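import Mathlib
import Pool.Agent.Y98.EP.PCD
import Pool.Agent.V7H42.ET.Rng

set_option autoImplicit false

/-! Rigid elements: no exceptions if there is a class that is not rigid (any prime, also `2`). -/

namespace Pool.Agent.V7H42.ET

open Pool.Agent.Y920.EP
open Pool.Agent.Y920.ETC (PCD)

/-- small elements -/
abbrev SS {F : Type} [Field F] (T H : Subgroup Fˣ) (x : Fˣ) : Prop :=
  Pool.Agent.Y920.ETC.Sm T H x

section

variable {F : Type} [Field F] {T H : Subgroup Fˣ}

/-- `L2` without a condition on `x / y` -/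
lemma L2e (h : RP T H) {r s : Fˣ} (hrs : (r : F) + s = 1) (hr : r ∉ T) (hs : s ∉ T)
    (hsr : s / r ∉ T) (hir : ∀ w, SS T H w → SS T H (w * r))
    (his : ∀ w, SS T H w → SS T H (w * s)) {x y d : Fˣ} (hx : SS T H x) (hy : SS T H y)
    (hd : (d : F) = 1 + x) : SS T H (y / d) := by
  by_cases hxy : x / y ∈ T
  · obtain ⟨d1, hd1T, ed1⟩ := (hir x hx).2
    have hx1 := hir x hx
    have hx2 := his x hx
    have key : ∀ q : Fˣ, q ∉ T → x * q / y ∉ T := by
      intro q hq h'
      apply hq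
      have h2 := T.div_mem h' hxy
      have e : x * q / y / (x / y) = q := by
        rw [div_div_div_cancel_right, mul_div_cancel_left]
      rwa [e] at h2
    have h1 : SS T H (y / d1) := Pool.Agent.Y98.EP.L2 h hx1 hy (key r hr) ed1
    have h2 : SS T H (x * s / d1) := Pool.Agent.Y98.EP.L2 h hx1 hx2 (by
      intro h'
      apply hsr
      rw [mul_div_mul_left_eq_div] at h'
      rw [← inv_div]
      exact inv_mem h') ed1
    have h3 : SS T H (y / d1 / (d / d1)) := Pool.Agent.Y98.EP.L2 h h2 h1 (by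
      rw [div_div_div_cancel_right]
      exact key s hs) (by
      have hd0 : (d1 : F) ≠ 0 := d1.ne_zero
      rw [Units.val_div_eq_div_val, Units.val_div_eq_div_val, hd, Units.val_mul]
      field_simp
      rw [ed1, Units.val_mul]
      linear_combination -(x : F) * hrs)
    rwa [div_div_div_cancel_right] at h3
  · exact Pool.Agent.Y98.EP.L2 h hx hy hxy hd

/-- `PCD` -/
lemma pcd_of (h : RP T H)
    (hL : ∀ x y d : Fˣ, SS T H x → SS T H y → (d : F) = 1 + x → SS T H (y / d))
    (hneg : ∀ w, SS T H w → SS T H (-w)) : PCD T H := by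
  have hC : ∀ a x c : Fˣ, SS T H a → SS T H x → (c : F) = 1 + x → SS T H (a * c) := by
    intro a x c ha hx hc
    have h1 : SS T H (-x / c) := hL x (-x) c hx (hneg x hx) hc
    have h2 := hL (-x / c) a c⁻¹ h1 ha (by
      have hc0 : (c : F) ≠ 0 := c.ne_zero
      rw [Units.val_div_eq_div_val, Units.val_neg, Units.val_inv_eq_inv_val]
      field_simp
      rw [hc]
      ring)
    rwa [div_inv_eq_mul] at h2
  have hadd : ∀ e u : Fˣ, (e ∈ T ∧ ∀ v, SS T H v → SS T H (v / e)) → SS T H u →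
      ∃ e' : Fˣ, (e' : F) = e + u ∧ (e' ∈ T ∧ ∀ v, SS T H v → SS T H (v / e')) := by
    intro e u he hu
    obtain ⟨t, htT, et⟩ := (he.2 u hu).2
    refine ⟨e * t, ?_, T.mul_mem he.1 htT, fun v hv => ?_⟩
    · have he0 : (e : F) ≠ 0 := e.ne_zero
      rw [Units.val_mul, et, Units.val_div_eq_div_val]
      field_simp
    · have h1 := hL _ _ t (he.2 u hu) (he.2 v hv) et
      rwa [div_div] at h1
  refine ⟨?_, hC, ?_⟩
  · intro x y z hx hy hxy hz
    obtain ⟨cx, -, ecx⟩ := hx.2
    obtain ⟨cy, -, ecy⟩ := hy.2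
    have h1 := hC z x cx hz hx ecx
    have h2 := hC z y cy hz hy ecy
    have h3 := hC (z * cx) y cy h1 hy ecy
    obtain ⟨e1, ee1, he1⟩ := hadd 1 (z * cx * cy) ⟨T.one_mem, fun v hv => by rwa [div_one]⟩ h3
    obtain ⟨e2, ee2, he2⟩ := hadd e1 (-(z * cx)) he1 (hneg _ h1)
    obtain ⟨e3, ee3, he3⟩ := hadd e2 (-(z * cy)) he2 (hneg _ h2)
    obtain ⟨e4, ee4, he4⟩ := hadd e3 z he3 hz
    refine ⟨fun h' => hz.1 ((H.mul_mem_cancel_left hxy).1 h'), e4, he4.1, ?_⟩
    rw [ee4, ee3, ee2, ee1]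
    simp only [Units.val_neg, Units.val_mul, Units.val_one]
    rw [ecx, ecy]
    ring
  · intro x a b hx ha hb e
    obtain ⟨d, -, ed⟩ := hx.2
    have hdab : d = a * b := Units.ext (by rw [ed, Units.val_mul, e])
    have h1 := hL x a d hx ha ed
    have h2 : a / d = b⁻¹ := by
      rw [hdab, div_mul_eq_div_div, div_self', one_div]
    rw [h2] at h1
    exact Pool.Agent.Y98.EP.sm_inv h hb h1

end

section

variable {F : Type} [Field F] {A : Type} [CommGroup A] {φ : Fˣ →* A} {K : Subgroup A}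

/-- multiplication by nonrigid elements does not change smallness -/
lemma ss_mul (hn : φ (-1) = 1) (hK : NR φ ⊆ K) {r : Fˣ} (hr : Rs φ r) (w : Fˣ) :
    SS φ.ker (K.comap φ) w ↔ SS φ.ker (K.comap φ) (w * r) := by
  have hXK : XX φ ⊆ K := by
    rintro a (rfl | ha)
    · exact one_mem K
    · exact hK ha
  have hrK : φ r ∈ K := by
    obtain ⟨s, hrs, hr1, hs1, hs2⟩ := hr
    exact hK ⟨hr1, r, s, rfl, hrs, hs1, hs2⟩
  have hmem : ∀ v : Fˣ, SS φ.ker (K.comap φ) v ↔ φ v ∉ K ∧ Sm φ v := by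
    intro v
    constructor
    · rintro ⟨h1, t, ht, et⟩
      refine ⟨h1, t, ?_, ?_⟩
      · rw [et, Units.val_one]
      · rw [map_one]
        exact ht
    · rintro ⟨h1, t, et, ht⟩
      rw [map_one] at ht
      rw [Units.val_one] at et
      exact ⟨h1, t, ht, et⟩
  rw [hmem, hmem]
  have h1 : φ (w * r) ∈ K ↔ φ w ∈ K := by
    rw [map_mul]
    exact K.mul_mem_cancel_right hrK
  rw [h1]
  refine and_congr_right fun hw => ?_
  have h2 := rs_dd hn hr (w := w * r) (fun h => hw (h1.1 (hXK h))) (by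
    rw [mul_inv_cancel_right]
    exact fun h => hw (hXK h))
  rw [mul_inv_cancel_right] at h2
  exact h2.symm

lemma pcd_nr (hn : φ (-1) = 1) (hRP : RP φ.ker (K.comap φ)) (hK : NR φ ⊆ K)
    (hne : (NR φ).Nonempty) : PCD φ.ker (K.comap φ) := by
  obtain ⟨a, ha⟩ := hne
  obtain ⟨r, -, hr⟩ := rs_of ha
  obtain ⟨s, hrs, hr1, hs1, hs2⟩ := id hr
  have hs : Rs φ s := ⟨r, by rw [add_comm]; exact hrs, hs1, hr1, fun h => hs2 h.symm⟩
  have ht : Rs φ (-(r / s)) := by
    refine ⟨s⁻¹, ?_, ?_, ?_, ?_⟩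
    · have hs0 : (s : F) ≠ 0 := s.ne_zero
      rw [Units.val_neg, Units.val_inv_eq_inv_val, Units.val_div_eq_div_val]
      field_simp
      linear_combination -hrs
    · rw [phi_neg hn, map_div]
      exact fun h => hs2 (div_eq_one.1 h).symm
    · rw [map_inv]
      exact fun h => hs1 (inv_eq_one.1 h)
    · rw [phi_neg hn, map_div, map_inv]
      intro h
      apply hr1
      rwa [div_eq_mul_inv, eq_comm, mul_eq_right] at h
  refine pcd_of hRP ?_ ?_
  · intro x y d hx hy hd
    refine L2e hRP hrs (fun h => hr1 h) (fun h => hs1 h) ?_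
      (fun w hw => (ss_mul hn hK hr w).1 hw) (fun w hw => (ss_mul hn hK hs w).1 hw) hx hy hd
    intro h
    have h1 : φ (s / r) = 1 := h
    rw [map_div] at h1
    exact hs2 (div_eq_one.1 h1)
  · intro w hw
    have h1 := (ss_mul hn hK ht w).1 hw
    have h2 := (ss_mul hn hK hs _).1 h1
    have h3 : w * -(r / s) * s = -w * r := by
      apply Units.ext
      have hs0 : (s : F) ≠ 0 := s.ne_zero
      simp only [Units.val_mul, Units.val_neg, Units.val_div_eq_div_val]
      field_simp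
    rw [h3] at h2
    exact (ss_mul hn hK hr (-w)).2 h2

end

end Pool.Agent.V7H42.ET
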