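import Mathlib
import Pool.Agent.V7H42.ET.Maj3

set_option autoImplicit false

/-! The order of the subgroup generated by the classes that are not rigid: the exact value. -/

namespace Pool.Agent.V7H42.ET

open Pool.Agent.Y920.EP

section

variable {F : Type} [Field F] {A : Type} [CommGroup A] {φ : Fˣ →* A} {p : ℕ} {K : Subgroup A}

/-- nonrigid classes move the classes between powers of `y` to such classes or to `X` -/
lemma x_mul_tk (hn : φ (-1) = 1) (hXK : XX φ ⊆ K) {y : Fˣ} (hy : φ y = 1) {a b : A}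
    (ha : a ∈ XX φ) (hb : b ∈ TK φ K y) : a * b ∈ TK φ K y ∨ a * b ∈ XX φ := by
  by_cases hab : a * b ∈ XX φ
  · exact Or.inr hab
  left
  rcases ha with rfl | ha
  · rwa [one_mul]
  obtain ⟨r, rfl, hr⟩ := rs_of ha
  have hrK : φ r ∈ K := hXK (Or.inr ha)
  refine ⟨?_, mul_mem hrK hb.2⟩
  obtain ⟨⟨hb0, u, rfl, i, j, h1, h2⟩, hbK⟩ := hb
  rw [hy, sat_one] at hb0
  rw [mul_comm] at hab ⊢
  refine ⟨?_, u * r, map_mul φ u r, i, j, ?_, ?_⟩
  · rw [hy, sat_one]
    exact hab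
  · have h5 := (rs_dd hn hr (w := y ^ i * u⁻¹) (by
      rw [map_mul, map_zpow, map_inv, hy, one_zpow, one_mul, xx_inv hn]
      exact hb0) (by
      rw [map_mul, map_mul, map_zpow, map_inv, map_inv, hy, one_zpow, one_mul, ← mul_inv,
        xx_inv hn]
      exact hab)).1 h1
    rw [mul_inv, ← mul_assoc]
    exact h5
  · have h5 := (rs_dd hn hr (w := u * y ^ j * r) (by
      rw [map_mul, map_mul, map_zpow, hy, one_zpow, mul_one]
      exact hab) (by
      rw [mul_inv_cancel_right, map_mul, map_zpow, hy, one_zpow, mul_one]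
      exact hb0)).2 (by rwa [mul_inv_cancel_right])
    rw [mul_right_comm]
    exact h5

/-- the stabiliser -/
def St (Y : Set A) : Subgroup A where
  carrier := {g | ∀ b, g * b ∈ Y ↔ b ∈ Y}
  mul_mem' := by
    intro g h hg hh b
    rw [mul_assoc, hg, hh]
  one_mem' := by
    intro b
    rw [one_mul]
  inv_mem' := by
    intro g hg b
    rw [← hg (g⁻¹ * b), mul_inv_cancel_left]

lemma mem_st (hp : p.Prime) (hexp : ∀ a : A, a ^ p = 1) {Y : Set A} {g : A}
    (h : ∀ b ∈ Y, g * b ∈ Y) : g ∈ St Y := by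
  intro b
  refine ⟨fun hb => ?_, h b⟩
  have h1 : ∀ k : ℕ, g ^ k * (g * b) ∈ Y := by
    intro k
    induction k with
    | zero => rwa [pow_zero, one_mul]
    | succ k ih =>
      rw [pow_succ', mul_assoc]
      exact h _ ih
  have h2 := h1 (p - 1)
  rwa [← mul_assoc, ← pow_succ, Nat.sub_add_cancel hp.one_le, hexp, one_mul] at h2

/-- the structure of the set of the classes between powers of `y` -/
lemma str (hp : p.Prime) (hexp : ∀ a : A, a ^ p = 1) (hn : φ (-1) = 1) (hK : (K : Set A).Finite)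
    (hcl : Subgroup.closure (NR φ) = K) {y : Fˣ} (hy : φ y = 1)
    (hgood : ∃ g ∈ K, g ∉ XX φ ∧ g ∉ TK φ K y) :
    ∃ S : Subgroup A, (∀ g, g ∈ TK φ K y ↔ g ∈ S ∧ g ∉ XX φ) ∧
      (∀ g ∈ S, ∀ b ∉ S, b ∈ XX φ → g * b ∈ XX φ) ∧ S ≤ K ∧ Nat.card S + 1 ≤ (XX φ).ncard := by
  have hXK : XX φ ⊆ K := by
    rintro a (rfl | ha)
    · exact one_mem K
    · rw [← hcl]; exact Subgroup.subset_closure ha
  have hXf : (XX φ).Finite := hK.subset hXK
  have h1Y : (1 : A) ∈ TK φ K y ∪ XX φ := Or.inr (Or.inl rfl)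
  have hTS : ∀ t ∈ TK φ K y, t ∈ St (TK φ K y ∪ XX φ) := by
    intro t ht
    refine mem_st hp hexp ?_
    rintro b (hb | hb)
    · have h1 := tk_div hn hy ht (tk_inv hn hb)
      rwa [div_inv_eq_mul] at h1
    · rw [mul_comm]
      exact x_mul_tk hn hXK hy hb ht
  have hSY : ∀ g ∈ St (TK φ K y ∪ XX φ), g ∈ TK φ K y ∪ XX φ := by
    intro g hg
    have := (hg 1).2 h1Y
    rwa [mul_one] at this
  have hiff : ∀ g, g ∈ TK φ K y ↔ g ∈ St (TK φ K y ∪ XX φ) ∧ g ∉ XX φ :=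
    fun g => ⟨fun h => ⟨hTS g h, tk_notMem hy h⟩, fun h => (hSY g h.1).resolve_right h.2⟩
  have hsat : ∀ g ∈ St (TK φ K y ∪ XX φ), ∀ b ∉ St (TK φ K y ∪ XX φ), b ∈ XX φ →
      g * b ∈ XX φ := by
    intro g hg b hb hbX
    rcases (hg b).2 (Or.inr hbX) with h1 | h1
    · exfalso
      apply hb
      have h2 := mul_mem (inv_mem hg) (hTS _ h1)
      rwa [inv_mul_cancel_left] at h2
    · exact h1
  have hSK : St (TK φ K y ∪ XX φ) ≤ K := by
    intro g hg
    rcases hSY g hg with h1 | h1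
    · exact h1.2
    · exact hXK h1
  refine ⟨St (TK φ K y ∪ XX φ), hiff, hsat, hSK, ?_⟩
  obtain ⟨a, haX, haS⟩ : ∃ a ∈ XX φ, a ∉ St (TK φ K y ∪ XX φ) := by
    by_contra hc
    push Not at hc
    obtain ⟨g, hgK, hgX, hgT⟩ := hgood
    have h1 : Subgroup.closure (NR φ) ≤ St (TK φ K y ∪ XX φ) :=
      (Subgroup.closure_le _).2 fun a ha => hc a (Or.inr ha)
    rw [hcl] at h1
    exact hgT ((hiff g).2 ⟨h1 hgK, hgX⟩)
  have h1 : (St (TK φ K y ∪ XX φ) : Set A).ncard ≤ (XX φ \ {1}).ncard := by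
    refine Set.ncard_le_ncard_of_injOn (fun g => g * a) ?_ (fun g _ h _ e => by simpa using e)
      (hXf.subset Set.sdiff_subset)
    intro g hg
    refine ⟨hsat g hg a haS haX, fun h2 => haS ?_⟩
    have h3 : g * a = 1 := h2
    rw [(inv_eq_of_mul_eq_one_right h3).symm]
    exact inv_mem hg
  have h2 : (XX φ \ {1}).ncard + 1 = (XX φ).ncard := Set.ncard_sdiff_singleton_add_one (Or.inl rfl) hXf
  have h3 : (St (TK φ K y ∪ XX φ) : Set A).ncard = Nat.card (St (TK φ K y ∪ XX φ)) := rfl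
  omega

/-- nonrigid elements are good -/
lemma gen_good (hp : p.Prime) (hexp : ∀ a : A, a ^ p = 1) (hn : φ (-1) = 1)
    (hK : (K : Set A).Finite) (hXK : XX φ ⊆ K) (hbig : p * (XX φ).ncard ≤ Nat.card K) {r : Fˣ}
    (hr : Rs φ r) (hrN : φ r ∈ NR φ) : ∃ g ∈ K, g ∉ XX φ ∧ g ∉ TK φ K (r ^ p) := by
  by_contra hc
  push Not at hc
  have hXf : (XX φ).Finite := hK.subset hXK
  have hy1 : ∀ y : Fˣ, φ (y ^ p) = 1 := fun y => by rw [map_pow, hexp]
  have hrK : φ r ∈ K := hXK (Or.inr hrN)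
  have hr1 : φ r ≠ 1 := hrN.1
  have h4 : ∀ b ∈ K, b ∈ Sat (XX φ) (φ r) := by
    intro b hb
    by_cases hbX : b ∈ XX φ
    · exact sub_sat _ _ hbX
    · have h5 := tt_sub (φ := φ) (r ^ p) (hc b hb hbX).1
      rw [hy1, sat_one] at h5
      exact rs_pow hn hr p h5
  have h6 : (K : Set A) ⊆ (fun x : A × A => x.1 * x.2) ''
      ((XX φ \ {φ r}) ×ˢ (Subgroup.zpowers (φ r) : Set A)) := by
    intro b hb
    obtain ⟨k, hk⟩ := h4 b hb
    by_cases h5 : b * φ r ^ k = φ r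
    · refine ⟨(1, φ r ^ (1 - k)), ⟨⟨Or.inl rfl, fun h => hr1 ?_⟩,
        Subgroup.mem_zpowers_iff.2 ⟨1 - k, rfl⟩⟩, ?_⟩
      · have h7 : (1 : A) = φ r := h
        exact h7.symm
      · show 1 * φ r ^ (1 - k) = b
        rw [one_mul, zpow_sub, zpow_one]
        exact (eq_mul_inv_of_mul_eq h5).symm
    · refine ⟨(b * φ r ^ k, φ r ^ (-k)), ⟨⟨hk, h5⟩, Subgroup.mem_zpowers_iff.2 ⟨-k, rfl⟩⟩, ?_⟩
      show b * φ r ^ k * φ r ^ (-k) = b
      rw [zpow_neg, mul_inv_cancel_right]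
  have hzf : ((Subgroup.zpowers (φ r) : Subgroup A) : Set A).Finite := by
    refine hK.subset ?_
    rw [SetLike.coe_subset_coe, Subgroup.zpowers_le]
    exact hrK
  have hXf' : (XX φ \ {φ r}).Finite := hXf.subset Set.sdiff_subset
  have h7 := (Set.ncard_le_ncard h6 ((hXf'.prod hzf).image _)).trans
    (Set.ncard_image_le (hXf'.prod hzf))
  rw [Set.ncard_prod, mul_comm] at h7
  have h8 : ((Subgroup.zpowers (φ r) : Subgroup A) : Set A).ncard ≤ p :=
    zpowers_card hp hexp _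
  have h9 : (XX φ \ {φ r}).ncard + 1 = (XX φ).ncard :=
    Set.ncard_sdiff_singleton_add_one (Or.inr hrN) hXf
  have h10 := Nat.mul_le_mul_right (XX φ \ {φ r}).ncard h8
  have h11 : (K : Set A).ncard = Nat.card K := rfl
  have h12 : p * (XX φ).ncard = p * (XX φ \ {φ r}).ncard + p := by
    rw [← h9]; ring
  have := hp.pos
  omega

/-- products of good elements are good -/
lemma mul_good (hp : p.Prime) (hexp : ∀ a : A, a ^ p = 1) (hn : φ (-1) = 1)
    (hK : (K : Set A).Finite) (hcl : Subgroup.closure (NR φ) = K)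
    (hbig : p * (XX φ).ncard ≤ Nat.card K) {y r : Fˣ}
    (hy : ∃ g ∈ K, g ∉ XX φ ∧ g ∉ TK φ K (y ^ p))
    (hr : ∃ g ∈ K, g ∉ XX φ ∧ g ∉ TK φ K (r ^ p)) :
    ∃ g ∈ K, g ∉ XX φ ∧ g ∉ TK φ K ((y * r) ^ p) := by
  classical
  by_contra hc
  push Not at hc
  have hXK : XX φ ⊆ K := by
    rintro a (rfl | ha)
    · exact one_mem K
    · rw [← hcl]; exact Subgroup.subset_closure ha
  have hXf : (XX φ).Finite := hK.subset hXK
  have hy1 : ∀ y : Fˣ, φ (y ^ p) = 1 := fun y => by rw [map_pow, hexp]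
  obtain ⟨S1, hS1, -, hS1K, hc1⟩ := str hp hexp hn hK hcl (hy1 y) hy
  obtain ⟨S2, hS2, -, hS2K, hc2⟩ := str hp hexp hn hK hcl (hy1 r) hr
  have hcov : (K : Set A) ⊆ (S1 : Set A) ∪ ((S2 : Set A) \ {1}) ∪ (XX φ \ {1}) := by
    intro b hbK
    by_cases hb1 : b = 1
    · rw [hb1]
      exact Or.inl (Or.inl (one_mem S1))
    by_cases hbX : b ∈ XX φ
    · exact Or.inr ⟨hbX, hb1⟩
    have h5 := tt_sub (φ := φ) _ (hc b hbK hbX).1
    rw [hy1, sat_one, mul_pow] at h5
    have h6 : b ∈ DD φ (y ^ p) ∨ b ∈ DD φ (r ^ p) := by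
      rcases dd_mul _ _ h5 with h6 | ⟨c, hc, e⟩
      · exact Or.inl h6
      · refine Or.inr ?_
        rw [← e]
        show φ (y ^ p) * c ∈ _
        rw [hy1, one_mul]
        exact hc
    rcases h6 with h6 | h6
    · have h7 := dd_sub hn _ h6
      rw [hy1, sat_one] at h7
      exact Or.inl (Or.inl ((hS1 b).1 ⟨h7.resolve_right hbX, hbK⟩).1)
    · have h7 := dd_sub hn _ h6
      rw [hy1, sat_one] at h7
      exact Or.inl (Or.inr ⟨((hS2 b).1 ⟨h7.resolve_right hbX, hbK⟩).1, hb1⟩)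
  have hf1 : (S1 : Set A).Finite := hK.subset hS1K
  have hf2 : (S2 : Set A).Finite := hK.subset hS2K
  have h1 := Set.ncard_le_ncard hcov ((hf1.union (hf2.subset Set.sdiff_subset)).union
    (hXf.subset Set.sdiff_subset))
  have h2 := Set.ncard_union_le ((S1 : Set A) ∪ ((S2 : Set A) \ {1})) (XX φ \ {1})
  have h3 := Set.ncard_union_le (S1 : Set A) ((S2 : Set A) \ {1})
  have h4 : (XX φ \ {1}).ncard + 1 = (XX φ).ncard :=
    Set.ncard_sdiff_singleton_add_one (Or.inl rfl) hXf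
  have h5 : ((S2 : Set A) \ {1}).ncard + 1 = (S2 : Set A).ncard :=
    Set.ncard_sdiff_singleton_add_one (one_mem S2) hf2
  have h6 : (K : Set A).ncard = Nat.card K := rfl
  have h7 : (S1 : Set A).ncard = Nat.card S1 := rfl
  have h8 : (S2 : Set A).ncard = Nat.card S2 := rfl
  rcases hp.eq_two_or_odd' with hp2 | hodd
  · -- `p = 2`
    subst hp2
    have hKf : Finite K := hK
    obtain ⟨n, hn'⟩ := card_pow hp hexp K
    have hS : ∀ S : Subgroup A, S ≤ K → Nat.card S + 1 ≤ (XX φ).ncard →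
        4 * Nat.card S ≤ Nat.card K := by
      intro S hSK hSc
      have hSf : Finite S := hK.subset hSK
      obtain ⟨m, hm⟩ := card_pow hp hexp S
      rw [hn'] at hbig ⊢
      rw [hm] at hSc ⊢
      have h9 : 2 ^ (m + 1) < 2 ^ n := by
        rw [pow_succ]
        omega
      have h10 : m + 1 < n := (Nat.pow_lt_pow_iff_right (by norm_num)).1 h9
      have h11 : 2 ^ (m + 2) ≤ 2 ^ n := Nat.pow_le_pow_right (by norm_num) h10
      calc 4 * 2 ^ m = 2 ^ (m + 2) := by ring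
        _ ≤ 2 ^ n := h11
    have h9 := hS S1 hS1K hc1
    have h10 := hS S2 hS2K hc2
    omega
  · have hp3 : 3 ≤ p := by
      have := hp.two_le
      obtain ⟨m, hm⟩ := hodd
      omega
    have h9 : 3 * (XX φ).ncard ≤ p * (XX φ).ncard := Nat.mul_le_mul_right _ hp3
    omega

/-- elements of the set of `z` are in the set of a rigid element that is not between powers of
`z ^ p` -/
lemma lost (hp : p.Prime) (hexp : ∀ a : A, a ^ p = 1) (hn : φ (-1) = 1)
    {z w : Fˣ} (hwK : φ w ∈ K) (hX : ∀ k : ℕ, 1 ≤ k → k < p → φ w ^ k ∉ XX φ) (hws : Sm φ w)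
    (hC : φ w ∉ TK φ K (z ^ p)) : φ w ∈ TK φ K (w ^ p) ∧
      ∀ b ∈ TK φ K (z ^ p), b ∉ TK φ K (w ^ p) → φ w * b ∈ XX φ := by
  have hp1 : 1 < p := hp.one_lt
  have hy1 : ∀ y : Fˣ, φ (y ^ p) = 1 := fun y => by rw [map_pow, hexp]
  obtain ⟨g, hg⟩ : ∃ g : A, φ w = g := ⟨_, rfl⟩
  have hgX : g ∉ XX φ := by
    have := hX 1 le_rfl hp1
    rwa [pow_one, hg] at this
  have hCT : φ w ∉ TT φ (z ^ p) := fun h => hC ⟨h, hwK⟩
  have hinf := fun k : ℤ => inf_small hn (hy1 z) (by rw [hg]; exact hgX) hCT hws k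
  have hpw := sm_pow hn hX hp1 hws
  rw [hg] at hX hwK hC ⊢
  have hXi : ∀ a : A, a ∉ XX φ → a⁻¹ ∉ XX φ := fun a ha h => ha ((xx_inv hn).1 h)
  have hs1 : Sm φ (w ^ (p - 1)) ∨ p = 2 := by
    rcases Nat.lt_or_ge 2 p with h | h
    · exact Or.inl (hpw (p - 1) (by omega) (by omega))
    · exact Or.inr (by omega)
  have hsp : Sm φ (w ^ (p - 1)) := hpw (p - 1) (by omega) (by omega)
  have hXp : g ^ (p - 1) ∉ XX φ := hX (p - 1) (by omega) (by omega)
  refine ⟨⟨⟨by rw [hy1, sat_one]; exact hgX, w, hg, 1, 0, ?_, by rwa [zpow_zero, mul_one]⟩,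
    hwK⟩, ?_⟩
  · have e : (w ^ p) ^ (1 : ℤ) * w⁻¹ = w ^ (p - 1) := by
      rw [zpow_one, mul_inv_eq_iff_eq_mul, ← pow_succ, Nat.sub_add_cancel hp.one_le]
    rw [e]
    exact hsp
  intro b hb hbw
  by_contra hc
  obtain ⟨⟨hb0, u, hu, i, j, h1, h2⟩, hbK⟩ := id hb
  have hbX : b ∉ XX φ := tk_notMem (hy1 z) hb
  apply hbw
  -- one side
  have side : ∀ (u : Fˣ) (b : A) (j : ℤ) (k : ℕ), 1 ≤ k → k < p → φ u = b → b ∉ XX φ →
      g ^ k * b ∉ XX φ → Sm φ (u * (z ^ p) ^ j) → Sm φ (u * w ^ p) := by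
    intro u b j k hk hkp hu hbX hkb h2
    have e1 : φ (w ^ k * (z ^ p) ^ (-j)) = g ^ k := by
      rw [map_mul, map_pow, map_zpow, hy1, one_zpow, mul_one, hg]
    have e2 : φ (u * (z ^ p) ^ j) = b := by
      rw [map_mul, map_zpow, hy1, one_zpow, mul_one, hu]
    have s1 : Sm φ (w ^ k * (z ^ p) ^ (-j)) := by
      rcases Nat.eq_or_lt_of_le hk with h3 | h3
      · rw [← h3, pow_one]
        exact hinf (-j)
      · have e : w ^ k * (z ^ p) ^ (-j) = w ^ (k - 1) * (w * (z ^ p) ^ (-j)) := by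
          rw [← mul_assoc, ← pow_succ, Nat.sub_add_cancel hk]
        rw [e]
        refine sm_mul hn ?_ ?_ ?_ (hpw (k - 1) (by omega) (by omega)) (hinf (-j))
        · rw [map_pow, hg]; exact hX (k - 1) (by omega) (by omega)
        · rw [map_mul, map_zpow, hy1, one_zpow, mul_one, hg]; exact hgX
        · rw [← e, e1]; exact hX k hk hkp
    have e3 : (w ^ k * (z ^ p) ^ (-j)) * (u * (z ^ p) ^ j) = w ^ k * u := by
      rw [zpow_neg]
      rw [mul_mul_mul_comm, mul_assoc, mul_comm ((z ^ p) ^ j)⁻¹, mul_inv_cancel, mul_one]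
    have s2 : Sm φ (w ^ k * u) := by
      rw [← e3]
      refine sm_mul hn ?_ ?_ ?_ s1 h2
      · rw [e1]; exact hX k hk hkp
      · rw [e2]; exact hbX
      · rw [e3, map_mul, map_pow, hg, hu]; exact hkb
    have e4 : w ^ (p - k) * (w ^ k * u) = u * w ^ p := by
      rw [← mul_assoc, ← pow_add, Nat.sub_add_cancel hkp.le, mul_comm]
    rw [← e4]
    refine sm_mul hn ?_ ?_ ?_ (hpw (p - k) (by omega) (by omega)) s2
    · rw [map_pow, hg]; exact hX (p - k) (by omega) (by omega)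
    · rw [map_mul, map_pow, hg, hu]; exact hkb
    · rw [e4, map_mul, hy1, mul_one, hu]; exact hbX
  refine ⟨⟨by rw [hy1, sat_one]; exact hbX, u, hu, 1, 1, ?_, ?_⟩, hbK⟩
  · rw [zpow_one, mul_comm]
    refine side u⁻¹ b⁻¹ i (p - 1) (by omega) (by omega) (by rw [map_inv, hu]) (hXi b hbX) ?_
      (by rwa [mul_comm] at h1)
    intro h3
    apply hc
    rw [← xx_inv hn]
    have e : (g * b)⁻¹ = g ^ (p - 1) * b⁻¹ := by
      rw [mul_inv]
      congr 1
      rw [inv_eq_iff_mul_eq_one, ← pow_succ', Nat.sub_add_cancel hp.one_le, hexp]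
    rw [e]
    exact h3
  · rw [zpow_one]
    exact side u b j 1 le_rfl hp1 hu hbX (by rwa [pow_one]) h2

/-- **The order of the subgroup generated by the classes that are not rigid.** -/
theorem exact_card (hp : p.Prime) (hexp : ∀ a : A, a ^ p = 1) (hn : φ (-1) = 1)
    (hfin : (NR φ).Finite) :
    ((Subgroup.closure (NR φ) : Subgroup A) : Set A) = XX φ ∨
      Nat.card (Subgroup.closure (NR φ)) < p * ((NR φ).ncard + 1) := by
  classical
  have hK0 := closure_finite hp hexp hfin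
  obtain ⟨K, hcl⟩ : ∃ K : Subgroup A, Subgroup.closure (NR φ) = K := ⟨_, rfl⟩
  rw [hcl] at hK0 ⊢
  have hK : (K : Set A).Finite := Set.toFinite _
  have hXf : (XX φ).Finite := hfin.insert 1
  have hXK : XX φ ⊆ K := by
    rintro a (rfl | ha)
    · exact one_mem K
    · rw [← hcl]; exact Subgroup.subset_closure ha
  have hXx : (XX φ).ncard = (NR φ).ncard + 1 :=
    Set.ncard_insert_of_notMem (fun h => h.1 rfl) hfin
  rw [← hXx]
  by_contra hcon
  push Not at hcon
  obtain ⟨hne, hbig⟩ := hcon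
  have hcard : (K : Set A).ncard = Nat.card K := rfl
  have hy1 : ∀ y : Fˣ, φ (y ^ p) = 1 := fun y => by rw [map_pow, hexp]
  have hfT : ∀ y : Fˣ, (TK φ K y).Finite := fun y => hK.subset Set.inter_subset_right
  obtain ⟨g0, hg0K, hg0X⟩ : ∃ g ∈ K, g ∉ XX φ := by
    by_contra hc
    push Not at hc
    exact hne (Set.Subset.antisymm hc hXK)
  have hTi : ∀ y : Fˣ, TK φ K y⁻¹ = TK φ K y := by
    have key : ∀ y : Fˣ, TK φ K y⁻¹ ⊆ TK φ K y := by
      rintro y b ⟨⟨hb0, u, rfl, i, j, h3, h4⟩, hbK⟩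
      refine ⟨⟨fun h => hb0 ?_, u, rfl, -i, -j, ?_, ?_⟩, hbK⟩
      · obtain ⟨k, hk⟩ := h
        exact ⟨-k, by rwa [map_inv, inv_zpow, zpow_neg, inv_inv]⟩
      · rwa [inv_zpow, ← zpow_neg] at h3
      · rwa [inv_zpow, ← zpow_neg] at h4
    intro y
    refine Set.Subset.antisymm (key y) ?_
    have h3 := key y⁻¹
    rwa [inv_inv] at h3
  -- the group of good representatives
  let W : Subgroup Fˣ := Subgroup.closure {r : Fˣ | φ r ∈ NR φ ∧ Rs φ r}
  have hsurj : ∀ a ∈ K, ∃ w ∈ W, φ w = a := by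
    intro a ha
    have h3 : K ≤ W.map φ := by
      rw [← hcl, Subgroup.closure_le]
      intro b hb
      obtain ⟨r, hr1, hr2⟩ := rs_of hb
      exact ⟨r, Subgroup.subset_closure ⟨by rw [hr1]; exact hb, hr2⟩, hr1⟩
    obtain ⟨w, hw, e⟩ := h3 ha
    exact ⟨w, hw, e⟩
  have hgood : ∀ y ∈ W, ∃ g ∈ K, g ∉ XX φ ∧ g ∉ TK φ K (y ^ p) := by
    intro y hy
    induction hy using Subgroup.closure_induction_right with
    | one =>
      refine ⟨g0, hg0K, hg0X, fun h => ?_⟩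
      have h5 := tt_sub (φ := φ) _ h.1
      rw [hy1, sat_one, one_pow, dd_one] at h5
      exact h5
    | mul_right y hyW r hr ih =>
      exact mul_good hp hexp hn hK hcl hbig ih (gen_good hp hexp hn hK hXK hbig hr.2 hr.1)
    | mul_inv_cancel y hyW r hr ih =>
      refine mul_good hp hexp hn hK hcl hbig ih ?_
      rw [inv_pow, hTi]
      exact gen_good hp hexp hn hK hXK hbig hr.2 hr.1
  -- the largest set
  obtain ⟨z, hzW, hz⟩ : ∃ z ∈ W, ∀ y ∈ W, (TK φ K (y ^ p)).ncard ≤ (TK φ K (z ^ p)).ncard := by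
    let S : Set ℕ := (fun z => (TK φ K (z ^ p)).ncard) '' (W : Set Fˣ)
    have hne : S.Nonempty := ⟨_, 1, one_mem W, rfl⟩
    have hbd : BddAbove S := ⟨(K : Set A).ncard, by
      rintro _ ⟨y, hy, rfl⟩
      exact Set.ncard_le_ncard Set.inter_subset_right hK⟩
    obtain ⟨z, hzW, hz⟩ := Nat.sSup_mem hne hbd
    refine ⟨z, hzW, fun y hy => ?_⟩
    have h1 : (fun z => (TK φ K (z ^ p)).ncard) z = sSup S := hz
    have h2 : (TK φ K (y ^ p)).ncard ≤ sSup S := le_csSup hbd ⟨y, hy, rfl⟩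
    rw [← h1] at h2
    exact h2
  obtain ⟨S, hS, -, hSK, hSc⟩ := str hp hexp hn hK hcl (hy1 z) (hgood z hzW)
  -- all good classes are in the largest set
  have hpos : ∀ w ∈ W, Sm φ w → (∀ k : ℕ, 1 ≤ k → k < p → φ w ^ k ∉ XX φ) → φ w ∈ K →
      φ w ∈ TK φ K (z ^ p) := by
    intro w hw hws hX hwK
    by_contra hC
    obtain ⟨h1, h2⟩ := lost hp hexp hn hwK hX hws hC
    obtain ⟨S', hS', hsat', hSK', -⟩ := str hp hexp hn hK hcl (hy1 w) (hgood w hw)
    have hgS : φ w ∈ S' := ((hS' _).1 h1).1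
    have h3 : TK φ K (z ^ p) ⊆ TK φ K (w ^ p) := by
      intro b hb
      by_contra hbw
      have hbX : b ∉ XX φ := tk_notMem (hy1 z) hb
      have h4 := h2 b hb hbw
      have hbS : b ∉ S' := fun h => hbw ((hS' b).2 ⟨h, hbX⟩)
      have h5 : φ w * b ∉ S' := fun h => hbS ((Subgroup.mul_mem_cancel_left _ hgS).1 h)
      have h6 := hsat' _ (inv_mem hgS) _ h5 h4
      rw [inv_mul_cancel_left] at h6
      exact hbX h6
    have h4 : TK φ K (z ^ p) ⊂ TK φ K (w ^ p) := ⟨h3, fun h => hC (h h1)⟩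
    exact absurd (hz w hw) (not_le.2 (Set.ncard_lt_ncard h4 (hfT _)))
  -- the count
  obtain ⟨m, hm1, hm2⟩ : ∃ m : ℕ, m + 1 ≤ p ∧ p ≤ 2 * m + 1 ∧ 1 ≤ m := by
    refine ⟨p / 2, ?_, ?_, ?_⟩ <;> have := hp.two_le <;> omega
  have hcls : ∀ g ∈ K, (∀ k : ℕ, 1 ≤ k → k ≤ m → g ^ k ∉ XX φ) → g ∈ TK φ K (z ^ p) := by
    intro g hgK hgX
    have hgX' : ∀ k : ℕ, 1 ≤ k → k < p → g ^ k ∉ XX φ := by
      intro k hk hkp
      rcases Nat.lt_or_ge m k with h | h
      · intro h1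
        refine hgX (p - k) (by omega) (by omega) ?_
        rw [← xx_inv hn]
        have e : (g ^ (p - k))⁻¹ = g ^ k := by
          rw [inv_eq_iff_mul_eq_one, ← pow_add]
          have : p - k + k = p := by omega
          rw [this, hexp]
        rw [e]
        exact h1
      · exact hgX k hk h
    have hgX1 : g ∉ XX φ := by
      have := hgX' 1 le_rfl hp.one_lt
      rwa [pow_one] at this
    obtain ⟨v, hvW, hv⟩ := hsurj g hgK
    rcases sm_or hn (g := v) (by rw [hv]; exact hgX1) with h | h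
    · have h1 := hpos v hvW h (by rw [hv]; exact hgX') (by rw [hv]; exact hgK)
      rwa [hv] at h1
    · have h1 := hpos v⁻¹ (inv_mem hvW) h (by
        intro k hk hkp
        rw [map_inv, hv, inv_pow, xx_inv hn]
        exact hgX' k hk hkp) (by rw [map_inv, hv]; exact inv_mem hgK)
      rw [map_inv, hv] at h1
      have h2 := tk_inv hn h1
      rwa [inv_inv] at h2
  let B : ℕ → Finset A := fun k => hK.toFinset.filter fun g => g ^ (k + 1) ∈ XX φ \ {1}
  have hX1 : (XX φ \ {1}).ncard + 1 = (XX φ).ncard :=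
    Set.ncard_sdiff_singleton_add_one (Or.inl rfl) hXf
  have hXf1 : (XX φ \ {1}).Finite := hXf.subset Set.sdiff_subset
  have hB : ∀ k ∈ Finset.range m, (B k).card ≤ (XX φ \ {1}).ncard := by
    intro k hk
    rw [Finset.mem_range] at hk
    have h1 : (B k).card ≤ hXf1.toFinset.card := by
      refine Finset.card_le_card_of_injOn (fun g => g ^ (k + 1)) ?_ ?_
      · intro g hg
        rw [Finset.mem_coe, Set.Finite.mem_toFinset]
        exact (Finset.mem_filter.1 (Finset.mem_coe.1 hg)).2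
      · intro g _ h _ e
        have e1 : (g / h) ^ (k + 1) = 1 := by
          rw [div_pow]
          exact div_eq_one.2 e
        have h3 : orderOf (g / h) ∣ k + 1 := orderOf_dvd_of_pow_eq_one e1
        have h4 : orderOf (g / h) ∣ p := orderOf_dvd_of_pow_eq_one (hexp _)
        rcases (Nat.dvd_prime hp).1 h4 with h5 | h5
        · exact div_eq_one.1 (orderOf_eq_one_iff.1 h5)
        · rw [h5] at h3
          have := Nat.le_of_dvd (by omega) h3
          omega
    rwa [← Set.ncard_eq_toFinset_card _ hXf1] at h1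
  have hSf : (S : Set A).Finite := hK.subset hSK
  have hcov : hK.toFinset ⊆ hSf.toFinset ∪ (Finset.range m).biUnion B := by
    intro g hg
    rw [Set.Finite.mem_toFinset] at hg
    rw [Finset.mem_union, Set.Finite.mem_toFinset]
    by_cases hg1 : g = 1
    · rw [hg1]
      exact Or.inl (one_mem S)
    by_cases h1 : ∀ k : ℕ, 1 ≤ k → k ≤ m → g ^ k ∉ XX φ
    · exact Or.inl ((hS g).1 (hcls g hg h1)).1
    · push Not at h1
      obtain ⟨k, hk1, hk2, hk3⟩ := h1
      refine Or.inr (Finset.mem_biUnion.2 ⟨k - 1, Finset.mem_range.2 (by omega),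
        Finset.mem_filter.2 ⟨(Set.Finite.mem_toFinset _).2 hg, ?_, ?_⟩⟩)
      · rw [Nat.sub_add_cancel hk1]
        exact hk3
      · rw [Nat.sub_add_cancel hk1]
        intro h2
        have h3 : orderOf g ∣ k := orderOf_dvd_of_pow_eq_one h2
        have h4 : orderOf g ∣ p := orderOf_dvd_of_pow_eq_one (hexp _)
        rcases (Nat.dvd_prime hp).1 h4 with h5 | h5
        · exact hg1 (orderOf_eq_one_iff.1 h5)
        · rw [h5] at h3
          have := Nat.le_of_dvd (by omega) h3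
          omega
  have h1 := Finset.card_le_card hcov
  have h2 := Finset.card_union_le hSf.toFinset ((Finset.range m).biUnion B)
  have h3 : ((Finset.range m).biUnion B).card ≤ m * (XX φ \ {1}).ncard := by
    refine Finset.card_biUnion_le.trans ?_
    have := Finset.sum_le_card_nsmul _ _ _ hB
    rwa [Finset.card_range, smul_eq_mul] at this
  rw [← Set.ncard_eq_toFinset_card _ hK] at h1
  rw [← Set.ncard_eq_toFinset_card _ hSf] at h2
  have h4 : (S : Set A).ncard = Nat.card S := rfl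
  have h5 : (m + 1) * (XX φ).ncard ≤ p * (XX φ).ncard := Nat.mul_le_mul_right _ hm1
  have h6 : (m + 1) * (XX φ).ncard = m * (XX φ \ {1}).ncard + m + (XX φ).ncard := by
    rw [← hX1]; ring
  omega

end

end Pool.Agent.V7H42.ET
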