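import Mathlib
import Pool.Agent.V7H42.ET.PCD2
import Pool.Agent.V7H42.ET.Exact
import Pool.Agent.V7H79.EU.RingK

set_option autoImplicit false

/-! The valuation ring whose units have exactly the classes generated by the classes that are not
rigid, and the order of this group. -/

namespace Pool.Agent.V7H42.ET

open Pool.Agent.Y920.EP
open Pool.Agent.Y920.ETC (PCD Compat RigidPair)

section

variable {F : Type} [Field F] {A : Type} [CommGroup A] {φ : Fˣ →* A} {p : ℕ}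

/-- the ring -/
theorem ring_genA (hp : p.Prime) {T : Subgroup Fˣ} (hker : φ.ker = T) (hT : pwG F p ≤ T)
    (hsurj : Function.Surjective φ) (hn : φ (-1) = 1) (h2 : p ≠ 2 ∨ (NR φ).Nonempty) :
    ∃ O : ValuationSubring F, T ≤ (Subgroup.closure (NR φ)).comap φ ∧
      O.unitGroup ≤ (Subgroup.closure (NR φ)).comap φ ∧
      (∀ y : F, y ∈ O → y⁻¹ ∉ O → ∃ t ∈ T, ((t : Fˣ) : F) = 1 + y) ∧
      (T = pwG F p → (p : F) ≠ 0 → (p : F)⁻¹ ∈ O) := by
  have hexp : ∀ a : A, a ^ p = 1 := by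
    intro a
    obtain ⟨x, rfl⟩ := hsurj a
    rw [← map_pow, ← MonoidHom.mem_ker, hker]
    exact hT ⟨x, rfl⟩
  have hRP : RP φ.ker ((Subgroup.closure (NR φ)).comap φ) :=
    rp_of hn _ Subgroup.subset_closure
  have hPCD : PCD φ.ker ((Subgroup.closure (NR φ)).comap φ) := by
    by_cases hne : (NR φ).Nonempty
    · exact pcd_nr hn hRP Subgroup.subset_closure hne
    · have hp2 : p ≠ 2 := h2.resolve_right hne
      refine Pool.Agent.Y98.EP.t_PCD F _ _ hRP ?_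
      intro x hx
      rw [Subgroup.mem_comap] at hx ⊢
      obtain ⟨m, hm⟩ := hp.odd_of_ne_two hp2
      have : φ x = φ (x * x) ^ (m + 1) := by
        rw [map_mul, ← pow_two, ← pow_mul, show 2 * (m + 1) = p + 1 by omega, pow_succ,
          hexp, one_mul]
      rw [this]
      exact pow_mem hx _
  obtain ⟨O, hO⟩ := Pool.Agent.Y447.EP.t_WB' F _ _ hRP hPCD
  rw [hker] at hO hRP
  have key : ∃ O' : ValuationSubring F,
      Compat T ((Subgroup.closure (NR φ)).comap φ) O' ∧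
      (T = pwG F p → (p : F) ≠ 0 → (p : F)⁻¹ ∈ O') := by
    by_cases hcase : T = pwG F p ∧ (p : F) ≠ 0
    · obtain ⟨O', -, hpO, hO'⟩ := Pool.Agent.Y232.EP.t_COARSE' F p hp hcase.2 T
        _ (fun x => by rw [hcase.1, mem_pwG]) hRP.le O hO
      exact ⟨O', hO', fun _ _ => hpO⟩
    · exact ⟨O, hO, fun h1 h2 => absurd ⟨h1, h2⟩ hcase⟩
  obtain ⟨O', hO', hpO'⟩ := key
  refine ⟨O', hRP.le, ?_, hO'.one, hpO'⟩
  intro u hu
  refine hO'.units u ?_ ?_
  · rw [← ValuationSubring.valuation_le_one_iff]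
    exact le_of_eq hu
  · rw [← ValuationSubring.valuation_le_one_iff]
    exact le_of_eq (inv_mem hu : u⁻¹ ∈ O'.unitGroup)

/-- the order of the group generated by the nonrigid classes -/
theorem gen_cardA (hp : p.Prime) (hexp : ∀ a : A, a ^ p = 1) (hn : φ (-1) = 1)
    (hfin : (NR φ).Finite) :
    Nat.card (Subgroup.closure (NR φ)) ≠ 0 ∧
    (∃ i, Nat.card (Subgroup.closure (NR φ)) = p ^ i) ∧
    (NR φ).ncard + 1 ≤ Nat.card (Subgroup.closure (NR φ)) ∧
    Nat.card (Subgroup.closure (NR φ)) < p * ((NR φ).ncard + 1) := by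
  have hfinK : Finite (Subgroup.closure (NR φ)) := closure_finite hp hexp hfin
  have hpos : Nat.card (Subgroup.closure (NR φ)) ≠ 0 := Nat.card_pos.ne'
  obtain ⟨i, hi⟩ := card_pow hp hexp (Subgroup.closure (NR φ))
  have hX : (XX φ).ncard = (NR φ).ncard + 1 :=
    Set.ncard_insert_of_notMem (fun h => h.1 rfl) hfin
  have hXK : XX φ ⊆ (Subgroup.closure (NR φ) : Set A) := by
    rintro a (rfl | ha)
    · exact one_mem _
    · exact Subgroup.subset_closure ha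
  have hge : (NR φ).ncard + 1 ≤ Nat.card (Subgroup.closure (NR φ)) := by
    rw [← hX]
    exact Set.ncard_le_ncard hXK (Set.toFinite _)
  refine ⟨hpos, ⟨i, hi⟩, hge, ?_⟩
  rcases exact_card hp hexp hn hfin with h | h
  · have h1 : Nat.card (Subgroup.closure (NR φ)) = (XX φ).ncard := by
      rw [← h]
      rfl
    rw [h1, hX]
    have := hp.two_le
    nlinarith
  · exact h

end

section

variable {F : Type} [Field F] {p : ℕ}

lemma exp_of {T : Subgroup Fˣ} (hT : pwG F p ≤ T) (a : Fˣ ⧸ T) : a ^ p = 1 := by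
  obtain ⟨x, rfl⟩ := QuotientGroup.mk'_surjective T a
  rw [← map_pow, QuotientGroup.mk'_apply, QuotientGroup.eq_one_iff]
  exact hT ⟨x, rfl⟩

lemma neg_of {T : Subgroup Fˣ} (hneg : (-1 : Fˣ) ∈ T) : QuotientGroup.mk' T (-1) = 1 := by
  rw [QuotientGroup.mk'_apply, QuotientGroup.eq_one_iff]
  exact hneg

/-- the classes of the units contain the group generated by the nonrigid classes -/
lemma gen_le {T : Subgroup Fˣ} (hneg : (-1 : Fˣ) ∈ T) {O : ValuationSubring F}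
    (hO : ∀ y : F, y ∈ O → y⁻¹ ∉ O → ∃ t ∈ T, ((t : Fˣ) : F) = 1 + y) :
    (Subgroup.closure (nonrigidC T)).comap (QuotientGroup.mk' T) ≤ O.unitGroup ⊔ T := by
  have h1 : Subgroup.closure (nonrigidC T) ≤ O.unitGroup.map (QuotientGroup.mk' T) := by
    rw [Subgroup.closure_le]
    intro c hc
    obtain ⟨u, hu, e⟩ := unit_of_nonrigid hneg hO hc
    exact ⟨u, hu, e⟩
  have h2 := Subgroup.comap_mono (f := QuotientGroup.mk' T) h1
  rw [Subgroup.comap_map_eq, QuotientGroup.ker_mk'] at h2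
  exact h2

/-- the ring: the classes of its units are generated by the nonrigid classes -/
theorem ring_gen (hp : p.Prime) {T : Subgroup Fˣ} (hT : pwG F p ≤ T) (hneg : (-1 : Fˣ) ∈ T)
    (h2 : p ≠ 2 ∨ (nonrigidC T).Nonempty) :
    ∃ O : ValuationSubring F,
      (∀ y : F, y ∈ O → y⁻¹ ∉ O → ∃ t ∈ T, ((t : Fˣ) : F) = 1 + y) ∧
      O.unitGroup ⊔ T = (Subgroup.closure (nonrigidC T)).comap (QuotientGroup.mk' T) ∧
      (T = pwG F p → (p : F) ≠ 0 → (p : F)⁻¹ ∈ O) := by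
  rw [← nonrigid_eq] at h2
  obtain ⟨O, h3, h4, h5, h6⟩ := ring_genA (A := Fˣ ⧸ T) (φ := QuotientGroup.mk' T) hp
    (QuotientGroup.ker_mk' T) hT (QuotientGroup.mk'_surjective T) (by
      rw [QuotientGroup.mk'_apply, QuotientGroup.eq_one_iff]; exact hneg) h2
  rw [nonrigid_eq] at h3 h4
  exact ⟨O, h5, le_antisymm (sup_le h4 h3) (gen_le hneg h5), h6⟩

lemma relIndex_comap (T : Subgroup Fˣ) (K : Subgroup (Fˣ ⧸ T)) :
    T.relIndex (K.comap (QuotientGroup.mk' T)) = Nat.card K := by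
  have h1 := Subgroup.relIndex_ker (QuotientGroup.mk' T) (K := K.comap (QuotientGroup.mk' T))
  rwa [Subgroup.map_comap_eq_self_of_surjective (QuotientGroup.mk'_surjective T),
    QuotientGroup.ker_mk'] at h1

/-- the order of the group generated by the nonrigid classes -/
theorem gen_card (hp : p.Prime) {T : Subgroup Fˣ} (hT : pwG F p ≤ T) (hneg : (-1 : Fˣ) ∈ T)
    (hfin : (nonrigidC T).Finite) :
    Nat.card (Subgroup.closure (nonrigidC T)) ≠ 0 ∧
    IsLeast {n : ℕ | (∃ i, n = p ^ i) ∧ (nonrigidC T).ncard + 1 ≤ n}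
      (Nat.card (Subgroup.closure (nonrigidC T))) ∧
    Nat.card (Subgroup.closure (nonrigidC T)) < p * ((nonrigidC T).ncard + 1) := by
  rw [← nonrigid_eq] at hfin ⊢
  obtain ⟨hpos, ⟨i, hi⟩, hge, hlt⟩ := gen_cardA (A := Fˣ ⧸ T) (φ := QuotientGroup.mk' T) hp
    (exp_of hT) (by
      rw [QuotientGroup.mk'_apply, QuotientGroup.eq_one_iff]; exact hneg) hfin
  refine ⟨hpos, ⟨⟨⟨i, hi⟩, hge⟩, ?_⟩, hlt⟩
  rintro n ⟨⟨j, rfl⟩, hj⟩
  rw [hi] at hlt ⊢
  by_contra hc
  push Not at hc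
  have h1 : j < i := (Nat.pow_lt_pow_iff_right hp.one_lt).1 hc
  have h2 : p ^ (j + 1) ≤ p ^ i := Nat.pow_le_pow_right hp.pos h1
  rw [pow_succ'] at h2
  have h4 := lt_of_mul_lt_mul_left (lt_of_le_of_lt h2 hlt) (Nat.zero_le p)
  omega

/-- the ring, with the order of the group of the classes of its units -/
theorem ring_exact (hp : p.Prime) {T : Subgroup Fˣ} (hT : pwG F p ≤ T) (hneg : (-1 : Fˣ) ∈ T)
    (hfin : (nonrigidC T).Finite) (h2 : p ≠ 2 ∨ (nonrigidC T).Nonempty) :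
    ∃ O : ValuationSubring F,
      (∀ y : F, y ∈ O → y⁻¹ ∉ O → ∃ t ∈ T, ((t : Fˣ) : F) = 1 + y) ∧
      O.unitGroup ⊔ T = (Subgroup.closure (nonrigidC T)).comap (QuotientGroup.mk' T) ∧
      T.relIndex (O.unitGroup ⊔ T) ≠ 0 ∧
      IsLeast {n : ℕ | (∃ i, n = p ^ i) ∧ (nonrigidC T).ncard + 1 ≤ n}
        (T.relIndex (O.unitGroup ⊔ T)) ∧
      T.relIndex (O.unitGroup ⊔ T) < p * ((nonrigidC T).ncard + 1) ∧
      (T = pwG F p → (p : F) ≠ 0 → (p : F)⁻¹ ∈ O) := by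
  obtain ⟨O, h3, h4, h5⟩ := ring_gen hp hT hneg h2
  obtain ⟨h6, h7, h8⟩ := gen_card hp hT hneg hfin
  refine ⟨O, h3, h4, ?_, ?_, ?_, h5⟩
  · rwa [h4, relIndex_comap]
  · rwa [h4, relIndex_comap]
  · rwa [h4, relIndex_comap]

/-- `p = 2`, all classes rigid -/
theorem ring_empty (hp : p.Prime) {T : Subgroup Fˣ} (hT : pwG F p ≤ T) (hneg : (-1 : Fˣ) ∈ T)
    (hfin : nonrigidC T = ∅) : ∃ O : ValuationSubring F,
      (∀ y : F, y ∈ O → y⁻¹ ∉ O → ∃ t ∈ T, ((t : Fˣ) : F) = 1 + y) ∧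
      T.relIndex (O.unitGroup ⊔ T) ≠ 0 ∧
      T.relIndex (O.unitGroup ⊔ T) ≤ (if p = 2 then 2 else 1) ∧
      (T = pwG F p → (p : F) ≠ 0 → (p : F)⁻¹ ∈ O) := by
  have h1 : Nat.card (Subgroup.closure (nonrigidC T)) ≤ 1 := by
    rw [hfin, Subgroup.closure_empty, Subgroup.card_bot]
  obtain ⟨O, h2, h3, h4, h5⟩ := Pool.Agent.V7H79.EU.ring_KT hp hT hneg
    (by rw [hfin]; exact Set.finite_empty) h1
  exact ⟨O, h2, h3, by rwa [mul_one] at h4, h5⟩

/-- in all cases: `ρ + 1 ≤ [O* T : T] ≤ p (ρ + 1)`, with equality on the right only if `p = 2` and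
`ρ = 0` -/
theorem ring_all_cases (hp : p.Prime) {T : Subgroup Fˣ} (hT : pwG F p ≤ T) (hneg : (-1 : Fˣ) ∈ T)
    (hfin : (nonrigidC T).Finite) : ∃ O : ValuationSubring F,
      (∀ y : F, y ∈ O → y⁻¹ ∉ O → ∃ t ∈ T, ((t : Fˣ) : F) = 1 + y) ∧
      T.relIndex (O.unitGroup ⊔ T) ≠ 0 ∧
      T.relIndex (O.unitGroup ⊔ T) ≤ p * ((nonrigidC T).ncard + 1) ∧
      (p ≠ 2 ∨ (nonrigidC T).Nonempty →
        O.unitGroup ⊔ T = (Subgroup.closure (nonrigidC T)).comap (QuotientGroup.mk' T) ∧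
        IsLeast {n : ℕ | (∃ i, n = p ^ i) ∧ (nonrigidC T).ncard + 1 ≤ n}
          (T.relIndex (O.unitGroup ⊔ T))) ∧
      (T = pwG F p → (p : F) ≠ 0 → (p : F)⁻¹ ∈ O) := by
  by_cases h2 : p ≠ 2 ∨ (nonrigidC T).Nonempty
  · obtain ⟨O, h3, h4, h5, h6, h7, h8⟩ := ring_exact hp hT hneg hfin h2
    exact ⟨O, h3, h5, h7.le, fun _ => ⟨h4, h6⟩, h8⟩
  · have h3 := h2
    push Not at h3
    obtain ⟨h4, h5⟩ := h3
    obtain ⟨O, h6, h7, h8, h9⟩ := ring_empty hp hT hneg h5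
    refine ⟨O, h6, h7, ?_, fun h => absurd h h2, h9⟩
    rw [h5, Set.ncard_empty, h4, zero_add, mul_one]
    rwa [h4, if_pos rfl] at h8

lemma card_pow_top (hp : p.Prime) {T : Subgroup Fˣ} (hT : pwG F p ≤ T) (hidx : T.index ≠ 0) :
    ∃ n : ℕ, T.index = p ^ n := by
  have : Fact p.Prime := ⟨hp⟩
  have hFI : T.FiniteIndex := ⟨hidx⟩
  have hfinQ : Finite (Fˣ ⧸ T) := T.finite_quotient_of_finiteIndex
  have h : IsPGroup p (Fˣ ⧸ T) := fun g => ⟨1, by
    rw [pow_one]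
    exact exp_of hT g⟩
  exact IsPGroup.iff_card.1 h

/-- there is a nontrivial ring exactly if there are few nonrigid classes -/
theorem ring_iff (hp : p.Prime) {T : Subgroup Fˣ} (hT : pwG F p ≤ T) (hneg : (-1 : Fˣ) ∈ T)
    (h2 : p ≠ 2 ∨ (nonrigidC T).Nonempty) (hidx : T.index ≠ 0) :
    (∃ O : ValuationSubring F, (∀ y : F, y ∈ O → y⁻¹ ∉ O → ∃ t ∈ T, ((t : Fˣ) : F) = 1 + y) ∧
      O.unitGroup ⊔ T ≠ ⊤) ↔ p * ((nonrigidC T).ncard + 1) ≤ T.index := by
  have hFI : T.FiniteIndex := ⟨hidx⟩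
  have hfinQ : Finite (Fˣ ⧸ T) := T.finite_quotient_of_finiteIndex
  have hfin : (nonrigidC T).Finite := Set.toFinite _
  obtain ⟨h6, ⟨⟨⟨i, hi⟩, h7⟩, -⟩, h8⟩ := gen_card hp hT hneg hfin
  have hmul : Nat.card (Subgroup.closure (nonrigidC T)) *
      ((Subgroup.closure (nonrigidC T)).comap (QuotientGroup.mk' T)).index = T.index := by
    rw [← relIndex_comap]
    refine Subgroup.relIndex_mul_index ?_
    intro t ht
    rw [Subgroup.mem_comap, QuotientGroup.mk'_apply, (QuotientGroup.eq_one_iff t).2 ht]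
    exact one_mem _
  constructor
  · rintro ⟨O, h3, h4⟩
    have h5 : (Subgroup.closure (nonrigidC T)).comap (QuotientGroup.mk' T) ≠ ⊤ := by
      intro h
      have h9 := gen_le hneg h3
      rw [h, top_le_iff] at h9
      exact h4 h9
    have h9 : p ∣ ((Subgroup.closure (nonrigidC T)).comap (QuotientGroup.mk' T)).index := by
      obtain ⟨n, hn⟩ := card_pow_top hp hT hidx
      rw [hn] at hmul
      have h10 : ((Subgroup.closure (nonrigidC T)).comap (QuotientGroup.mk' T)).index ∣ p ^ n :=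
        Dvd.intro_left _ hmul
      obtain ⟨k, -, hk⟩ := (Nat.dvd_prime_pow hp).1 h10
      rcases Nat.eq_zero_or_pos k with rfl | hk0
      · rw [pow_zero, Subgroup.index_eq_one] at hk
        exact absurd hk h5
      · rw [hk]
        exact dvd_pow_self p hk0.ne'
    obtain ⟨m, hm⟩ := h9
    have hm0 : m ≠ 0 := by
      rintro rfl
      rw [hm, mul_zero, mul_zero] at hmul
      exact hidx hmul.symm
    rw [hm] at hmul
    calc p * ((nonrigidC T).ncard + 1) ≤ p * Nat.card (Subgroup.closure (nonrigidC T)) :=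
          Nat.mul_le_mul_left p h7
      _ ≤ p * Nat.card (Subgroup.closure (nonrigidC T)) * m :=
          Nat.le_mul_of_pos_right _ (Nat.pos_of_ne_zero hm0)
      _ = T.index := by rw [← hmul]; ring
  · intro h3
    obtain ⟨O, h4, h5, -⟩ := ring_gen hp hT hneg h2
    refine ⟨O, h4, ?_⟩
    intro h9
    rw [h5] at h9
    rw [h9, Subgroup.index_top, mul_one] at hmul
    omega

end

end Pool.Agent.V7H42.ET
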