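import Mathlib
import Pool.Agent.V7H42.ET.Few
import Pool.Agent.Y920.EP.FieldP

set_option autoImplicit false

/-! The group generated by the classes that are not rigid. -/

namespace Pool.Agent.V7H42.ET

open Pool.Agent.Y920.EP

section
variable {F : Type} [Field F] {A : Type} [CommGroup A] {φ : Fˣ →* A}

/-- representatives of the elements of a group generated by classes of units -/
lemma step1h (p : ℕ) (hp : p.Prime) (q : ℕ) (hq : p = 2 * q + 1) (M : ℕ)
    (ha : ∀ a : A, a ^ p = 1) (X : Finset A) (hX : ∀ a ∈ X, ∃ r : Fˣ, φ r = a ∧ En φ M r) :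
    ∃ i : ℕ, Nat.card (Subgroup.closure (X : Set A)) = p ^ i ∧
      ∀ h ∈ Subgroup.closure (X : Set A), ∃ e : Fˣ, φ e = h ∧ En φ (i * q * M) e := by
  classical
  induction X using Finset.induction_on with
  | empty =>
    refine ⟨0, ?_, ?_⟩
    · simp
    · intro h hh
      rw [Finset.coe_empty, Subgroup.closure_empty, Subgroup.mem_bot] at hh
      exact ⟨1, by rw [hh, map_one], en_one _⟩
  | insert a X haX ih =>
    obtain ⟨i, hi, hr⟩ := ih fun b hb => hX b (Finset.mem_insert_of_mem hb)
    obtain ⟨r, hra, hrE⟩ := hX a (Finset.mem_insert_self a X)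
    set K := Subgroup.closure (X : Set A) with hK
    have hK' : Subgroup.closure ((insert a X : Finset A) : Set A) = K ⊔ Subgroup.zpowers a := by
      rw [Finset.coe_insert, Set.insert_eq, Subgroup.closure_union, sup_comm,
        Subgroup.zpowers_eq_closure]
    rw [hK']
    by_cases haK : a ∈ K
    · have : K ⊔ Subgroup.zpowers a = K := by
        rw [sup_eq_left, Subgroup.zpowers_le]
        exact haK
      rw [this]
      exact ⟨i, hi, hr⟩
    have hmem : ∀ h ∈ K ⊔ Subgroup.zpowers a, ∃ k ∈ K, ∃ e : Fin p, h = k * a ^ (e : ℕ) := by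
      intro h hh
      rw [Subgroup.mem_sup] at hh
      obtain ⟨k, hk, y, hy, rfl⟩ := hh
      rw [Subgroup.mem_zpowers_iff] at hy
      obtain ⟨n, rfl⟩ := hy
      have hp0 : (p : ℤ) ≠ 0 := by exact_mod_cast hp.ne_zero
      have hnn : 0 ≤ n % p := Int.emod_nonneg _ hp0
      have hlt : n % p < p := Int.emod_lt_of_pos _ (by exact_mod_cast hp.pos)
      refine ⟨k, hk, ⟨(n % p).toNat, by omega⟩, ?_⟩
      have e1 : a ^ n = a ^ (n % p) := by
        conv_lhs => rw [← Int.emod_add_mul_ediv n p]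
        rw [zpow_add, zpow_mul, zpow_natCast, ha, one_zpow, mul_one]
      have e2 : a ^ (n % p) = a ^ ((n % p).toNat : ℕ) := by
        rw [← zpow_natCast, Int.toNat_of_nonneg hnn]
      rw [e1, e2]
    have hKf : Finite K := by
      apply Nat.finite_of_card_ne_zero
      rw [hi]
      exact (pow_pos hp.pos i).ne'
    have hfin : Finite (K ⊔ Subgroup.zpowers a : Subgroup A) := by
      apply Finite.of_surjective (fun x : K × Fin p =>
        (⟨(x.1 : A) * a ^ (x.2 : ℕ), Subgroup.mul_mem_sup x.1.2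
          (Subgroup.npow_mem_zpowers a _)⟩ : (K ⊔ Subgroup.zpowers a : Subgroup A)))
      rintro ⟨h, hh⟩
      obtain ⟨k, hk, e, he⟩ := hmem h hh
      exact ⟨(⟨k, hk⟩, e), Subtype.ext he.symm⟩
    have hpg : IsPGroup p (K ⊔ Subgroup.zpowers a : Subgroup A) := by
      rintro ⟨x, hx⟩
      refine ⟨1, Subtype.ext ?_⟩
      simp [ha]
    have := Fact.mk hp
    obtain ⟨j, hj⟩ := (IsPGroup.iff_card.1 hpg)
    have hij : i < j := by
      by_contra hcon
      push Not at hcon
      have h1 : Nat.card (K ⊔ Subgroup.zpowers a : Subgroup A) ≤ Nat.card K := by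
        rw [hi, hj]
        exact Nat.pow_le_pow_right hp.pos hcon
      have h2 := Subgroup.eq_of_le_of_card_ge (H := K) (K := K ⊔ Subgroup.zpowers a) le_sup_left h1
      apply haK
      rw [h2]
      exact Subgroup.mem_sup_right (Subgroup.mem_zpowers a)
    have hb : i * q * M + q * M ≤ j * q * M := by
      calc i * q * M + q * M = (i + 1) * q * M := by ring
        _ ≤ j * q * M := by gcongr; omega
    refine ⟨j, hj, fun h hh => ?_⟩
    obtain ⟨k, hk, e, he⟩ := hmem h hh
    obtain ⟨y, hy1, hy2⟩ := hr k hk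
    have he2 := e.2
    rcases Nat.lt_or_ge q (e : ℕ) with h1 | h1
    · refine ⟨y * r⁻¹ ^ (p - (e : ℕ)), ?_, ?_⟩
      · rw [map_mul, map_pow, map_inv, hy1, hra, he]
        congr 1
        have h2 : a ^ (e : ℕ) * a ^ (p - (e : ℕ)) = 1 := by
          rw [← pow_add, Nat.add_sub_cancel' he2.le, ha]
        rw [inv_pow, inv_eq_of_mul_eq_one_left h2]
      · refine en_mono (le_trans ?_ hb) (en_mul hy2 (en_pow (en_inv hrE) (p - (e : ℕ))))
        have h2 : p - (e : ℕ) ≤ q := by omega
        gcongr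
    · refine ⟨y * r ^ (e : ℕ), ?_, ?_⟩
      · rw [map_mul, map_pow, hy1, hra, he]
      · refine en_mono (le_trans ?_ hb) (en_mul hy2 (en_pow hrE (e : ℕ)))
        gcongr

/-- the order of the group generated by the classes that are not rigid -/
theorem grp_bound [Finite A] (p : ℕ) (hp : p.Prime) (q : ℕ) (hq : p = 2 * q + 1) (M : ℕ)
    (hneg : φ (-1) = 1) (hL : HL φ M) (ha : ∀ a : A, a ^ p = 1) :
    ∃ i : ℕ, Nat.card (Subgroup.closure (NR φ)) = p ^ i ∧
      p ^ i ≤ (NR φ).ncard + 3 + 4 * (i * q * M) := by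
  classical
  have hfin : (NR φ).Finite := Set.toFinite _
  obtain ⟨i, hi, hr⟩ := step1h (φ := φ) p hp q hq M ha hfin.toFinset (fun a h => by
    obtain ⟨ha1, r, s, hr, hrs, hs1, hs2⟩ := hfin.mem_toFinset.1 h
    refine ⟨r, hr, ?_⟩
    exact (Pool.Agent.Y705.EP.t_CALC F A φ _ hneg hL).2.2 r s hrs (by rw [hr]; exact ha1) hs1
      (by rw [hr]; exact hs2))
  rw [Set.Finite.coe_toFinset] at hi hr
  refine ⟨i, hi, ?_⟩
  set K := Subgroup.closure (NR φ) with hK
  have hKfin : (K : Set A).Finite := Set.toFinite _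
  set m := i * q * M with hm
  let G : Finset A := hKfin.toFinset.filter fun g =>
    ∃ w : Fˣ, φ w = g ∧ En φ m w ∧ Ml φ w 1
  have hG : G.card ≤ 2 * m + 1 := by
    refine Pool.Agent.Y705.EP.t_SU F A φ m G fun g hg => ?_
    exact (Finset.mem_filter.1 hg).2
  have hsub : hKfin.toFinset ⊆ ({1} ∪ hfin.toFinset) ∪ (G ∪ G.image fun g => g⁻¹) := by
    intro h hh
    have hhK : h ∈ K := by simpa using hh
    obtain ⟨e, he1, he2⟩ := hr h hhK
    simp only [Finset.mem_union, Finset.mem_singleton, Set.Finite.mem_toFinset]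
    by_cases h1 : h = 1
    · exact Or.inl (Or.inl h1)
    by_cases h2 : h ∈ NR φ
    · exact Or.inl (Or.inr h2)
    right
    rcases ml_of hneg (x := e) (by rwa [he1]) (by rwa [he1]) with h3 | h3
    · left
      rw [Finset.mem_filter]
      exact ⟨hh, e, he1, he2, h3⟩
    · right
      rw [Finset.mem_image]
      refine ⟨h⁻¹, ?_, inv_inv h⟩
      rw [Finset.mem_filter]
      refine ⟨by simpa using hhK, e⁻¹, by rw [map_inv, he1], en_inv he2, h3⟩
  have hcardK : hKfin.toFinset.card = p ^ i := by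
    rw [← hi, ← Set.ncard_eq_toFinset_card (K : Set A) hKfin]
    exact (Nat.card_coe_set_eq (K : Set A)).symm
  rw [← hcardK]
  refine (Finset.card_le_card hsub).trans ?_
  refine (Finset.card_union_le _ _).trans ?_
  have h1 : ({1} ∪ hfin.toFinset : Finset A).card ≤ 1 + (NR φ).ncard := by
    refine (Finset.card_union_le _ _).trans ?_
    rw [Finset.card_singleton, ← Set.ncard_eq_toFinset_card (NR φ) hfin]
  have h2 : (G ∪ G.image fun g => g⁻¹).card ≤ (2 * m + 1) + (2 * m + 1) :=
    (Finset.card_union_le _ _).trans (Nat.add_le_add hG (Finset.card_image_le.trans hG))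
  omega

end

end Pool.Agent.V7H42.ET
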