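import Mathlib
import Pool.Agent.V7H42.ET.Grp
import Pool.Agent.V7H42.ET.Ord2
import Pool.Agent.R675.TP.Part
import Pool.Agent.Y98.EP.PCD
import Pool.Agent.Y447.EP.WB
import Pool.Agent.Y232.EP.Coarse
import Pool.Agent.Y349.EP.Symm
import Pool.Agent.Y349.EP.NG

set_option autoImplicit false

/-! From few classes that are not rigid to a valuation ring. -/

namespace Pool.Agent.V7H42.ET

open Pool.Agent.Y920.EP
open Pool.Agent.R675.TP (nn_symm nn_self nn_sum phi_neg_one)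

/-- a valuation ring from a group that contains `NR` -/
theorem val_of_group (p : ℕ) (hp : p.Prime) (hp2 : p ≠ 2) (F : Type) [Field F]
    (hζ : ∃ ζ : F, IsPrimitiveRoot ζ p) {A : Type} [CommGroup A] (φ : Fˣ →* A)
    (hφ : Function.Surjective φ) (hk : φ.ker = pwG F p) (K : Subgroup A) (hK : NR φ ⊆ K) :
    ∃ O : ValuationSubring F, O.unitGroup ≤ K.comap φ ∧ Pw p O := by
  obtain ⟨ζ, hζ⟩ := hζ
  have hpF : (p : F) ≠ 0 := by
    have : NeZero p := ⟨hp.ne_zero⟩
    exact hζ.neZero'.ne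
  have hodd : Odd p := hp.odd_of_ne_two hp2
  have hexp : ∀ a : A, a ^ p = 1 := exp_p hφ hk
  have hneg : φ (-1) = 1 := phi_neg_one hk hp hp2
  have hRP : RP φ.ker (K.comap φ) := rp_of hneg K hK
  have hsq : ∀ x : Fˣ, x * x ∈ K.comap φ → x ∈ K.comap φ := by
    intro x hx
    rw [Subgroup.mem_comap] at hx ⊢
    obtain ⟨m, hm⟩ := hodd
    have : φ x = φ (x * x) ^ (m + 1) := by
      rw [map_mul, ← pow_two, ← pow_mul, show 2 * (m + 1) = p + 1 by omega, pow_succ, hexp,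
        one_mul]
    rw [this]
    exact pow_mem hx _
  have hP := Pool.Agent.Y98.EP.t_PCD F φ.ker (K.comap φ) hRP hsq
  obtain ⟨O, hO⟩ := Pool.Agent.Y447.EP.t_WB' F φ.ker (K.comap φ) hRP hP
  obtain ⟨O', -, hpO, hO'⟩ := Pool.Agent.Y232.EP.t_COARSE' F p hp hpF φ.ker (K.comap φ)
    (fun x => by rw [MonoidHom.mem_ker, phi_one hk]) hRP.le O hO
  refine ⟨O', ?_, hpO, hpF, ?_⟩
  · intro u hu
    refine hO'.units u ?_ ?_
    · rw [← ValuationSubring.valuation_le_one_iff]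
      exact le_of_eq hu
    · rw [← ValuationSubring.valuation_le_one_iff]
      exact le_of_eq (inv_mem hu : u⁻¹ ∈ O'.unitGroup)
  · intro x hx hx'
    obtain ⟨t, ht, e⟩ := hO'.one x hx hx'
    rw [MonoidHom.mem_ker, phi_one hk] at ht
    obtain ⟨b, rfl⟩ := ht
    exact ⟨b, by rw [← e, Units.val_pow_eq_pow_val]⟩

/-- the norm groups in the class group satisfy the axioms -/
lemma lsys (p : ℕ) (hp : p.Prime) (hp2 : p ≠ 2) (F : Type) [Field F]
    (hζ : ∃ ζ : F, IsPrimitiveRoot ζ p) {A : Type} [CommGroup A] (φ : Fˣ →* A)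
    (hφ : Function.Surjective φ) (hk : φ.ker = pwG F p) : Lsys φ (NnF p φ hφ) := by
  have hng := Pool.Agent.Y349.EP.t_NG
  have hsy := Pool.Agent.Y349.EP.t_SYMM
  exact ⟨hφ, phi_neg_one hk hp hp2, nn_symm hφ hk hng hsy hp hp2 hζ,
    nn_self hφ hk hng hsy hp hp2 hζ, nn_sum hφ hk hng hp hp2⟩

/-- the group of classes -/
def CG (F : Type) [Field F] (p : ℕ) : Type := Fˣ ⧸ pwG F p

instance (F : Type) [Field F] (p : ℕ) : CommGroup (CG F p) :=
  QuotientGroup.Quotient.commGroup (pwG F p)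

/-- the quotient map -/
def qm (F : Type) [Field F] (p : ℕ) : Fˣ →* CG F p := QuotientGroup.mk' (pwG F p)

/-- the trivial class and the classes `a` with `N(a) ≠ ⟨a⟩` -/
def nrg (F : Type) [Field F] (p : ℕ) : Set (CG F p) :=
  {c | ∃ a : Fˣ, qm F p a = c ∧
    (a ∈ pwG F p ∨ nmG p a ≠ Subgroup.zpowers a ⊔ pwG F p)}

/-- the trivial class and the classes `g` with `N(g) ∩ N(c) ≠ 1` -/
def lnk {F : Type} [Field F] (p : ℕ) (c : Fˣ) : Set (CG F p) :=
  {d | ∃ g : Fˣ, qm F p g = d ∧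
    (g ∈ pwG F p ∨ ∃ x ∈ nmG p g, x ∈ nmG p c ∧ x ∉ pwG F p)}

section
variable (p : ℕ) (hp : p.Prime) (hp2 : p ≠ 2) (F : Type) [Field F]

lemma qm_surj : Function.Surjective (qm F p) := QuotientGroup.mk'_surjective _

lemma qm_ker : (qm F p).ker = pwG F p := QuotientGroup.ker_mk' _

lemma qm_eq_one {u : Fˣ} : qm F p u = 1 ↔ u ∈ pwG F p := by
  rw [← MonoidHom.mem_ker, qm_ker]

include hp hp2 in
lemma bad_sub : Bad (NnF p (qm F p) (qm_surj p F)) = nrg F p := by
  have hng := Pool.Agent.Y349.EP.t_NG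
  have key : ∀ u : Fˣ, qm F p u ≠ 1 → (NnF p (qm F p) (qm_surj p F) (qm F p u) =
      Subgroup.zpowers (qm F p u) ↔ nmG p u = Subgroup.zpowers u ⊔ pwG F p) := by
    intro u hu
    have hz : ∀ v : Fˣ, qm F p v ∈ Subgroup.zpowers (qm F p u) ↔
        v ∈ Subgroup.zpowers u ⊔ pwG F p := by
      intro v
      constructor
      · intro h
        obtain ⟨k, hk⟩ := Subgroup.mem_zpowers_iff.1 h
        have h1 : v / u ^ k ∈ pwG F p := by
          rw [← qm_eq_one, map_div, map_zpow, hk, div_self']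
        have h2 : v = u ^ k * (v / u ^ k) := (mul_div_cancel _ _).symm
        rw [h2]
        exact Subgroup.mul_mem_sup (Subgroup.mem_zpowers_iff.2 ⟨k, rfl⟩) h1
      · intro h
        obtain ⟨y, hy, z, hz, rfl⟩ := Subgroup.mem_sup.1 h
        obtain ⟨k, rfl⟩ := Subgroup.mem_zpowers_iff.1 hy
        rw [map_mul, map_zpow, (qm_eq_one p F).2 hz, mul_one]
        exact Subgroup.mem_zpowers_iff.2 ⟨k, rfl⟩
    constructor
    · intro h
      ext v
      rw [← hz, ← h, mem_Nn (qm_surj p F) (qm_ker p F) hng hp hp2 hu]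
    · intro h
      ext c
      obtain ⟨v, rfl⟩ := qm_surj p F c
      rw [hz, ← h, mem_Nn (qm_surj p F) (qm_ker p F) hng hp hp2 hu]
  ext c
  constructor
  · rintro (rfl | hc)
    · exact ⟨1, rfl, Or.inl (one_mem _)⟩
    · obtain ⟨u, rfl⟩ := qm_surj p F c
      by_cases hu : qm F p u = 1
      · exact ⟨u, rfl, Or.inl ((qm_eq_one p F).1 hu)⟩
      · exact ⟨u, rfl, Or.inr fun h => hc ((key u hu).2 h)⟩
  · rintro ⟨u, rfl, hu | hu⟩
    · exact Or.inl ((qm_eq_one p F).2 hu)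
    · by_cases hu1 : qm F p u = 1
      · exact Or.inl hu1
      · exact Or.inr fun h => hu ((key u hu1).1 h)

include hp hp2 in
lemma lk_sub {c : Fˣ} (hc : c ∉ pwG F p) :
    Lk (NnF p (qm F p) (qm_surj p F)) (qm F p c) ⊆ lnk p c := by
  have hng := Pool.Agent.Y349.EP.t_NG
  rintro g ⟨n, hn1, hnc, hng'⟩
  obtain ⟨u, rfl⟩ := qm_surj p F g
  obtain ⟨x, rfl⟩ := qm_surj p F n
  refine ⟨u, rfl, ?_⟩
  by_cases hu : qm F p u = 1
  · exact Or.inl ((qm_eq_one p F).1 hu)
  rw [mem_Nn (qm_surj p F) (qm_ker p F) hng hp hp2 hu] at hng'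
  rw [mem_Nn (qm_surj p F) (qm_ker p F) hng hp hp2 (fun h => hc ((qm_eq_one p F).1 h))] at hnc
  exact Or.inr ⟨x, hng', hnc, fun h => hn1 ((qm_eq_one p F).2 h)⟩

include hp hp2 in
lemma lnk_sub {c : Fˣ} (hc : c ∉ pwG F p) :
    lnk p c ⊆ insert 1 (Lk (NnF p (qm F p) (qm_surj p F)) (qm F p c)) := by
  have hng := Pool.Agent.Y349.EP.t_NG
  rintro g ⟨u, rfl, hu⟩
  by_cases hu1 : u ∈ pwG F p
  · exact Or.inl ((qm_eq_one p F).2 hu1)
  rcases hu with hu | ⟨x, h1, h2, h3⟩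
  · exact absurd hu hu1
  · refine Or.inr ⟨qm F p x, fun h => h3 ((qm_eq_one p F).1 h), ?_, ?_⟩
    · exact (mem_Nn (qm_surj p F) (qm_ker p F) hng hp hp2
        (fun h => hc ((qm_eq_one p F).1 h))).2 h2
    · exact (mem_Nn (qm_surj p F) (qm_ker p F) hng hp hp2
        (fun h => hu1 ((qm_eq_one p F).1 h))).2 h1

end

/-- `max p m` bounds the numbers of linked classes -/
theorem lnk_le (p : ℕ) (hp : p.Prime) (hp2 : p ≠ 2) (F : Type) [Field F]
    (hζ : ∃ ζ : F, IsPrimitiveRoot ζ p) (hfin : (pwG F p).index ≠ 0) (c : Fˣ)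
    (hc : c ∉ pwG F p) : (lnk p c).ncard ≤ max p (nrg F p).ncard := by
  have hA : Finite (CG F p) := Nat.finite_of_card_ne_zero hfin
  have hS := lsys p hp hp2 F hζ (qm F p) (qm_surj p F) (qm_ker p F)
  have hexp : ∀ a : CG F p, a ^ p = 1 := exp_p (qm_surj p F) (qm_ker p F)
  have h1 := lk_bound hp hexp hS (qm F p c) (fun h => hc ((qm_eq_one p F).1 h))
  rw [bad_sub p hp hp2 F] at h1
  refine le_trans (Set.ncard_le_ncard ?_ (Set.toFinite _)) h1
  refine (lnk_sub p hp hp2 F hc).trans (Set.insert_subset ?_ subset_rfl)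
  refine ⟨qm F p c, fun h => hc ((qm_eq_one p F).1 h), hS.self _, ?_⟩
  exact hS.symm _ _ (one_mem _)

/-- a compatible valuation ring if the classes that are not strongly rigid generate a proper
subgroup -/
theorem val_of_ne_top (p : ℕ) (hp : p.Prime) (hp2 : p ≠ 2) (F : Type) [Field F]
    (hζ : ∃ ζ : F, IsPrimitiveRoot ζ p)
    (h : Subgroup.closure (NR (qm F p)) ≠ ⊤) :
    ∃ O : ValuationSubring F, Pw p O ∧ O.unitGroup ⊔ pwG F p ≠ ⊤ := by
  obtain ⟨O, hO1, hO2⟩ := val_of_group p hp hp2 F hζ (qm F p) (qm_surj p F) (qm_ker p F)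
    (Subgroup.closure (NR (qm F p))) Subgroup.subset_closure
  have hle : O.unitGroup ⊔ pwG F p ≤ (Subgroup.closure (NR (qm F p))).comap (qm F p) := by
    refine sup_le hO1 ?_
    intro x hx
    rw [Subgroup.mem_comap, (qm_eq_one p F).2 hx]
    exact one_mem _
  refine ⟨O, hO2, fun htop => h ?_⟩
  rw [htop] at hle
  rw [eq_top_iff]
  intro a _
  obtain ⟨u, rfl⟩ := qm_surj p F a
  exact hle (Subgroup.mem_top u)

lemma num1 {p m : ℕ} (hp : 3 ≤ p) : m + (p - 2) * (p - 1) + 3 * p = m + p ^ 2 + 2 := by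
  obtain ⟨q, rfl⟩ : ∃ q, p = q + 3 := ⟨p - 3, by omega⟩
  have h1 : q + 3 - 2 = q + 1 := by omega
  have h2 : q + 3 - 1 = q + 2 := by omega
  rw [h1, h2]
  ring

/-- the classes `a ≠ 1` such that `1 + x` lies in the class `1` or `a` for all `x` in `a` -/
def srg (F : Type) [Field F] (p : ℕ) : Set (CG F p) :=
  {c | ∃ a : Fˣ, qm F p a = c ∧ a ∉ pwG F p ∧ ∀ x v : Fˣ, a⁻¹ * x ∈ pwG F p →
    (v : F) = 1 + x → v ∈ pwG F p ∨ x⁻¹ * v ∈ pwG F p}

lemma srg_sub (p : ℕ) (hp : p.Prime) (hp2 : p ≠ 2) (F : Type) [Field F] :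
    srg F p ⊆ (insert 1 (NR (qm F p)))ᶜ := by
  have hneg : qm F p (-1) = 1 := phi_neg_one (qm_ker p F) hp hp2
  rintro _ ⟨a, rfl, ha, h⟩ (h1 | ⟨h1, r, s, hr, hrs, hs1, hs2⟩)
  · exact ha ((qm_eq_one p F).1 h1)
  · rcases h (-r) s ((qm_eq_one p F).1 (by
      rw [map_mul, map_inv, phi_neg hneg, hr, inv_mul_cancel])) (by
      rw [Units.val_neg]; linear_combination hrs) with h2 | h2
    · exact hs1 ((qm_eq_one p F).2 h2)
    · apply hs2
      have h3 := (qm_eq_one p F).2 h2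
      rw [map_mul, map_inv, phi_neg hneg, hr, inv_mul_eq_one] at h3
      exact h3.symm

/-- many strongly rigid classes, compared with the numbers of linked classes -/
theorem val_c (p : ℕ) (hp : p.Prime) (hp2 : p ≠ 2) (F : Type) [Field F]
    (hζ : ∃ ζ : F, IsPrimitiveRoot ζ p) (n : ℕ) (hn : (pwG F p).index = p ^ n) (M : ℕ)
    (hM : ∀ c : Fˣ, c ∉ pwG F p → (lnk p c).ncard ≤ M)
    (h : (XX (qm F p)).ncard + 8 * M + 3 ≤ p ^ n)
    (h' : (2 * n * (p - 1) + 16) * M + 6 < p ^ n ∨ (8 * p + 240) * M + 60 < p ^ n) :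
    ∃ O : ValuationSubring F, Pw p O ∧ O.unitGroup ⊔ pwG F p ≠ ⊤ := by
  have hcard : Nat.card (CG F p) = p ^ n := hn
  have hA : Finite (CG F p) := Nat.finite_of_card_ne_zero (by
    rw [hcard]; exact (pow_pos hp.pos n).ne')
  have hS := lsys p hp hp2 F hζ (qm F p) (qm_surj p F) (qm_ker p F)
  have hexp : ∀ a : CG F p, a ^ p = 1 := exp_p (qm_surj p F) (qm_ker p F)
  have hMM : ∀ c : CG F p, c ≠ 1 → (Lk (NnF p (qm F p) (qm_surj p F)) c).ncard ≤ M := by
    intro c hc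
    obtain ⟨u, rfl⟩ := qm_surj p F c
    have hu : u ∉ pwG F p := fun h => hc ((qm_eq_one p F).2 h)
    exact (Set.ncard_le_ncard (lk_sub p hp hp2 F hu) (Set.toFinite _)).trans (hM u hu)
  have hL : HL (qm F p) M := hl_of_lk hS fun c hc => ⟨Set.toFinite _, hMM c hc⟩
  have hcalc := Pool.Agent.Y705.EP.t_CALC F (CG F p) (qm F p) _ hS.neg hL
  refine val_of_ne_top p hp hp2 F hζ fun htop => ?_
  rcases two_bound hS.neg hL htop with h1 | h1
  · rw [hcard] at h1
    omega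
  rcases h' with h2 | h2
  · obtain ⟨q, hq⟩ := hp.odd_of_ne_two hp2
    obtain ⟨i, hi, hi2⟩ := grp_bound p hp q hq M hS.neg hL hexp
    have h3 : (1 : CG F p) ∉ NR (qm F p) := fun h => h.1 rfl
    have h1' : (insert 1 (NR (qm F p))).ncard ≤ 16 * M + 4 := h1
    rw [Set.ncard_insert_of_notMem h3 (Set.toFinite _)] at h1'
    have hin : p ^ i = p ^ n := by
      rw [← hi, htop, ← hcard]
      exact Nat.card_congr (Equiv.Set.univ _)
    have hin' : i = n := Nat.pow_right_injective hp.two_le hin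
    have h4 : 4 * (i * q * M) = 2 * n * (p - 1) * M := by
      have h5 : p - 1 = 2 * q := by omega
      rw [h5, hin']
      ring
    have h5 : (2 * n * (p - 1) + 16) * M = 2 * n * (p - 1) * M + 16 * M := by ring
    omega
  · have hunit := un_of (p := p) hS hMM (E := p * (2 * M)) (by
      intro a c d ha hc hd hca hda
      refine (sat_card hp hexp _ _).trans (Nat.mul_le_mul_left _ ?_)
      refine (Set.ncard_union_le _ _).trans ?_
      have := hMM c hc
      have := hMM d hd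
      omega)
    have h3 : (8 * p + 240) * M = 8 * (p * M) + 240 * M := by ring
    have h4 : p * (2 * M) = 2 * (p * M) := by ring
    refine ord_bound hexp hS.neg hunit (XX (qm F p)) subset_rfl
      (fun a ha => (xx_inv hS.neg).1 ha) (x := 16 * M + 4) (κ := 2 * (16 * M + 4))
      (e := 2 * (p * M)) h1 ?_ le_rfl (by omega) (by rw [hcard]; omega) (by rw [hcard]; omega) htop
    intro y hy
    exact dd_le_pow2 hp (hcalc.1 y fun h => hy (Or.inl h))

/-- the number of classes that are not strongly rigid -/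
theorem xx_srg (p : ℕ) (hp : p.Prime) (hp2 : p ≠ 2) (F : Type) [Field F]
    (n : ℕ) (hn : (pwG F p).index = p ^ n) :
    (XX (qm F p)).ncard + (srg F p).ncard ≤ p ^ n := by
  have hcard : Nat.card (CG F p) = p ^ n := hn
  have hA : Finite (CG F p) := Nat.finite_of_card_ne_zero (by
    rw [hcard]; exact (pow_pos hp.pos n).ne')
  have h1 : (srg F p).ncard ≤ (XX (qm F p))ᶜ.ncard :=
    Set.ncard_le_ncard (srg_sub p hp hp2 F) (Set.toFinite _)
  have h2 := Set.ncard_add_ncard_compl (XX (qm F p))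
  rw [hcard] at h2
  omega

theorem xx_nrg (p : ℕ) (hp : p.Prime) (hp2 : p ≠ 2) (F : Type) [Field F]
    (hζ : ∃ ζ : F, IsPrimitiveRoot ζ p) (n : ℕ) (hn : (pwG F p).index = p ^ n) :
    (XX (qm F p)).ncard + 3 ≤ (nrg F p).ncard + p ^ 2 := by
  have hcard : Nat.card (CG F p) = p ^ n := hn
  have hA : Finite (CG F p) := Nat.finite_of_card_ne_zero (by
    rw [hcard]; exact (pow_pos hp.pos n).ne')
  have hS := lsys p hp hp2 F hζ (qm F p) (qm_surj p F) (qm_ker p F)
  have hexp : ∀ a : CG F p, a ^ p = 1 := exp_p (qm_surj p F) (qm_ker p F)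
  have h1 := nr_bound hp hexp hS
  rw [bad_sub p hp hp2 F] at h1
  have h2 : (XX (qm F p)).ncard ≤ (insert 1 (NR (qm F p)) ∪ nrg F p).ncard :=
    Set.ncard_le_ncard Set.subset_union_left (Set.toFinite _)
  have hp3 : 3 ≤ p := by
    have := hp.two_le
    omega
  have h6 := num1 (m := (nrg F p).ncard) hp3
  omega

/-- few classes that are not rigid: a bound that does not depend on the rank -/
theorem val_b (p : ℕ) (hp : p.Prime) (hp2 : p ≠ 2) (F : Type) [Field F]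
    (hζ : ∃ ζ : F, IsPrimitiveRoot ζ p) (n : ℕ) (hn : (pwG F p).index = p ^ n) (M : ℕ)
    (hM : ∀ c : Fˣ, c ∉ pwG F p → (lnk p c).ncard ≤ M)
    (h : p * min (nrg F p).ncard (2 * M) + (nrg F p).ncard + p ^ 2 ≤ p ^ n)
    (h' : 11 * ((nrg F p).ncard + p ^ 2) + 4 * max ((nrg F p).ncard + p ^ 2) (2 * M) ≤ p ^ n) :
    ∃ O : ValuationSubring F, Pw p O ∧ O.unitGroup ⊔ pwG F p ≠ ⊤ := by
  have hcard : Nat.card (CG F p) = p ^ n := hn
  have hA : Finite (CG F p) := Nat.finite_of_card_ne_zero (by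
    rw [hcard]; exact (pow_pos hp.pos n).ne')
  have hS := lsys p hp hp2 F hζ (qm F p) (qm_surj p F) (qm_ker p F)
  have hexp : ∀ a : CG F p, a ^ p = 1 := exp_p (qm_surj p F) (qm_ker p F)
  have hMM : ∀ c : CG F p, c ≠ 1 → (Lk (NnF p (qm F p) (qm_surj p F)) c).ncard ≤ M := by
    intro c hc
    obtain ⟨u, rfl⟩ := qm_surj p F c
    have hu : u ∉ pwG F p := fun h => hc ((qm_eq_one p F).2 h)
    exact (Set.ncard_le_ncard (lk_sub p hp hp2 F hu) (Set.toFinite _)).trans (hM u hu)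
  have hp3 : 3 ≤ p := by
    have := hp.two_le
    omega
  have h6 := num1 (m := (nrg F p).ncard) hp3
  have hx := nr_bound hp hexp hS
  rw [bad_sub p hp hp2 F] at hx
  obtain ⟨x, hxd⟩ : ∃ x : ℕ, x = (nrg F p).ncard + (p - 2) * (p - 1) := ⟨_, rfl⟩
  obtain ⟨m, hm⟩ : ∃ m : ℕ, m = (nrg F p).ncard := ⟨_, rfl⟩
  have hunit := un_of (p := p) hS hMM (E := p * min m (2 * M)) (by
    intro a c d ha hc hd hca hda
    have h1 := sat_bound hp hexp hS a c d ha hc hd hca hda
    rw [bad_sub p hp hp2 F, ← hm] at h1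
    have h2 : (Sat (Lk (NnF p (qm F p) (qm_surj p F)) c ∪
        Lk (NnF p (qm F p) (qm_surj p F)) d) a).ncard ≤ p * (2 * M) := by
      refine (sat_card hp hexp _ _).trans (Nat.mul_le_mul_left _ ?_)
      refine (Set.ncard_union_le _ _).trans ?_
      have := hMM c hc
      have := hMM d hd
      omega
    rw [← Nat.mul_min_mul_left]
    exact le_min h1 h2)
  rw [← hm] at h h' h6 hxd
  have h7 : 4 * max x (2 * M) ≤ 4 * max (m + p ^ 2) (2 * M) := by
    apply Nat.mul_le_mul_left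
    exact max_le_max (by omega) le_rfl
  have h8 := le_max_left x (2 * M)
  have h9 := le_max_right x (2 * M)
  refine val_of_ne_top p hp hp2 F hζ (ord_bound hexp hS.neg hunit
    (XX (qm F p) ∪ Bad (NnF p (qm F p) (qm_surj p F))) Set.subset_union_left ?_ (x := x)
    (κ := x + max x (2 * M)) (e := p) ?_ ?_ (by omega) (by omega) ?_ ?_)
  · rintro a (ha | ha)
    · exact Or.inl ((xx_inv hS.neg).1 ha)
    · exact Or.inr (bad_inv hS.symm ha)
  · rw [bad_sub p hp hp2 F, hxd, hm]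
    exact hx
  · intro y hy
    rw [Set.mem_union, not_or] at hy
    exact dd_le_pow hp hexp hS hy.1 hy.2
  · rw [hcard]; omega
  · rw [hcard]; omega

/-- the numbers of linked classes if all norm groups have at most `N` classes -/
theorem lnk_le_sq (p : ℕ) (hp : p.Prime) (hp2 : p ≠ 2) (F : Type) [Field F]
    (hζ : ∃ ζ : F, IsPrimitiveRoot ζ p) (hfin : (pwG F p).index ≠ 0) (N : ℕ)
    (hN : ∀ a : Fˣ, a ∉ pwG F p → (pwG F p).relIndex (nmG p a) ≤ N) (c : Fˣ)
    (hc : c ∉ pwG F p) : (lnk p c).ncard ≤ N ^ 2 := by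
  classical
  have hA : Finite (CG F p) := Nat.finite_of_card_ne_zero hfin
  have hS := lsys p hp hp2 F hζ (qm F p) (qm_surj p F) (qm_ker p F)
  have hsys := sys (qm_surj p F) (qm_ker p F) Pool.Agent.Y349.EP.t_NG Pool.Agent.Y349.EP.t_SYMM
    hp hp2 hζ N (fun a ha => ⟨by
      intro h0
      apply hfin
      have h1 : pwG F p ≤ nmG p a := by
        rintro _ ⟨x, rfl⟩
        exact (Pool.Agent.Y349.EP.t_NG p hp hp2 F).1 a x
      have h2 := Subgroup.relIndex_mul_index h1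
      rw [h0, zero_mul] at h2
      exact h2.symm, hN a ha⟩)
  have hc1 : qm F p c ≠ 1 := fun h => hc ((qm_eq_one p F).1 h)
  obtain ⟨NF, hNF1, hNF2⟩ := Pool.Agent.Y705.EP.exists_NF hsys
  have hsub : lnk p c ⊆ ((((NF (qm F p c)).erase 1).biUnion fun g => NF g) : Finset _) := by
    intro g hg
    have h1 : g ∈ Lk (NnF p (qm F p) (qm_surj p F)) (qm F p c) := by
      rcases lnk_sub p hp hp2 F hc hg with h | h
      · rw [h]
        refine ⟨qm F p c, hc1, hS.self _, hS.symm _ _ (one_mem _)⟩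
      · exact h
    obtain ⟨n, hn1, hnc, hng⟩ := h1
    rw [Finset.mem_coe, Finset.mem_biUnion]
    exact ⟨n, Finset.mem_erase.2 ⟨hn1, (hNF2 _ _ hc1).2 hnc⟩, (hNF2 _ _ hn1).2 (hS.symm _ _ hng)⟩
  refine (Set.ncard_le_ncard hsub (Set.toFinite _)).trans ?_
  rw [Set.ncard_coe_finset]
  refine Finset.card_biUnion_le.trans ?_
  calc ∑ g ∈ (NF (qm F p c)).erase 1, (NF g).card
      ≤ ∑ _g ∈ (NF (qm F p c)).erase 1, N := Finset.sum_le_sum fun g _ => hNF1 g
    _ = ((NF (qm F p c)).erase 1).card * N := by rw [Finset.sum_const, smul_eq_mul]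
    _ ≤ N * N := Nat.mul_le_mul_right _ (Finset.card_erase_le.trans (hNF1 _))
    _ = N ^ 2 := (sq N).symm

end Pool.Agent.V7H42.ET
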